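import Mathlib

set_option autoImplicit false

namespace Pool.Agent.Lib.MP_b7840d_al

variable {K V : Type*} [Field K] [AddCommGroup V] [Module K V]

/-- The subspace `V_i`: the eigenspace of `A` for the eigenvalue `θ i` if `0 ≤ i ≤ d`, and `0`
for all other integers `i` (so `V_{-1} = V_{d+1} = 0`). -/
noncomputable def eigSp (A : Module.End K V) (d : ℕ) (θ : ℤ → K) (i : ℤ) : Submodule K V :=
  open scoped Classical in if 0 ≤ i ∧ i ≤ d then A.eigenspace (θ i) else ⊥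

/-- `A` is diagonalizable and `V_0, ..., V_d` (the eigenspaces for `θ 0, ..., θ d`) is an ordering
of its eigenspaces. -/
structure IsEigenOrdering (A : Module.End K V) (d : ℕ) (θ : ℤ → K) : Prop where
  injOn : Set.InjOn θ (Set.Icc 0 (d : ℤ))
  ne_bot : ∀ i ∈ Set.Icc 0 (d : ℤ), eigSp A d θ i ≠ ⊥
  iSup_eq_top : ⨆ i, eigSp A d θ i = ⊤

/-- `A, As` is a tridiagonal pair on `V`; `V_0, ..., V_d` (eigenvalues `θ 0, ..., θ d`) and
`V*_0, ..., V*_δ` (eigenvalues `θs 0, ..., θs δ`) are the orderings of the eigenspaces of `A` and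
of `As` in the definition of a tridiagonal pair. -/
structure IsTridiagonalPair (A As : Module.End K V) (d δ : ℕ) (θ θs : ℤ → K) : Prop where
  ord : IsEigenOrdering A d θ
  ord_star : IsEigenOrdering As δ θs
  tri : ∀ i, ∀ v ∈ eigSp A d θ i,
    As v ∈ eigSp A d θ (i - 1) ⊔ eigSp A d θ i ⊔ eigSp A d θ (i + 1)
  tri_star : ∀ i, ∀ v ∈ eigSp As δ θs i,
    A v ∈ eigSp As δ θs (i - 1) ⊔ eigSp As δ θs i ⊔ eigSp As δ θs (i + 1)
  irred : ∀ W : Submodule K V, (∀ w ∈ W, A w ∈ W) → (∀ w ∈ W, As w ∈ W) → W = ⊥ ∨ W = ⊤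

/-- `V*_0 + V*_1 + ... + V*_i`. -/
noncomputable def flag (As : Module.End K V) (δ : ℕ) (θs : ℤ → K) (i : ℤ) : Submodule K V :=
  ⨆ j : ℤ, ⨆ _ : j ≤ i, eigSp As δ θs j

/-- `V_i + V_{i+1} + ... + V_d`. -/
noncomputable def upflag (A : Module.End K V) (d : ℕ) (θ : ℤ → K) (i : ℤ) : Submodule K V :=
  ⨆ j : ℤ, ⨆ _ : i ≤ j, eigSp A d θ j

/-- `U_i = (V*_0 + ... + V*_i) ∩ (V_i + ... + V_d)` (the split decomposition). -/
noncomputable def splitSp (A As : Module.End K V) (d δ : ℕ) (θ θs : ℤ → K) (i : ℤ) :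
    Submodule K V := flag As δ θs i ⊓ upflag A d θ i

/-- The space of the question: all linear maps `X : V → V` with `X V*_i ⊆ V*_0 + ... + V*_i` and
`X V_i ⊆ V_{i-1} + V_i + V_{i+1}` for all `i`. -/
def XSpace (A As : Module.End K V) (d δ : ℕ) (θ θs : ℤ → K) :
    Submodule K (Module.End K V) where
  carrier := {X | (∀ i, ∀ v ∈ eigSp As δ θs i, X v ∈ flag As δ θs i) ∧
    (∀ i, ∀ v ∈ eigSp A d θ i,
      X v ∈ eigSp A d θ (i - 1) ⊔ eigSp A d θ i ⊔ eigSp A d θ (i + 1))}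
  add_mem' := fun hX hY =>
    ⟨fun i v hv => Submodule.add_mem _ (hX.1 i v hv) (hY.1 i v hv),
      fun i v hv => Submodule.add_mem _ (hX.2 i v hv) (hY.2 i v hv)⟩
  zero_mem' := ⟨fun _ _ _ => Submodule.zero_mem _, fun _ _ _ => Submodule.zero_mem _⟩
  smul_mem' := fun c _ hX =>
    ⟨fun i v hv => Submodule.smul_mem _ c (hX.1 i v hv),
      fun i v hv => Submodule.smul_mem _ c (hX.2 i v hv)⟩

/-- A string basis: finitely many strings `j`, the `j`-th one consisting of vectors `e j i ∈ U_i`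
for `r j ≤ i ≤ d - r j` with `(A - θ_i) e j i = e j (i + 1)` (and `e j i = 0` for all other `i`),
such that all these vectors together form a basis of `V`. -/
structure IsStringBasis (A As : Module.End K V) (d δ : ℕ) (θ θs : ℤ → K) {J : Type} [Fintype J]
    (r : J → ℕ) (e : J → ℤ → V) : Prop where
  two_mul_le : ∀ j, 2 * r j ≤ d
  eq_zero : ∀ j i, ¬ ((r j : ℤ) ≤ i ∧ i ≤ d - r j) → e j i = 0
  mem : ∀ j i, e j i ∈ splitSp A As d δ θ θs i
  action : ∀ j i, (r j : ℤ) ≤ i → i ≤ d - r j → A (e j i) = θ i • e j i + e j (i + 1)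
  linearIndependent : LinearIndependent K
    (fun p : {p : J × ℤ // (r p.1 : ℤ) ≤ p.2 ∧ p.2 ≤ d - r p.1} => e p.1.1 p.1.2)
  span : Submodule.span K (Set.range
    (fun p : {p : J × ℤ // (r p.1 : ℤ) ≤ p.2 ∧ p.2 ≤ d - r p.1} => e p.1.1 p.1.2)) = ⊤

/-- Sequences with `u_{i+3} - u_i = (β + 1) (u_{i+2} - u_{i+1})` for all integers `i`. -/
def BetaRec (β : K) (u : ℤ → K) : Prop :=
  ∀ i, u (i + 3) = (β + 1) * u (i + 2) - (β + 1) * u (i + 1) + u i

/-- The coefficient sequences `x, y` that occur for maps from a string of positions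
`r, ..., d - r` to a string of positions `s, ..., d - s`. -/
def Block (β : K) (θ : ℤ → K) (d r s : ℤ) (x y : ℤ → K) : Prop :=
  BetaRec β x ∧
    ((s = r ∧ ∃ c : K, ∀ i, r < i → i ≤ d - r →
        y i = (x i - x r) * (θ (i - 1) - θ (d - r)) +
          c * ∑ h ∈ Finset.Ico r i, (θ h - θ (d - h))) ∨
      (s = r + 1 ∧ x r = 0 ∧ ∃ z, BetaRec β z ∧ z r = 0 ∧ z (r + 1) = 0 ∧
        ∀ i, r + 1 < i → i ≤ d - r → y i = x i * (θ (i - 1) - θ r) + z i) ∨
      (s = r + 2 ∧ x r = 0 ∧ x (r + 1) = 0 ∧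
        ∀ i, r + 2 < i → i < d - r → y i = x i * (θ (i - 1) - θ (r + 1))) ∨
      (s = r - 1 ∧ x (d - s) = 0 ∧ ∃ z, BetaRec β z ∧ z (d - s) = 0 ∧ z (d - s + 1) = 0 ∧
        ∀ i, r ≤ i → i ≤ d - r → y i = x (i - 1) * (θ i - θ (d - s)) + z i) ∨
      (s = r - 2 ∧ x (d - s) = 0 ∧ x (d - s - 1) = 0 ∧
        ∀ i, r ≤ i → i ≤ d - r → y i = x (i - 1) * (θ i - θ (d - s - 1))) ∨
      (2 < |s - r| ∧ ∀ i, x i = 0 ∧ y i = 0))

end Pool.Agent.Lib.MP_b7840d_al
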