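import Mathlib
import Pool.Agent.Lib.MP_b7840d_al.Defs

set_option autoImplicit false

namespace Pool.Agent.Lib.MP_b7840d_al

variable {K V : Type*} [Field K] [AddCommGroup V] [Module K V]

section basics

variable {A As : Module.End K V} {d δ : ℕ} {θ θs : ℤ → K}

lemma eigSp_of_mem {i : ℤ} (h : 0 ≤ i ∧ i ≤ d) : eigSp A d θ i = A.eigenspace (θ i) := by
  unfold eigSp; rw [if_pos h]

lemma eigSp_of_not_mem {i : ℤ} (h : ¬ (0 ≤ i ∧ i ≤ d)) : eigSp A d θ i = ⊥ := by
  unfold eigSp; rw [if_neg h]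

lemma eigSp_apply {i : ℤ} {v : V} (hv : v ∈ eigSp A d θ i) : A v = θ i • v := by
  by_cases h : 0 ≤ i ∧ i ≤ d
  · rw [eigSp_of_mem h] at hv
    exact Module.End.mem_eigenspace_iff.mp hv
  · rw [eigSp_of_not_mem h] at hv
    rw [(Submodule.mem_bot K).mp hv]; simp

lemma eigSp_le_flag {i j : ℤ} (h : j ≤ i) : eigSp A d θ j ≤ flag A d θ i :=
  le_iSup₂_of_le j h le_rfl

lemma eigSp_le_upflag {i j : ℤ} (h : i ≤ j) : eigSp A d θ j ≤ upflag A d θ i :=
  le_iSup₂_of_le j h le_rfl

lemma flag_mono {i j : ℤ} (h : i ≤ j) : flag A d θ i ≤ flag A d θ j :=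
  iSup₂_le fun _ hl => eigSp_le_flag (hl.trans h)

lemma upflag_anti {i j : ℤ} (h : i ≤ j) : upflag A d θ j ≤ upflag A d θ i :=
  iSup₂_le fun _ hl => eigSp_le_upflag (h.trans hl)

lemma flag_neg {i : ℤ} (h : i < 0) : flag A d θ i = ⊥ := by
  rw [eq_bot_iff]
  refine iSup₂_le fun j hj => ?_
  rw [eigSp_of_not_mem (by omega)]

lemma upflag_big {i : ℤ} (h : (d : ℤ) < i) : upflag A d θ i = ⊥ := by
  rw [eq_bot_iff]
  refine iSup₂_le fun j hj => ?_
  rw [eigSp_of_not_mem (by omega)]

lemma flag_top (h : IsEigenOrdering A d θ) {i : ℤ} (hi : (d : ℤ) ≤ i) : flag A d θ i = ⊤ := by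
  rw [eq_top_iff, ← h.iSup_eq_top]
  refine iSup_le fun j => ?_
  by_cases hj : j ≤ i
  · exact eigSp_le_flag hj
  · rw [eigSp_of_not_mem (by omega)]; exact bot_le

lemma upflag_top (h : IsEigenOrdering A d θ) {i : ℤ} (hi : i ≤ 0) : upflag A d θ i = ⊤ := by
  rw [eq_top_iff, ← h.iSup_eq_top]
  refine iSup_le fun j => ?_
  by_cases hj : i ≤ j
  · exact eigSp_le_upflag hj
  · rw [eigSp_of_not_mem (by omega)]; exact bot_le

/-- To check something linear on `flag`. -/
lemma map_flag_le {T : Module.End K V} {i : ℤ} {W : Submodule K V}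
    (h : ∀ j ≤ i, ∀ v ∈ eigSp A d θ j, T v ∈ W) : ∀ v ∈ flag A d θ i, T v ∈ W := by
  intro v hv
  have : flag A d θ i ≤ W.comap T := iSup₂_le fun j hj => fun v hv => h j hj v hv
  exact this hv

lemma map_upflag_le {T : Module.End K V} {i : ℤ} {W : Submodule K V}
    (h : ∀ j, i ≤ j → ∀ v ∈ eigSp A d θ j, T v ∈ W) : ∀ v ∈ upflag A d θ i, T v ∈ W := by
  intro v hv
  have : upflag A d θ i ≤ W.comap T := iSup₂_le fun j hj => fun v hv => h j hj v hv
  exact this hv

lemma sub_flag (i : ℤ) : ∀ v ∈ flag A d θ i, (A v - θ i • v) ∈ flag A d θ (i - 1) := by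
  have := map_flag_le (A := A) (d := d) (θ := θ) (T := A - θ i • (1 : Module.End K V)) (i := i)
    (W := flag A d θ (i - 1)) ?_
  · intro v hv; simpa using this v hv
  · intro j hj v hv
    have h1 : (A - θ i • (1 : Module.End K V)) v = (θ j - θ i) • v := by
      simp [eigSp_apply hv, sub_smul]
    rw [h1]
    rcases eq_or_lt_of_le hj with rfl | hlt
    · simp
    · exact Submodule.smul_mem _ _ (eigSp_le_flag (by omega) hv)

lemma sub_upflag (i : ℤ) : ∀ v ∈ upflag A d θ i, (A v - θ i • v) ∈ upflag A d θ (i + 1) := by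
  have := map_upflag_le (A := A) (d := d) (θ := θ) (T := A - θ i • (1 : Module.End K V)) (i := i)
    (W := upflag A d θ (i + 1)) ?_
  · intro v hv; simpa using this v hv
  · intro j hj v hv
    have h1 : (A - θ i • (1 : Module.End K V)) v = (θ j - θ i) • v := by
      simp [eigSp_apply hv, sub_smul]
    rw [h1]
    rcases eq_or_lt_of_le hj with rfl | hlt
    · simp
    · exact Submodule.smul_mem _ _ (eigSp_le_upflag (by omega) hv)

/-- A map acting tridiagonally raises the flag by at most one. -/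
lemma tri_flag {X : Module.End K V}
    (h : ∀ i, ∀ v ∈ eigSp A d θ i,
      X v ∈ eigSp A d θ (i - 1) ⊔ eigSp A d θ i ⊔ eigSp A d θ (i + 1)) (i : ℤ) :
    ∀ v ∈ flag A d θ i, X v ∈ flag A d θ (i + 1) := by
  apply map_flag_le
  intro j hj v hv
  have h1 := h j v hv
  refine (sup_le (sup_le ?_ ?_) ?_ : _ ≤ flag A d θ (i + 1)) h1
  all_goals exact eigSp_le_flag (by omega)

lemma tri_upflag {X : Module.End K V}
    (h : ∀ i, ∀ v ∈ eigSp A d θ i,
      X v ∈ eigSp A d θ (i - 1) ⊔ eigSp A d θ i ⊔ eigSp A d θ (i + 1)) (i : ℤ) :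
    ∀ v ∈ upflag A d θ i, X v ∈ upflag A d θ (i - 1) := by
  apply map_upflag_le
  intro j hj v hv
  have h1 := h j v hv
  refine (sup_le (sup_le ?_ ?_) ?_ : _ ≤ upflag A d θ (i - 1)) h1
  all_goals exact eigSp_le_upflag (by omega)

lemma theta_ne (h : IsEigenOrdering A d θ) {i j : ℤ} (hi : 0 ≤ i ∧ i ≤ d) (hj : 0 ≤ j ∧ j ≤ d)
    (hij : i ≠ j) : θ i ≠ θ j := fun he => hij (h.injOn hi hj he)

/-- disjointness of sums of different eigenspaces -/
lemma eigSp_disjoint_biSup (h : IsEigenOrdering A d θ) (i : ℤ) (p : ℤ → Prop) (hp : ¬ p i) :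
    Disjoint (eigSp A d θ i) (⨆ j : ℤ, ⨆ _ : p j, eigSp A d θ j) := by
  by_cases hi : 0 ≤ i ∧ i ≤ d
  · rw [eigSp_of_mem hi]
    have hind := A.eigenspaces_iSupIndep
    have h1 := hind (θ i)
    refine h1.mono_right ?_
    refine iSup₂_le fun j hj => ?_
    by_cases hj' : 0 ≤ j ∧ j ≤ d
    · rw [eigSp_of_mem hj']
      refine le_iSup₂_of_le (θ j) ?_ le_rfl
      exact theta_ne h hj' hi (by rintro rfl; exact hp hj)
    · rw [eigSp_of_not_mem hj']; exact bot_le
  · rw [eigSp_of_not_mem hi]; exact disjoint_bot_left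

lemma upflag_one_ne_top (h : IsEigenOrdering A d θ) : upflag A d θ 1 ≠ ⊤ := by
  intro htop
  have h1 := eigSp_disjoint_biSup h 0 (fun j => 1 ≤ j) (by norm_num)
  have h2 : (⨆ j : ℤ, ⨆ _ : 1 ≤ j, eigSp A d θ j) = ⊤ := htop
  rw [h2, disjoint_top] at h1
  exact h.ne_bot 0 ⟨le_rfl, by positivity⟩ h1

end basics

section tdpair

variable {A As : Module.End K V} {d δ : ℕ} {θ θs : ℤ → K}

/-- The swapped pair. -/
lemma IsTridiagonalPair.swap (h : IsTridiagonalPair A As d δ θ θs) :
    IsTridiagonalPair As A δ d θs θ :=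
  ⟨h.ord_star, h.ord, h.tri_star, h.tri, fun W h1 h2 => h.irred W h2 h1⟩

lemma eigSp_rev (i : ℤ) : eigSp A d (fun j => θ (d - j)) i = eigSp A d θ (d - i) := by
  unfold eigSp
  by_cases h : 0 ≤ i ∧ i ≤ d
  · rw [if_pos h, if_pos (by omega)]
  · rw [if_neg h, if_neg (by omega)]

lemma flag_rev (i : ℤ) : flag A d (fun j => θ (d - j)) i = upflag A d θ (d - i) := by
  unfold flag upflag
  apply le_antisymm
  · refine iSup₂_le fun j hj => ?_
    rw [eigSp_rev]
    exact le_iSup₂_of_le (d - j) (by omega) le_rfl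
  · refine iSup₂_le fun j hj => ?_
    refine le_iSup₂_of_le (d - j) (by omega) ?_
    rw [eigSp_rev, sub_sub_cancel]

lemma upflag_rev (i : ℤ) : upflag A d (fun j => θ (d - j)) i = flag A d θ (d - i) := by
  unfold flag upflag
  apply le_antisymm
  · refine iSup₂_le fun j hj => ?_
    rw [eigSp_rev]
    exact le_iSup₂_of_le (d - j) (by omega) le_rfl
  · refine iSup₂_le fun j hj => ?_
    refine le_iSup₂_of_le (d - j) (by omega) ?_
    rw [eigSp_rev, sub_sub_cancel]

/-- Reversing the ordering of the eigenspaces of `A`. -/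
lemma IsTridiagonalPair.rev (h : IsTridiagonalPair A As d δ θ θs) :
    IsTridiagonalPair A As d δ (fun j => θ (d - j)) θs where
  ord := by
    refine ⟨?_, ?_, ?_⟩
    · intro i hi j hj hij
      have := h.ord.injOn (show (d : ℤ) - i ∈ Set.Icc 0 (d : ℤ) by
        simp only [Set.mem_Icc] at *; omega) (show (d : ℤ) - j ∈ Set.Icc 0 (d : ℤ) by
        simp only [Set.mem_Icc] at *; omega) hij
      omega
    · intro i hi
      rw [eigSp_rev]
      exact h.ord.ne_bot _ (by simp only [Set.mem_Icc] at *; omega)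
    · rw [eq_top_iff, ← h.ord.iSup_eq_top]
      refine iSup_le fun j => ?_
      refine le_iSup_of_le (d - j) ?_
      rw [eigSp_rev, sub_sub_cancel]
  ord_star := h.ord_star
  tri := by
    intro i v hv
    rw [eigSp_rev] at hv
    rw [eigSp_rev, eigSp_rev, eigSp_rev]
    have := h.tri _ v hv
    have e1 : (d : ℤ) - (i - 1) = d - i + 1 := by ring
    have e2 : (d : ℤ) - (i + 1) = d - i - 1 := by ring
    rw [e1, e2, sup_comm (eigSp A d θ (d - i + 1)), sup_assoc, sup_comm (eigSp A d θ (d - i + 1)),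
      ← sup_assoc, sup_comm (eigSp A d θ (d - i))]
    exact this
  tri_star := h.tri_star
  irred := h.irred

/-- The key vanishing: `(V*_0 + ... + V*_i) ∩ (V_j + ... + V_d) = 0` for `i < j`. -/
lemma flag_inf_upflag (h : IsTridiagonalPair A As d δ θ θs) {i j : ℤ} (hij : i < j) :
    flag As δ θs i ⊓ upflag A d θ j = ⊥ := by
  set r := j - i with hr
  have hr1 : 1 ≤ r := by omega
  set W : Submodule K V := ⨆ l : ℤ, flag As δ θs l ⊓ upflag A d θ (l + r) with hW
  have hle : ∀ l, flag As δ θs l ⊓ upflag A d θ (l + r) ≤ W := fun l =>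
    le_iSup (fun l : ℤ => flag As δ θs l ⊓ upflag A d θ (l + r)) l
  have hA : ∀ w ∈ W, A w ∈ W := by
    intro w hw
    have : W ≤ W.comap A := by
      refine iSup_le fun l v hv => ?_
      have hv1 := hv.1
      have hv2 := hv.2
      have e1 : A v - θ (l + r) • v ∈ flag As δ θs (l + 1) :=
        Submodule.sub_mem _ (tri_flag h.tri_star l v hv1)
          (Submodule.smul_mem _ _ (flag_mono (by omega) hv1))
      have e2 : A v - θ (l + r) • v ∈ upflag A d θ (l + 1 + r) := by
        have := sub_upflag (l + r) v hv2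
        rwa [show l + r + 1 = l + 1 + r by ring] at this
      have e3 := hle (l + 1) ⟨e1, e2⟩
      have e4 := hle l hv
      have e5 := Submodule.add_mem _ e3 (Submodule.smul_mem _ (θ (l + r)) e4)
      simpa using e5
    exact this hw
  have hAs : ∀ w ∈ W, As w ∈ W := by
    intro w hw
    have : W ≤ W.comap As := by
      refine iSup_le fun l v hv => ?_
      have hv1 := hv.1
      have hv2 := hv.2
      have e1 : As v - θs l • v ∈ flag As δ θs (l - 1) := sub_flag l v hv1
      have e2 : As v - θs l • v ∈ upflag A d θ (l - 1 + r) := by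
        have := tri_upflag h.tri (l + r) v hv2
        rw [show l + r - 1 = l - 1 + r by ring] at this
        exact Submodule.sub_mem _ this (Submodule.smul_mem _ _ (upflag_anti (by omega) hv2))
      have e3 := hle (l - 1) ⟨e1, e2⟩
      have e4 := hle l hv
      have e5 := Submodule.add_mem _ e3 (Submodule.smul_mem _ (θs l) e4)
      simpa using e5
    exact this hw
  have hW1 : W ≤ upflag A d θ 1 := by
    refine iSup_le fun l => ?_
    by_cases hl : l < 0
    · rw [flag_neg hl]; simp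
    · exact inf_le_right.trans (upflag_anti (by omega))
  rcases h.irred W hA hAs with h0 | h0
  · rw [eq_bot_iff, ← h0]
    have := hle i
    rwa [show i + r = j by omega] at this
  · exfalso
    rw [h0, top_le_iff] at hW1
    exact upflag_one_ne_top h.ord hW1

lemma le_of_td (h : IsTridiagonalPair A As d δ θ θs) : d ≤ δ := by
  by_contra hlt
  push Not at hlt
  have h1 := flag_inf_upflag h (i := δ) (j := δ + 1) (by omega)
  rw [flag_top h.ord_star le_rfl, top_inf_eq] at h1
  have h2 : eigSp A d θ (δ + 1) ≤ ⊥ := by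
    rw [← h1]; exact eigSp_le_upflag le_rfl
  exact h.ord.ne_bot (δ + 1) (by simp only [Set.mem_Icc]; omega) (le_bot_iff.mp h2)

/-- `δ = d`. -/
lemma diam_eq (h : IsTridiagonalPair A As d δ θ θs) : δ = d :=
  le_antisymm (le_of_td h.swap) (le_of_td h)

/-- `(V*_0 + ... + V*_i) ∩ (V_0 + ... + V_j) = 0` for `i + j < d`. -/
lemma flag_inf_flag (h : IsTridiagonalPair A As d δ θ θs) {i j : ℤ} (hij : i + j < d) :
    flag As δ θs i ⊓ flag A d θ j = ⊥ := by
  have := flag_inf_upflag h.rev (i := i) (j := d - j) (by omega)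
  rwa [upflag_rev, sub_sub_cancel] at this

lemma Usp_neg {i : ℤ} (hi : i < 0) : splitSp A As d δ θ θs i = ⊥ := by
  unfold splitSp; rw [flag_neg hi, bot_inf_eq]

lemma Usp_big {i : ℤ} (hi : (d : ℤ) < i) : splitSp A As d δ θ θs i = ⊥ := by
  unfold splitSp; rw [upflag_big hi, inf_bot_eq]

lemma A_Usp (h : IsTridiagonalPair A As d δ θ θs) {i : ℤ} {u : V}
    (hu : u ∈ splitSp A As d δ θ θs i) : A u - θ i • u ∈ splitSp A As d δ θ θs (i + 1) := by
  refine ⟨?_, sub_upflag i u hu.2⟩
  exact Submodule.sub_mem _ (tri_flag h.tri_star i u hu.1)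
    (Submodule.smul_mem _ _ (flag_mono (by omega) hu.1))

lemma As_Usp (h : IsTridiagonalPair A As d δ θ θs) {i : ℤ} {u : V}
    (hu : u ∈ splitSp A As d δ θ θs i) : As u - θs i • u ∈ splitSp A As d δ θ θs (i - 1) := by
  refine ⟨sub_flag i u hu.1, ?_⟩
  exact Submodule.sub_mem _ (tri_upflag h.tri i u hu.2)
    (Submodule.smul_mem _ _ (upflag_anti (by omega) hu.2))

lemma Usp_zero (h : IsTridiagonalPair A As d δ θ θs) :
    splitSp A As d δ θ θs 0 = eigSp As δ θs 0 := by
  unfold splitSp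
  rw [upflag_top h.ord le_rfl, inf_top_eq]
  apply le_antisymm
  · refine iSup₂_le fun j hj => ?_
    rcases eq_or_lt_of_le hj with rfl | hlt
    · exact le_rfl
    · rw [eigSp_of_not_mem (by omega)]; exact bot_le
  · exact eigSp_le_flag le_rfl

/-- The split decomposition spans. -/
lemma iSup_Usp (h : IsTridiagonalPair A As d δ θ θs) : ⨆ i, splitSp A As d δ θ θs i = ⊤ := by
  set W : Submodule K V := ⨆ i, splitSp A As d δ θ θs i with hW
  have hle : ∀ l, splitSp A As d δ θ θs l ≤ W := fun l => le_iSup (splitSp A As d δ θ θs) l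
  have hA : ∀ w ∈ W, A w ∈ W := by
    intro w hw
    have : W ≤ W.comap A := by
      refine iSup_le fun l v hv => ?_
      have e5 := Submodule.add_mem _ (hle (l + 1) (A_Usp h hv))
        (Submodule.smul_mem _ (θ l) (hle l hv))
      simpa using e5
    exact this hw
  have hAs : ∀ w ∈ W, As w ∈ W := by
    intro w hw
    have : W ≤ W.comap As := by
      refine iSup_le fun l v hv => ?_
      have e5 := Submodule.add_mem _ (hle (l - 1) (As_Usp h hv))
        (Submodule.smul_mem _ (θs l) (hle l hv))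
      simpa using e5
    exact this hw
  rcases h.irred W hA hAs with h0 | h0
  · exfalso
    have h1 := hle 0
    rw [h0, Usp_zero h] at h1
    exact h.ord_star.ne_bot 0 ⟨le_rfl, by positivity⟩ (le_bot_iff.mp h1)
  · exact h0

lemma flag_eq_iSup_Usp (h : IsTridiagonalPair A As d δ θ θs) (i : ℤ) :
    flag As δ θs i = ⨆ l : ℤ, ⨆ _ : l ≤ i, splitSp A As d δ θ θs l := by
  set P : Submodule K V := ⨆ l : ℤ, ⨆ _ : l ≤ i, splitSp A As d δ θ θs l with hP
  have hPle : P ≤ flag As δ θs i :=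
    iSup₂_le fun l hl => inf_le_left.trans (flag_mono hl)
  have htop : P ⊔ upflag A d θ (i + 1) = ⊤ := by
    rw [eq_top_iff, ← iSup_Usp h]
    refine iSup_le fun l => ?_
    by_cases hl : l ≤ i
    · exact (le_iSup₂_of_le (f := fun l : ℤ => fun _ : l ≤ i => splitSp A As d δ θ θs l)
        l hl le_rfl).trans le_sup_left
    · exact (inf_le_right.trans (upflag_anti (by omega))).trans le_sup_right
  calc flag As δ θs i = (P ⊔ upflag A d θ (i + 1)) ⊓ flag As δ θs i := by rw [htop, top_inf_eq]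
    _ = P ⊔ upflag A d θ (i + 1) ⊓ flag As δ θs i := sup_inf_assoc_of_le _ hPle
    _ = P := by rw [inf_comm, flag_inf_upflag h (by omega), sup_bot_eq]

lemma upflag_eq_iSup_Usp (h : IsTridiagonalPair A As d δ θ θs) (i : ℤ) :
    upflag A d θ i = ⨆ l : ℤ, ⨆ _ : i ≤ l, splitSp A As d δ θ θs l := by
  set P : Submodule K V := ⨆ l : ℤ, ⨆ _ : i ≤ l, splitSp A As d δ θ θs l with hP
  have hPle : P ≤ upflag A d θ i :=
    iSup₂_le fun l hl => inf_le_right.trans (upflag_anti hl)
  have htop : P ⊔ flag As δ θs (i - 1) = ⊤ := by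
    rw [eq_top_iff, ← iSup_Usp h]
    refine iSup_le fun l => ?_
    by_cases hl : i ≤ l
    · exact (le_iSup₂_of_le (f := fun l : ℤ => fun _ : i ≤ l => splitSp A As d δ θ θs l)
        l hl le_rfl).trans le_sup_left
    · exact (inf_le_left.trans (flag_mono (by omega))).trans le_sup_right
  calc upflag A d θ i = (P ⊔ flag As δ θs (i - 1)) ⊓ upflag A d θ i := by rw [htop, top_inf_eq]
    _ = P ⊔ flag As δ θs (i - 1) ⊓ upflag A d θ i := sup_inf_assoc_of_le _ hPle
    _ = P := by rw [flag_inf_upflag h (by omega), sup_bot_eq]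

/-- The split decomposition is direct. -/
lemma iSupIndep_Usp (h : IsTridiagonalPair A As d δ θ θs) :
    iSupIndep (splitSp A As d δ θ θs) := by
  intro i
  rw [Submodule.disjoint_def]
  intro x hx hx'
  have hle : (⨆ j : ℤ, ⨆ _ : j ≠ i, splitSp A As d δ θ θs j) ≤
      flag As δ θs (i - 1) ⊔ upflag A d θ (i + 1) := by
    refine iSup₂_le fun j hj => ?_
    rcases lt_or_gt_of_ne hj with h1 | h1
    · exact (inf_le_left.trans (flag_mono (by omega))).trans le_sup_left
    · exact (inf_le_right.trans (upflag_anti (by omega))).trans le_sup_right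
  obtain ⟨a, ha, b, hb, hab⟩ := Submodule.mem_sup.mp (hle hx')
  have ha' : a ∈ upflag A d θ i := by
    have : a = x - b := by rw [← hab]; abel
    rw [this]
    exact Submodule.sub_mem _ hx.2 (upflag_anti (by omega) hb)
  have ha0 : a ∈ flag As δ θs (i - 1) ⊓ upflag A d θ i := ⟨ha, ha'⟩
  rw [flag_inf_upflag h (by omega), Submodule.mem_bot] at ha0
  have hx0 : x ∈ flag As δ θs i ⊓ upflag A d θ (i + 1) := by
    refine ⟨hx.1, ?_⟩
    rw [← hab, ha0, zero_add]; exact hb
  rw [flag_inf_upflag h (by omega), Submodule.mem_bot] at hx0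
  exact hx0

end tdpair

end Pool.Agent.Lib.MP_b7840d_al
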