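import Mathlib
import Pool.Agent.Lib.MP_b7840d_al.Flags

set_option autoImplicit false

namespace Pool.Agent.Lib.MP_b7840d_al

variable {K V : Type*} [Field K] [AddCommGroup V] [Module K V]
variable {A As : Module.End K V} {d δ : ℕ} {θ θs : ℤ → K}

/-- `(A - θ_{r+k-1}) ⋯ (A - θ_{r+1}) (A - θ_r)`. -/
noncomputable def chain (A : Module.End K V) (θ : ℤ → K) (r : ℤ) : ℕ → Module.End K V
  | 0 => 1
  | k + 1 => (A - θ (r + k) • (1 : Module.End K V)) * chain A θ r k

@[simp] lemma chain_zero (r : ℤ) : chain A θ r 0 = 1 := rfl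

lemma chain_succ (r : ℤ) (k : ℕ) :
    chain A θ r (k + 1) = (A - θ (r + k) • (1 : Module.End K V)) * chain A θ r k := rfl

lemma chain_succ_apply (r : ℤ) (k : ℕ) (u : V) :
    chain A θ r (k + 1) u = A (chain A θ r k u) - θ (r + k) • chain A θ r k u := by
  rw [chain_succ]; simp

lemma chain_add_apply (r : ℤ) (k l : ℕ) (u : V) :
    chain A θ r (k + l) u = chain A θ (r + k) l (chain A θ r k u) := by
  induction l with
  | zero => simp
  | succ l ih =>
    rw [← add_assoc, chain_succ_apply, chain_succ_apply, ih]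
    push_cast
    rw [add_assoc]

lemma chain_Usp (h : IsTridiagonalPair A As d δ θ θs) {r : ℤ} {u : V}
    (hu : u ∈ splitSp A As d δ θ θs r) (k : ℕ) :
    chain A θ r k u ∈ splitSp A As d δ θ θs (r + k) := by
  induction k with
  | zero => simpa using hu
  | succ k ih =>
    rw [chain_succ_apply]
    have := A_Usp h ih
    push_cast
    rwa [← add_assoc]

lemma chain_eig {r j : ℤ} {v : V} (hv : v ∈ eigSp A d θ j) (k : ℕ) :
    chain A θ r k v = (∏ l ∈ Finset.range k, (θ j - θ (r + l))) • v := by
  induction k with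
  | zero => simp
  | succ k ih =>
    rw [chain_succ_apply, ih, map_smul, eigSp_apply hv, Finset.prod_range_succ]
    module

lemma chain_ker (h : IsEigenOrdering A d θ) {r : ℤ} (hr : 0 ≤ r) (k : ℕ) (hk : r + k ≤ d + 1)
    {u : V} (hu : chain A θ r k u = 0) : u ∈ flag A d θ (r + k - 1) := by
  induction k generalizing u with
  | zero => 
    have : u = 0 := by simpa using hu
    rw [this]; exact Submodule.zero_mem _
  | succ k ih =>
    rw [chain_succ_apply] at hu
    set v := chain A θ r k u with hv
    push_cast at hk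
    have hv1 : v ∈ eigSp A d θ (r + k) := by
      rw [eigSp_of_mem (by omega), Module.End.mem_eigenspace_iff]
      exact sub_eq_zero.mp hu
    have hc := chain_eig (r := r) hv1 k
    set c := ∏ l ∈ Finset.range k, (θ (r + k) - θ (r + l)) with hcdef
    have hc0 : c ≠ 0 := by
      rw [hcdef, Finset.prod_ne_zero_iff]
      intro l hl
      rw [Finset.mem_range] at hl
      exact sub_ne_zero.mpr (theta_ne h (by omega) (by omega) (by omega))
    have h1 : chain A θ r k (u - c⁻¹ • v) = 0 := by
      rw [map_sub, map_smul, hc, ← hv, smul_smul, inv_mul_cancel₀ hc0, one_smul, sub_self]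
    have h2 := ih (by omega) h1
    have h3 : u = (u - c⁻¹ • v) + c⁻¹ • v := by abel
    rw [h3]
    push_cast
    refine Submodule.add_mem _ (flag_mono (by omega) h2)
      (Submodule.smul_mem _ _ (eigSp_le_flag (by omega) hv1))

lemma chain_inj (h : IsTridiagonalPair A As d δ θ θs) {r : ℤ} (hr : 0 ≤ r) {k : ℕ}
    (hk : 2 * r + k ≤ d) {u : V} (hu : u ∈ splitSp A As d δ θ θs r) (h0 : chain A θ r k u = 0) :
    u = 0 := by
  have h1 := chain_ker h.ord hr k (by omega) h0
  have h2 : u ∈ flag As δ θs r ⊓ flag A d θ (r + k - 1) := ⟨hu.1, h1⟩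
  rw [flag_inf_flag h (by omega), Submodule.mem_bot] at h2
  exact h2

section dims

variable [FiniteDimensional K V]

omit [FiniteDimensional K V] in
lemma flag_succ (i : ℤ) : flag A d θ i = flag A d θ (i - 1) ⊔ eigSp A d θ i := by
  apply le_antisymm
  · refine iSup₂_le fun j hj => ?_
    rcases eq_or_lt_of_le hj with rfl | hlt
    · exact le_sup_right
    · exact (eigSp_le_flag (by omega)).trans le_sup_left
  · exact sup_le (flag_mono (by omega)) (eigSp_le_flag le_rfl)

omit [FiniteDimensional K V] in
lemma upflag_succ (i : ℤ) : upflag A d θ i = upflag A d θ (i + 1) ⊔ eigSp A d θ i := by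
  apply le_antisymm
  · refine iSup₂_le fun j hj => ?_
    rcases eq_or_lt_of_le hj with rfl | hlt
    · exact le_sup_right
    · exact (eigSp_le_upflag (by omega)).trans le_sup_left
  · exact sup_le (upflag_anti (by omega)) (eigSp_le_upflag le_rfl)

lemma finrank_flag (h : IsEigenOrdering A d θ) (i : ℤ) :
    Module.finrank K (flag A d θ i) =
      Module.finrank K (flag A d θ (i - 1)) + Module.finrank K (eigSp A d θ i) := by
  have hd := eigSp_disjoint_biSup h i (fun j => j ≤ i - 1) (by omega)
  have h1 := Submodule.finrank_sup_add_finrank_inf_eq (flag A d θ (i - 1)) (eigSp A d θ i)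
  have h2 : flag A d θ (i - 1) ⊓ eigSp A d θ i = ⊥ := by
    rw [inf_comm]; exact hd.eq_bot
  rw [h2, finrank_bot, add_zero, ← flag_succ] at h1
  exact h1

lemma finrank_upflag (h : IsEigenOrdering A d θ) (i : ℤ) :
    Module.finrank K (upflag A d θ i) =
      Module.finrank K (upflag A d θ (i + 1)) + Module.finrank K (eigSp A d θ i) := by
  have hd := eigSp_disjoint_biSup h i (fun j => i + 1 ≤ j) (by omega)
  have h1 := Submodule.finrank_sup_add_finrank_inf_eq (upflag A d θ (i + 1)) (eigSp A d θ i)
  have h2 : upflag A d θ (i + 1) ⊓ eigSp A d θ i = ⊥ := by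
    rw [inf_comm]; exact hd.eq_bot
  rw [h2, finrank_bot, add_zero, ← upflag_succ] at h1
  exact h1

omit [FiniteDimensional K V] in
lemma flag_eq_Usp (h : IsTridiagonalPair A As d δ θ θs) (i : ℤ) :
    flag As δ θs i = flag As δ θs (i - 1) ⊔ splitSp A As d δ θ θs i := by
  rw [flag_eq_iSup_Usp h i, flag_eq_iSup_Usp h (i - 1)]
  apply le_antisymm
  · refine iSup₂_le fun j hj => ?_
    rcases eq_or_lt_of_le hj with rfl | hlt
    · exact le_sup_right
    · exact (le_iSup₂_of_le (f := fun l : ℤ => fun _ : l ≤ i - 1 => splitSp A As d δ θ θs l)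
        j (by omega) le_rfl).trans le_sup_left
  · refine sup_le (iSup₂_le fun j hj => ?_) ?_
    · exact le_iSup₂_of_le (f := fun l : ℤ => fun _ : l ≤ i => splitSp A As d δ θ θs l)
        j (by omega) le_rfl
    · exact le_iSup₂_of_le (f := fun l : ℤ => fun _ : l ≤ i => splitSp A As d δ θ θs l)
        i le_rfl le_rfl

omit [FiniteDimensional K V] in
lemma upflag_eq_Usp (h : IsTridiagonalPair A As d δ θ θs) (i : ℤ) :
    upflag A d θ i = upflag A d θ (i + 1) ⊔ splitSp A As d δ θ θs i := by
  rw [upflag_eq_iSup_Usp h i, upflag_eq_iSup_Usp h (i + 1)]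
  apply le_antisymm
  · refine iSup₂_le fun j hj => ?_
    rcases eq_or_lt_of_le hj with rfl | hlt
    · exact le_sup_right
    · exact (le_iSup₂_of_le (f := fun l : ℤ => fun _ : i + 1 ≤ l => splitSp A As d δ θ θs l)
        j (by omega) le_rfl).trans le_sup_left
  · refine sup_le (iSup₂_le fun j hj => ?_) ?_
    · exact le_iSup₂_of_le (f := fun l : ℤ => fun _ : i ≤ l => splitSp A As d δ θ θs l)
        j (by omega) le_rfl
    · exact le_iSup₂_of_le (f := fun l : ℤ => fun _ : i ≤ l => splitSp A As d δ θ θs l)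
        i le_rfl le_rfl

lemma finrank_Usp (h : IsTridiagonalPair A As d δ θ θs) (i : ℤ) :
    Module.finrank K (splitSp A As d δ θ θs i) = Module.finrank K (eigSp A d θ i) := by
  have h1 := Submodule.finrank_sup_add_finrank_inf_eq (upflag A d θ (i + 1))
    (splitSp A As d δ θ θs i)
  have h2 : upflag A d θ (i + 1) ⊓ splitSp A As d δ θ θs i = ⊥ := by
    rw [eq_bot_iff, ← flag_inf_upflag h (i := i) (j := i + 1) (by omega)]
    exact le_inf (inf_le_right.trans inf_le_left) inf_le_left
  rw [h2, finrank_bot, add_zero, ← upflag_eq_Usp h] at h1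
  have h3 := finrank_upflag h.ord i
  omega

lemma finrank_Usp' (h : IsTridiagonalPair A As d δ θ θs) (i : ℤ) :
    Module.finrank K (splitSp A As d δ θ θs i) = Module.finrank K (eigSp As δ θs i) := by
  have h1 := Submodule.finrank_sup_add_finrank_inf_eq (flag As δ θs (i - 1))
    (splitSp A As d δ θ θs i)
  have h2 : flag As δ θs (i - 1) ⊓ splitSp A As d δ θ θs i = ⊥ := by
    rw [eq_bot_iff, ← flag_inf_upflag h (i := i - 1) (j := i) (by omega)]
    exact le_inf inf_le_left (inf_le_right.trans inf_le_right)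
  rw [h2, finrank_bot, add_zero, ← flag_eq_Usp h] at h1
  have h3 := finrank_flag h.ord_star i
  omega

/-- The shape is symmetric. -/
lemma finrank_eigSp_symm (h : IsTridiagonalPair A As d δ θ θs) (i : ℤ) :
    Module.finrank K (eigSp A d θ (d - i)) = Module.finrank K (eigSp A d θ i) := by
  have h1 := finrank_Usp h i
  have h2 := finrank_Usp' h i
  have h3 := finrank_Usp h.rev i
  have h4 := finrank_Usp' h.rev i
  rw [eigSp_rev] at h3
  omega

lemma finrank_Usp_symm (h : IsTridiagonalPair A As d δ θ θs) (i : ℤ) :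
    Module.finrank K (splitSp A As d δ θ θs (d - i)) = Module.finrank K (splitSp A As d δ θ θs i) := by
  rw [finrank_Usp h, finrank_Usp h, finrank_eigSp_symm h]

lemma chain_surj (h : IsTridiagonalPair A As d δ θ θs) {r : ℤ} (hr : 0 ≤ r) {k : ℕ}
    (hk : 2 * r + k = d) {u' : V} (hu' : u' ∈ splitSp A As d δ θ θs (r + k)) :
    ∃ u ∈ splitSp A As d δ θ θs r, chain A θ r k u = u' := by
  let f : splitSp A As d δ θ θs r →ₗ[K] splitSp A As d δ θ θs (r + k) :=
    (chain A θ r k).restrict (fun u hu => chain_Usp h hu k)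
  have hinj : Function.Injective f := by
    rw [← LinearMap.ker_eq_bot, LinearMap.ker_eq_bot']
    intro u hu
    apply Subtype.ext
    refine chain_inj h hr (k := k) (by omega) u.2 ?_
    have := congrArg Subtype.val hu
    simpa [f] using this
  have hfr : Module.finrank K (splitSp A As d δ θ θs r) =
      Module.finrank K (splitSp A As d δ θ θs (r + k)) := by
    rw [← finrank_Usp_symm h r, show (d : ℤ) - r = r + k by omega]
  have hsurj : Function.Surjective f :=
    (LinearMap.injective_iff_surjective_of_finrank_eq_finrank hfr).mp hinj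
  obtain ⟨u, hu⟩ := hsurj ⟨u', hu'⟩
  refine ⟨u, u.2, ?_⟩
  have := congrArg Subtype.val hu
  simpa [f] using this

end dims

end Pool.Agent.Lib.MP_b7840d_al
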