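import Mathlib
import Pool.Agent.Lib.MP_b7840d_al.Chain

set_option autoImplicit false

namespace Pool.Agent.Lib.MP_b7840d_al

variable {K V : Type*} [Field K] [AddCommGroup V] [Module K V]
variable {A As : Module.End K V} {d δ : ℕ} {θ θs : ℤ → K}

/-- Newton interpolation. -/
lemma newton (θ : ℤ → K) (d : ℕ) (hinj : Set.InjOn θ (Set.Icc 0 (d : ℤ))) (z : ℕ → K) :
    ∀ n ≤ d, ∃ c : ℕ → K, ∀ j ≤ n,
      ∑ l ∈ Finset.range (n + 1), c l * ∏ m ∈ Finset.range l, (θ j - θ m) = z j := by
  intro n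
  induction n with
  | zero =>
    intro _
    refine ⟨fun _ => z 0, ?_⟩
    intro j hj
    obtain rfl : j = 0 := by omega
    simp
  | succ n ih =>
    intro hn
    obtain ⟨c, hc⟩ := ih (by omega)
    have hne : ∏ m ∈ Finset.range (n + 1), (θ (n + 1 : ℕ) - θ m) ≠ 0 := by
      rw [Finset.prod_ne_zero_iff]
      intro m hm
      rw [Finset.mem_range] at hm
      refine sub_ne_zero.mpr fun he => ?_
      have := hinj (by simp only [Set.mem_Icc]; omega) (by simp only [Set.mem_Icc]; omega) he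
      omega
    set S := ∑ l ∈ Finset.range (n + 1), c l * ∏ m ∈ Finset.range l, (θ (n + 1 : ℕ) - θ m)
      with hS
    refine ⟨fun l => if l = n + 1 then
      (z (n + 1) - S) / ∏ m ∈ Finset.range (n + 1), (θ (n + 1 : ℕ) - θ m) else c l, ?_⟩
    intro j hj
    rw [Finset.sum_range_succ]
    have h1 : ∑ l ∈ Finset.range (n + 1), (if l = n + 1 then
        (z (n + 1) - S) / ∏ m ∈ Finset.range (n + 1), (θ (n + 1 : ℕ) - θ m) else c l) *
          ∏ m ∈ Finset.range l, (θ j - θ m) =
        ∑ l ∈ Finset.range (n + 1), c l * ∏ m ∈ Finset.range l, (θ j - θ m) := by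
      refine Finset.sum_congr rfl fun l hl => ?_
      rw [Finset.mem_range] at hl
      rw [if_neg (by omega)]
    rw [h1]
    simp only [if_true]
    rcases Nat.lt_or_ge j (n + 1) with hj' | hj'
    · rw [hc j (by omega)]
      have : ∏ m ∈ Finset.range (n + 1), (θ j - θ m) = 0 :=
        Finset.prod_eq_zero (Finset.mem_range.mpr hj') (sub_self _)
      rw [this, mul_zero, add_zero]
    · obtain rfl : j = n + 1 := by omega
      rw [← hS, div_mul_cancel₀ _ hne]; ring

/-- algebra at the end of the proof of the recurrence -/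
lemma rec_of_cubic {c1 c2 c3 s e : K} {a b c f : K} (hc3 : c3 ≠ 0)
    (hab : a ≠ b) (hbc : b ≠ c) (hcf : c ≠ f) (hac : a ≠ c) (hbf : b ≠ f)
    (h1 : c1 * (a - b) + c2 * (a ^ 2 - b ^ 2) + c3 * (a ^ 3 - b ^ 3 - s * (a ^ 2 - b ^ 2)
      + e * (a - b)) = a * b * (a - b))
    (h2 : c1 * (b - c) + c2 * (b ^ 2 - c ^ 2) + c3 * (b ^ 3 - c ^ 3 - s * (b ^ 2 - c ^ 2)
      + e * (b - c)) = b * c * (b - c))
    (h3 : c1 * (c - f) + c2 * (c ^ 2 - f ^ 2) + c3 * (c ^ 3 - f ^ 3 - s * (c ^ 2 - f ^ 2)
      + e * (c - f)) = c * f * (c - f)) :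
    f = c3⁻¹ * c - c3⁻¹ * b + a := by
  have hab' := sub_ne_zero.mpr hab
  have hbc' := sub_ne_zero.mpr hbc
  have hcf' := sub_ne_zero.mpr hcf
  have hac' := sub_ne_zero.mpr hac
  have hbf' := sub_ne_zero.mpr hbf
  have e1 : c1 + c2 * (a + b) + c3 * (a ^ 2 + a * b + b ^ 2 - s * (a + b) + e) = a * b := by
    apply mul_right_cancel₀ hab'; linear_combination h1
  have e2 : c1 + c2 * (b + c) + c3 * (b ^ 2 + b * c + c ^ 2 - s * (b + c) + e) = b * c := by
    apply mul_right_cancel₀ hbc'; linear_combination h2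
  have e3 : c1 + c2 * (c + f) + c3 * (c ^ 2 + c * f + f ^ 2 - s * (c + f) + e) = c * f := by
    apply mul_right_cancel₀ hcf'; linear_combination h3
  have g1 : c2 + c3 * (a + b + c - s) = b := by
    apply mul_right_cancel₀ hac'; linear_combination e1 - e2
  have g2 : c2 + c3 * (b + c + f - s) = c := by
    apply mul_right_cancel₀ hbf'; linear_combination e2 - e3
  have g3 : c3 * (f - a) = c - b := by linear_combination g2 - g1
  have : f - a = c3⁻¹ * (c - b) := by
    rw [← g3, ← mul_assoc, inv_mul_cancel₀ hc3, one_mul]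
  linear_combination this

lemma mod_flag_lead {i : ℤ} {u : V} (hu : u ∈ flag As δ θs i) :
    As u - θs i • u ∈ flag As δ θs (i - 1) := sub_flag i u hu

/-- The eigenvalues `θ_i` of a tridiagonal pair satisfy a three-term type recurrence. -/
theorem exists_beta (h : IsTridiagonalPair A As d δ θ θs) :
    ∃ β : K, ∀ i : ℤ, 0 ≤ i → i + 3 ≤ d →
      θ (i + 3) = (β + 1) * θ (i + 2) - (β + 1) * θ (i + 1) + θ i := by
  classical
  by_cases hd3 : d < 3
  · exact ⟨0, fun i hi hi' => by omega⟩
  push Not at hd3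
  have hδ : δ = d := diam_eq h
  -- the sequence z
  let z : ℕ → K := fun i => -∑ l ∈ Finset.range i, θ l * θ (l + 1) * (θ l - θ (l + 1))
  have hz : ∀ i : ℕ, z i - z (i + 1) = θ i * θ (i + 1) * (θ i - θ (i + 1)) := by
    intro i; simp only [z, Finset.sum_range_succ]; ring
  obtain ⟨c, hc⟩ := newton θ d h.ord.injOn z d le_rfl
  set Z : Module.End K V := ∑ l ∈ Finset.range (d + 1), c l • chain A θ 0 l with hZ
  have hZv : ∀ j : ℕ, j ≤ d → ∀ v ∈ eigSp A d θ j, Z v = z j • v := by
    intro j hj v hv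
    rw [hZ, LinearMap.sum_apply, ← hc j hj, Finset.sum_smul]
    refine Finset.sum_congr rfl fun l _ => ?_
    rw [LinearMap.smul_apply, chain_eig hv, smul_smul]
    simp
  have hZv' : ∀ j : ℤ, ∀ v ∈ eigSp A d θ j, Z v = z j.toNat • v := by
    intro j v hv
    by_cases hj : 0 ≤ j ∧ j ≤ d
    · obtain ⟨n, rfl⟩ := Int.eq_ofNat_of_zero_le hj.1
      exact hZv n (by exact_mod_cast hj.2) v hv
    · rw [eigSp_of_not_mem hj, Submodule.mem_bot] at hv
      rw [hv]; simp
  -- the operator identity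
  have hop : ∀ v, A (A (As (A v))) - A (As (A (A v))) = Z (As v) - As (Z v) := by
    have hle : (⊤ : Submodule K V) ≤ LinearMap.ker
        (A * A * As * A - A * As * A * A - (Z * As - As * Z)) := by
      rw [← h.ord.iSup_eq_top]
      refine iSup_le fun j v hv => ?_
      rw [LinearMap.mem_ker]
      by_cases hj : 0 ≤ j ∧ j ≤ d
      swap
      · rw [eigSp_of_not_mem hj, Submodule.mem_bot] at hv
        subst hv
        simp
      simp only [LinearMap.sub_apply, Module.End.mul_apply]
      rw [eigSp_apply hv]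
      have h1 := h.tri j v hv
      obtain ⟨ab, hab, x3, hx3, hx⟩ := Submodule.mem_sup.mp h1
      obtain ⟨x1, hx1, x2, hx2, hx'⟩ := Submodule.mem_sup.mp hab
      rw [hZv' j v hv]
      simp only [map_smul]
      rw [eigSp_apply hv]
      simp only [map_smul]
      rw [← hx, ← hx']
      simp only [map_add]
      rw [eigSp_apply hx1, eigSp_apply hx2, eigSp_apply hx3]
      simp only [map_smul]
      rw [eigSp_apply hx1, eigSp_apply hx2, eigSp_apply hx3, hZv' _ _ hx1, hZv' _ _ hx2,
        hZv' _ _ hx3]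
      obtain ⟨n, rfl⟩ := Int.eq_ofNat_of_zero_le hj.1
      have e3 : z n - z (n + 1) = θ n * θ (n + 1) * (θ n - θ (n + 1)) := hz n
      have e3' : ((n : ℤ) + 1).toNat = n + 1 := by omega
      have e2' : ((n : ℤ)).toNat = n := by omega
      rw [e3', e2']
      rcases Nat.eq_zero_or_pos n with rfl | hn
      · have hx10 : x1 = 0 := by
          rw [eigSp_of_not_mem (by norm_num), Submodule.mem_bot] at hx1; exact hx1
        rw [hx10]
        have e3'' : z (0 + 1) = z 0 - θ 0 * θ (0 + 1) * (θ 0 - θ (0 + 1)) := by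
          have := hz 0
          simp only [Nat.cast_zero] at this
          linear_combination -this
        rw [e3'']
        simp only [Nat.cast_zero]
        module
      · obtain ⟨m, rfl⟩ : ∃ m, n = m + 1 := ⟨n - 1, by omega⟩
        have e1 := hz m
        have e1' : (((m + 1 : ℕ) : ℤ) - 1).toNat = m := by omega
        have e1'' : (((m + 1 : ℕ) : ℤ) - 1) = m := by omega
        rw [e1', e1'']
        have e4 : z m = z (m + 1) + θ m * θ (m + 1) * (θ m - θ (m + 1)) := by
          linear_combination e1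
        have e5 : z (m + 1 + 1) = z (m + 1) - θ ((m + 1 : ℕ) : ℤ) * θ (((m + 1 : ℕ) : ℤ) + 1) *
            (θ ((m + 1 : ℕ) : ℤ) - θ (((m + 1 : ℕ) : ℤ) + 1)) := by linear_combination -e3
        rw [e4, e5]
        push_cast
        module
    intro v
    have := hle (Submodule.mem_top (x := v))
    rw [LinearMap.mem_ker] at this
    simp only [LinearMap.sub_apply, Module.End.mul_apply] at this
    exact sub_eq_zero.mp this
  -- a nonzero vector of V*_0
  obtain ⟨v, hv, hv0⟩ := (Submodule.ne_bot_iff _).mp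
    (h.ord_star.ne_bot 0 ⟨le_rfl, by positivity⟩)
  have hvU : v ∈ splitSp A As d δ θ θs 0 := by rw [Usp_zero h]; exact hv
  set w : ℕ → V := fun l => chain A θ 0 l v with hw
  have hwU : ∀ l : ℕ, w l ∈ splitSp A As d δ θ θs l := fun l => by
    have := chain_Usp h hvU l
    rwa [zero_add] at this
  have hwD : ∀ (l : ℕ) (m : ℤ), (l : ℤ) ≤ m → w l ∈ flag As δ θs m := fun l m hlm =>
    flag_mono hlm (hwU l).1
  have hAw : ∀ l : ℕ, A (w l) = θ l • w l + w (l + 1) := fun l => by
    simp only [hw]; rw [chain_succ_apply]; simp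
  have hAsw : ∀ l : ℕ, As (w l) - θs l • w l ∈ flag As δ θs (l - 1) := fun l =>
    sub_flag _ _ (hwU l).1
  have hwne : ∀ l : ℕ, l ≤ d → ∀ a : K, a • w l ∈ flag As δ θs ((l : ℤ) - 1) → a = 0 := by
    intro l hl a ha
    by_contra hne
    have h1 : w l ∈ flag As δ θs ((l : ℤ) - 1) := by
      have := Submodule.smul_mem _ a⁻¹ ha
      rwa [smul_smul, inv_mul_cancel₀ hne, one_smul] at this
    have h2 : w l ∈ flag As δ θs ((l : ℤ) - 1) ⊓ upflag A d θ l := ⟨h1, (hwU l).2⟩
    rw [flag_inf_upflag h (by omega), Submodule.mem_bot] at h2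
    exact hv0 (chain_inj h le_rfl (k := l) (by omega) hvU h2)
  have hw0 : w 0 = v := rfl
  have hAsv : As v = θs 0 • v := eigSp_apply hv
  have hZ0 : Z v = ∑ l ∈ Finset.range (d + 1), c l • w l := by
    rw [hZ, LinearMap.sum_apply]; rfl
  have hkey := hop v
  rw [hAsv, map_smul] at hkey
  -- the left-hand side modulo D_2
  set L := A (A (As (A v))) - A (As (A (A v))) with hL
  have hL2 : L - (θs 1 - θs 2) • w 3 ∈ flag As δ θs 2 := by
    -- As w1 = θs1 w1 + a,  As w2 = θs2 w2 + b
    set a := As (w 1) - θs 1 • w 1 with ha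
    set b := As (w 2) - θs 2 • w 2 with hb
    have haD : a ∈ flag As δ θs 0 := by simpa using hAsw 1
    have hbD : b ∈ flag As δ θs 1 := by
      have := hAsw 2
      norm_num at this
      exact this
    have eA0 : A v = θ 0 • v + w 1 := by simpa [hw0] using hAw 0
    have eA1 : A (w 1) = θ 1 • w 1 + w 2 := by simpa using hAw 1
    have eA2 : A (w 2) = θ 2 • w 2 + w 3 := by simpa using hAw 2
    have eS1 : As (w 1) = θs 1 • w 1 + a := by rw [ha]; abel
    have eS2 : As (w 2) = θs 2 • w 2 + b := by rw [hb]; abel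
    have hAa : A a ∈ flag As δ θs 1 := by simpa using tri_flag h.tri_star 0 a haD
    have hAAa : A (A a) ∈ flag As δ θs 2 := by
      have := tri_flag h.tri_star 1 _ hAa
      norm_num at this; exact this
    have hAb : A b ∈ flag As δ θs 2 := by
      have := tri_flag h.tri_star 1 _ hbD
      norm_num at this; exact this
    have hAv : A v ∈ flag As δ θs 2 := by
      rw [eA0]
      exact Submodule.add_mem _ (Submodule.smul_mem _ _ (hwD 0 2 (by norm_num)))
        (hwD 1 2 (by norm_num))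
    have hw1 : w 1 ∈ flag As δ θs 2 := hwD 1 2 (by norm_num)
    have hw2 : w 2 ∈ flag As δ θs 2 := hwD 2 2 (by norm_num)
    have hvD : v ∈ flag As δ θs 2 := hwD 0 2 (by norm_num)
    have hcalc : L - (θs 1 - θs 2) • w 3 = (θ 0 * θ 1 * (θs 0 - θs 1)) • w 1 +
        (θ 0 * θs 0 + θs 1 * (θ 2 - θ 0) - θs 2 * θ 2) • w 2 + A (A a) -
        (θ 0 + θ 1) • A a - A b := by
      have : L - (θs 1 - θs 2) • w 3 =
          (A (A (As (A v))) - A (As (A (A v)))) - (θs 1 - θs 2) • w 3 := rfl
      rw [this]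
      simp only [eA0, eA1, eA2, hAsv, eS1, eS2, map_add, map_smul]
      module
    rw [hcalc]
    refine Submodule.sub_mem _ (Submodule.sub_mem _ (Submodule.add_mem _ (Submodule.add_mem _
      (Submodule.smul_mem _ _ hw1) (Submodule.smul_mem _ _ hw2)) hAAa)
      (Submodule.smul_mem _ _ (flag_mono (by norm_num) hAa))) hAb
  -- the right-hand side
  have hR : ∀ n : ℕ, 3 ≤ n → n ≤ d → (∀ l, n < l → l ≤ d → c l = 0) →
      L - ((θs 0 - θs n) * c n) • w n ∈ flag As δ θs ((n : ℤ) - 1) := by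
    intro n hn3 hnd hcz
    set rest := ∑ l ∈ Finset.range n, c l • w l with hrest
    have hsum : Z v = c n • w n + rest := by
      rw [hZ0, hrest]
      have h1 : Finset.range (n + 1) ⊆ Finset.range (d + 1) := by
        intro x hx; rw [Finset.mem_range] at *; omega
      rw [← Finset.sum_subset h1, Finset.sum_range_succ, add_comm]
      intro x hx hx'
      rw [Finset.mem_range] at hx hx'
      rw [hcz x (by omega) (by omega), zero_smul]
    have hrestD : rest ∈ flag As δ θs ((n : ℤ) - 1) := by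
      refine Submodule.sum_mem _ fun l hl => Submodule.smul_mem _ _ (hwD l _ ?_)
      rw [Finset.mem_range] at hl; omega
    have hAsrest : As rest ∈ flag As δ θs ((n : ℤ) - 1) := by
      have h1 := sub_flag (A := As) (d := δ) (θ := θs) _ _ hrestD
      have h2 := flag_mono (A := As) (d := δ) (θ := θs)
        (show (n : ℤ) - 1 - 1 ≤ n - 1 by omega) h1
      have h3 := Submodule.add_mem _ h2
        (Submodule.smul_mem _ (θs ((n : ℤ) - 1)) hrestD)
      simpa using h3
    rw [hkey, hsum]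
    simp only [map_add, map_smul, smul_add]
    have h5 : (θs 0 • c n • w n + θs 0 • rest - (c n • As (w n) + As rest)) -
        ((θs 0 - θs ↑n) * c n) • w n = θs 0 • rest - As rest - c n • (As (w n) - θs n • w n) := by
      module
    rw [h5]
    exact Submodule.sub_mem _ (Submodule.sub_mem _ (Submodule.smul_mem _ _ hrestD) hAsrest)
      (Submodule.smul_mem _ _ (hAsw n))
  have hLD : L ∈ flag As δ θs 3 := by
    have := Submodule.add_mem _ (flag_mono (show (2 : ℤ) ≤ 3 by norm_num) hL2)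
      (Submodule.smul_mem _ (θs 1 - θs 2) (hwD 3 3 (by norm_num)))
    simpa using this
  have hcz : ∀ k : ℕ, ∀ n : ℕ, 4 ≤ n → n ≤ d → d ≤ n + k → c n = 0 := by
    intro k
    induction k with
    | zero =>
      intro n hn4 hnd hdn
      have h1 := hR n (by omega) hnd (fun l hl hl' => by omega)
      have h2 := Submodule.sub_mem _ (flag_mono (show (3 : ℤ) ≤ (n : ℤ) - 1 by omega) hLD) h1
      rw [sub_sub_cancel] at h2
      have h3 := hwne n hnd _ h2
      rcases mul_eq_zero.mp h3 with h4 | h4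
      · exfalso
        exact theta_ne h.ord_star (i := 0) (j := n) (by omega) (by omega) (by omega)
          (sub_eq_zero.mp h4)
      · exact h4
    | succ k ih =>
      intro n hn4 hnd hdn
      have h1 := hR n (by omega) hnd (fun l hl hl' => ih l (by omega) hl' (by omega))
      have h2 := Submodule.sub_mem _ (flag_mono (show (3 : ℤ) ≤ (n : ℤ) - 1 by omega) hLD) h1
      rw [sub_sub_cancel] at h2
      have h3 := hwne n hnd _ h2
      rcases mul_eq_zero.mp h3 with h4 | h4
      · exfalso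
        exact theta_ne h.ord_star (i := 0) (j := n) (by omega) (by omega) (by omega)
          (sub_eq_zero.mp h4)
      · exact h4
  have hc3 : c 3 ≠ 0 := by
    have h1 := hR 3 le_rfl hd3 (fun l hl hl' => hcz d l (by omega) hl' (by omega))
    have h2 : L - (θs 1 - θs 2) • w 3 ∈ flag As δ θs (((3 : ℕ) : ℤ) - 1) := by
      norm_num; exact hL2
    have h3 := Submodule.sub_mem _ h2 h1
    have h4 : L - (θs 1 - θs 2) • w 3 - (L - ((θs 0 - θs ((3 : ℕ) : ℤ)) * c 3) • w 3) =
        ((θs 0 - θs ((3 : ℕ) : ℤ)) * c 3 - (θs 1 - θs 2)) • w 3 := by module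
    rw [h4] at h3
    have h5 := hwne 3 hd3 _ h3
    intro h0
    rw [h0, mul_zero, zero_sub, neg_eq_zero] at h5
    exact theta_ne h.ord_star (i := 1) (j := 2) (by omega) (by omega) (by omega)
      (sub_eq_zero.mp h5)
  refine ⟨(c 3)⁻¹ - 1, ?_⟩
  intro i hi hi3
  obtain ⟨n, rfl⟩ := Int.eq_ofNat_of_zero_le hi
  -- the cubic
  have hcub : ∀ j : ℕ, j ≤ d → z j = c 0 + c 1 * (θ j - θ 0) +
      c 2 * ((θ j - θ 0) * (θ j - θ 1)) + c 3 * ((θ j - θ 0) * (θ j - θ 1) * (θ j - θ 2)) := by
    intro j hj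
    rw [← hc j hj]
    have h1 : Finset.range 4 ⊆ Finset.range (d + 1) := by
      intro x hx; rw [Finset.mem_range] at *; omega
    rw [← Finset.sum_subset h1]
    · simp [Finset.sum_range_succ, Finset.prod_range_succ]
    · intro x hx hx'
      rw [Finset.mem_range] at hx hx'
      rw [hcz d x (by omega) (by omega) (by omega), zero_mul]
  have hne : ∀ a b : ℤ, 0 ≤ a → a ≤ d → 0 ≤ b → b ≤ d → a ≠ b → θ a ≠ θ b :=
    fun a b h1 h2 h3 h4 h5 => theta_ne h.ord ⟨h1, h2⟩ ⟨h3, h4⟩ h5
  have hdiff : ∀ j : ℕ, j + 1 ≤ d → (c 1 - c 2 * (θ 0 + θ 1)) * (θ j - θ (j + 1)) +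
      c 2 * (θ j ^ 2 - θ (j + 1) ^ 2) +
      c 3 * (θ j ^ 3 - θ (j + 1) ^ 3 - (θ 0 + θ 1 + θ 2) * (θ j ^ 2 - θ (j + 1) ^ 2)
        + (θ 0 * θ 1 + θ 0 * θ 2 + θ 1 * θ 2) * (θ j - θ (j + 1))) =
      θ j * θ (j + 1) * (θ j - θ (j + 1)) := by
    intro j hj
    have e1 := hcub j (by omega)
    have e2 := hcub (j + 1) hj
    have e3 := hz j
    push_cast at e2
    rw [← e3, e1, e2]
    ring
  have q1 := hdiff n (by omega)
  have q2 := hdiff (n + 1) (by omega)
  have q3 := hdiff (n + 2) (by omega)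
  push_cast at q1 q2 q3
  have t1 : (n : ℤ) + 1 + 1 = n + 2 := by ring
  have t2 : (n : ℤ) + 2 + 1 = n + 3 := by ring
  rw [t1] at q2
  rw [t2] at q3
  have := rec_of_cubic hc3 (hne n (n + 1) (by omega) (by omega) (by omega) (by omega) (by omega))
    (hne (n + 1) (n + 2) (by omega) (by omega) (by omega) (by omega) (by omega))
    (hne (n + 2) (n + 3) (by omega) (by omega) (by omega) (by omega) (by omega))
    (hne n (n + 2) (by omega) (by omega) (by omega) (by omega) (by omega))
    (hne (n + 1) (n + 3) (by omega) (by omega) (by omega) (by omega) (by omega))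
    q1 q2 q3
  rw [sub_add_cancel]
  exact this

end Pool.Agent.Lib.MP_b7840d_al
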