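import Mathlib
import Pool.Agent.Lib.MP_b7840d_al.Defs

set_option autoImplicit false

namespace Pool.Agent.Lib.MP_b7840d_al

variable {K : Type*} [Field K]

/-- Newton polynomials with nodes `η 0, η 1, ...`. -/
def Npol (η : ℕ → K) (i : ℕ) (t : K) : K := ∏ l ∈ Finset.range i, (t - η l)

@[simp] lemma Npol_zero (η : ℕ → K) (t : K) : Npol η 0 t = 1 := by simp [Npol]

lemma Npol_succ (η : ℕ → K) (i : ℕ) (t : K) : Npol η (i + 1) t = Npol η i t * (t - η i) := by
  simp [Npol, Finset.prod_range_succ]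

lemma Npol_eq_zero (η : ℕ → K) {i m : ℕ} (h : m < i) : Npol η i (η m) = 0 :=
  Finset.prod_eq_zero (Finset.mem_range.mpr h) (sub_self _)

lemma Npol_ne_zero {η : ℕ → K} {n : ℕ} (hinj : ∀ a ≤ n, ∀ b ≤ n, η a = η b → a = b) {i m : ℕ}
    (h : i ≤ m) (hm : m ≤ n) : Npol η i (η m) ≠ 0 := by
  unfold Npol
  rw [Finset.prod_ne_zero_iff]
  intro l hl
  rw [Finset.mem_range] at hl
  refine sub_ne_zero.mpr fun he => ?_
  have := hinj m hm l (by omega) he
  omega

/-- The block condition. -/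
def TriCond (η : ℕ → K) (n κ : ℕ) (x y : ℕ → K) : Prop :=
  ∀ m, κ ≤ m → m + κ ≤ n → ∃ c : ℕ → K, (∀ l, c l ≠ 0 → l ≤ n ∧ l ≤ m + 1 ∧ m ≤ l + 1) ∧
    ∀ i ≤ n, x i * Npol η i (η m) + y i * Npol η (i - 1) (η m) =
      ∑ l ∈ Finset.range (n + 1), c l * Npol η i (η l)

/-- solving the 3 × 3 system -/
lemma vandermonde3 {p t q a b M0 M1 M2 : K} (h1 : p ≠ t) (h2 : p ≠ q) (h3 : t ≠ q) :
    ∃ c1 c2 c3 : K, c1 + c2 + c3 = M0 ∧
      c1 * (p - a) + c2 * (t - a) + c3 * (q - a) = M1 ∧
      c1 * ((p - a) * (p - b)) + c2 * ((t - a) * (t - b)) + c3 * ((q - a) * (q - b)) = M2 := by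
  have e1 := sub_ne_zero.mpr h1
  have e2 := sub_ne_zero.mpr h2
  have e3 := sub_ne_zero.mpr h3
  have e1' := sub_ne_zero.mpr h1.symm
  have e2' := sub_ne_zero.mpr h2.symm
  have e3' := sub_ne_zero.mpr h3.symm
  refine ⟨(M2 + (a + b - t - q) * M1 + (a - t) * (a - q) * M0) / ((p - t) * (p - q)),
    (M2 + (a + b - p - q) * M1 + (a - p) * (a - q) * M0) / ((t - p) * (t - q)),
    (M2 + (a + b - p - t) * M1 + (a - p) * (a - t) * M0) / ((q - p) * (q - t)), ?_, ?_, ?_⟩
  · field_simp; ring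
  · field_simp; ring
  · field_simp; ring

lemma vandermonde3_unique {p t q a b c1 c2 c3 : K} (h1 : p ≠ t) (h2 : p ≠ q) (h3 : t ≠ q)
    (e0 : c1 + c2 + c3 = 0) (e1 : c1 * (p - a) + c2 * (t - a) + c3 * (q - a) = 0)
    (e2 : c1 * ((p - a) * (p - b)) + c2 * ((t - a) * (t - b)) + c3 * ((q - a) * (q - b)) = 0) :
    c1 = 0 ∧ c2 = 0 ∧ c3 = 0 := by
  have k1 := sub_ne_zero.mpr h1
  have k2 := sub_ne_zero.mpr h2
  have k3 := sub_ne_zero.mpr h3
  refine ⟨?_, ?_, ?_⟩
  · have : (p - t) * (p - q) * c1 = 0 := by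
      linear_combination e2 + (a + b - t - q) * e1 + (a - t) * (a - q) * e0
    rcases mul_eq_zero.mp this with h | h
    · exact absurd h (mul_ne_zero k1 k2)
    · exact h
  · have : (p - t) * (t - q) * c2 = 0 := by
      linear_combination -e2 - (a + b - p - q) * e1 - (a - p) * (a - q) * e0
    rcases mul_eq_zero.mp this with h | h
    · exact absurd h (mul_ne_zero k1 k3)
    · exact h
  · have : (p - q) * (t - q) * c3 = 0 := by
      linear_combination e2 + (a + b - p - t) * e1 + (a - p) * (a - t) * e0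
    rcases mul_eq_zero.mp this with h | h
    · exact absurd h (mul_ne_zero k2 k3)
    · exact h

/-- The assumptions on the nodes. -/
structure Nodes (β γ ρ : K) (η : ℕ → K) (n : ℕ) : Prop where
  inj : ∀ a ≤ n, ∀ b ≤ n, η a = η b → a = b
  hγ : ∀ l, l + 2 ≤ n → η l - β * η (l + 1) + η (l + 2) = γ
  hρ : ∀ l, l + 1 ≤ n → η l ^ 2 - β * η l * η (l + 1) + η (l + 1) ^ 2
    - γ * (η l + η (l + 1)) = ρ

/-- the key cubic identity -/
lemma cubic_id {β γ ρ z a b c t y : K} (h1 : z - β * a + b = γ) (h2 : a - β * b + c = γ)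
    (h3 : a ^ 2 - β * a * b + b ^ 2 - γ * (a + b) = ρ)
    (hP : y = t ∨ t ^ 2 - β * t * y + y ^ 2 - γ * (t + y) = ρ) :
    (y - a) * (y - b) * (y - c) = (β + 1) * (t - b) * ((y - a) * (y - b)) -
      (β + 1) * (t - a) * (t - b) * (y - a) + (t - z) * (t - a) * (t - b) := by
  have hc : c = γ - a + β * b := by linear_combination h2
  have hz : z = γ + β * a - b := by linear_combination h1
  subst hc hz
  have key : (y - a) * (y - b) * (y - (γ - a + β * b)) - ((β + 1) * (t - b) *
      ((y - a) * (y - b)) - (β + 1) * (t - a) * (t - b) * (y - a) +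
      (t - (γ + β * a - b)) * (t - a) * (t - b)) =
      (y - t) * (t ^ 2 - β * t * y + y ^ 2 - γ * (t + y) - ρ) := by
    rw [← h3]; ring
  rcases hP with rfl | hP
  · linear_combination key
  · rw [hP, sub_self, mul_zero] at key
    linear_combination key

lemma cubic_id0 {β γ ρ a b c t y : K} (h2 : a - β * b + c = γ)
    (h3 : a ^ 2 - β * a * b + b ^ 2 - γ * (a + b) = ρ)
    (hP : y = t ∨ t ^ 2 - β * t * y + y ^ 2 - γ * (t + y) = ρ) :
    (y - a) * (y - b) * (y - c) = (β + 1) * (t - b) * ((y - a) * (y - b)) -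
      (β + 1) * (t - a) * (t - b) * (y - a) + (t - (γ + β * a - b)) * (t - a) * (t - b) :=
  cubic_id (by ring) h2 h3 hP

/-- uniqueness for the four-term recurrence -/
lemma rec_unique {n : ℕ} {u v : ℕ → K} {P Q R : ℕ → K}
    (hu : ∀ i, i + 3 ≤ n → u (i + 3) = P i * u (i + 2) - Q i * u (i + 1) + R i * u i)
    (hv : ∀ i, i + 3 ≤ n → v (i + 3) = P i * v (i + 2) - Q i * v (i + 1) + R i * v i)
    (h0 : u 0 = v 0) (h1 : 1 ≤ n → u 1 = v 1) (h2 : 2 ≤ n → u 2 = v 2) :
    ∀ i ≤ n, u i = v i := by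
  intro i
  induction i using Nat.strong_induction_on with
  | _ i ih =>
    intro hi
    match i with
    | 0 => exact h0
    | 1 => exact h1 hi
    | 2 => exact h2 hi
    | i + 3 =>
      rw [hu i hi, hv i hi, ih (i + 2) (by omega) (by omega), ih (i + 1) (by omega) (by omega),
        ih i (by omega) (by omega)]

/-- the four-term recurrence satisfied by the Newton polynomials at neighbouring nodes -/
lemma Npol_rec {β γ ρ : K} {η : ℕ → K} {n : ℕ} (H : Nodes β γ ρ η n) (t y : K)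
    (hP : y = t ∨ t ^ 2 - β * t * y + y ^ 2 - γ * (t + y) = ρ) (i : ℕ) (hi : i + 3 ≤ n) :
    Npol η (i + 3) y = (β + 1) * (t - η (i + 1)) * Npol η (i + 2) y -
      (β + 1) * (t - η i) * (t - η (i + 1)) * Npol η (i + 1) y +
      (t - (γ + β * η i - η (i + 1))) * (t - η i) * (t - η (i + 1)) * Npol η i y := by
  have h := cubic_id0 (t := t) (y := y) (H.hγ i (by omega)) (H.hρ i (by omega)) hP
  rw [Npol_succ η (i + 2), Npol_succ η (i + 1), Npol_succ η i]
  linear_combination Npol η i y * h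

/-- the same recurrence for sequences `N_{i-1}(t) h_i`, `h` being `β`-recurrent -/
lemma M_rec {β γ ρ : K} {η : ℕ → K} {n : ℕ} (H : Nodes β γ ρ η n) (t : K) {h M : ℕ → K}
    (hh : ∀ i, i + 3 ≤ n → h (i + 3) = (β + 1) * h (i + 2) - (β + 1) * h (i + 1) + h i)
    (hM : ∀ i, 1 ≤ i → i ≤ n → M i = Npol η (i - 1) t * h i)
    (h0 : (t - (γ + β * η 0 - η 1)) * M 0 = h 0) (i : ℕ) (hi : i + 3 ≤ n) :
    M (i + 3) = (β + 1) * (t - η (i + 1)) * M (i + 2) -
      (β + 1) * (t - η i) * (t - η (i + 1)) * M (i + 1) +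
      (t - (γ + β * η i - η (i + 1))) * (t - η i) * (t - η (i + 1)) * M i := by
  match i with
  | 0 =>
    rw [hM (0 + 3) (by omega) (by omega), hM (0 + 2) (by omega) (by omega),
      hM (0 + 1) (by omega) (by omega)]
    have h3 := hh 0 hi
    rw [h3]
    simp only [Npol, Finset.prod_range_succ, Finset.prod_range_zero, zero_add,
      show (3 : ℕ) - 1 = 2 from rfl, show (2 : ℕ) - 1 = 1 from rfl,
      show (1 : ℕ) - 1 = 0 from rfl]
    rw [← h0]
    ring
  | i + 1 =>
    rw [hM (i + 1 + 3) (by omega) (by omega), hM (i + 1 + 2) (by omega) (by omega),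
      hM (i + 1 + 1) (by omega) (by omega), hM (i + 1) (by omega) (by omega)]
    have h3 := hh (i + 1) hi
    rw [h3]
    have hz : γ + β * η (i + 1) - η (i + 1 + 1) = η i := by
      have := H.hγ i (by omega)
      linear_combination -this
    rw [hz]
    simp only [show i + 1 + 3 - 1 = i + 3 by omega, show i + 1 + 2 - 1 = i + 2 by omega,
      show i + 1 + 1 - 1 = i + 1 by omega, show i + 1 - 1 = i by omega,
      show i + 1 + 3 = i + 4 by ring, show i + 1 + 2 = i + 3 by ring,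
      show i + 1 + 1 = i + 2 by ring]
    rw [Npol_succ η (i + 2), Npol_succ η (i + 1), Npol_succ η i]
    ring

lemma Npol_two (η : ℕ → K) (t : K) : Npol η 2 t = (t - η 0) * (t - η 1) := by
  simp [Npol, Finset.prod_range_succ]

lemma Npol_one (η : ℕ → K) (t : K) : Npol η 1 t = t - η 0 := by
  simp [Npol]

lemma sum_three {n k : ℕ} (hk : k + 2 ≤ n) (c1 c2 c3 : K) (f : ℕ → K) :
    ∑ l ∈ Finset.range (n + 1),
        (if l = k then c1 else if l = k + 1 then c2 else if l = k + 2 then c3 else 0) *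
          f l = c1 * f k + c2 * f (k + 1) + c3 * f (k + 2) := by
  have h1 : ({k, k + 1, k + 2} : Finset ℕ) ⊆ Finset.range (n + 1) := by
    intro l hl
    simp only [Finset.mem_insert, Finset.mem_singleton] at hl
    rw [Finset.mem_range]; omega
  rw [← Finset.sum_subset h1]
  · rw [Finset.sum_insert (by simp), Finset.sum_insert (by simp), Finset.sum_singleton]
    simp [add_assoc]
  · intro l _ hl
    simp only [Finset.mem_insert, Finset.mem_singleton, not_or] at hl
    simp [hl.1, hl.2.1, hl.2.2]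

lemma sum_two {n k : ℕ} (hk : k + 1 ≤ n) (c1 c2 : K) (f : ℕ → K) :
    ∑ l ∈ Finset.range (n + 1),
        (if l = k then c1 else if l = k + 1 then c2 else 0) *
          f l = c1 * f k + c2 * f (k + 1) := by
  have h1 : ({k, k + 1} : Finset ℕ) ⊆ Finset.range (n + 1) := by
    intro l hl
    simp only [Finset.mem_insert, Finset.mem_singleton] at hl
    rw [Finset.mem_range]; omega
  rw [← Finset.sum_subset h1]
  · rw [Finset.sum_insert (by simp), Finset.sum_singleton]
    simp
  · intro l _ hl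
    simp only [Finset.mem_insert, Finset.mem_singleton, not_or] at hl
    simp [hl.1, hl.2]

/-- The interior equations can be solved. -/
lemma interior {β γ ρ : K} {η : ℕ → K} {n : ℕ} (H : Nodes β γ ρ η n) {x g : ℕ → K}
    (hx : ∀ i, i + 3 ≤ n → x (i + 3) = (β + 1) * x (i + 2) - (β + 1) * x (i + 1) + x i)
    (hg : ∀ i, i + 3 ≤ n → g (i + 3) = (β + 1) * g (i + 2) - (β + 1) * g (i + 1) + g i)
    (h0 : g 0 = -x 0 * (γ + β * η 0 - η 1)) {y : ℕ → K}
    (hy : ∀ i, 1 ≤ i → i ≤ n → y i = x i * η (i - 1) + g i) (hy0 : y 0 = 0)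
    {m : ℕ} (hm1 : 1 ≤ m) (hmn : m + 1 ≤ n) :
    ∃ c : ℕ → K, (∀ l, c l ≠ 0 → l ≤ n ∧ l ≤ m + 1 ∧ m ≤ l + 1) ∧
    ∀ i ≤ n, x i * Npol η i (η m) + y i * Npol η (i - 1) (η m) =
      ∑ l ∈ Finset.range (n + 1), c l * Npol η i (η l) := by
  obtain ⟨k, rfl⟩ : ∃ k, m = k + 1 := ⟨m - 1, by omega⟩
  set t := η (k + 1) with ht
  set p := η k with hp
  set q := η (k + 2) with hq
  have hpt : p ≠ t := fun he => by
    have := H.inj k (by omega) (k + 1) (by omega) he; omega
  have hpq : p ≠ q := fun he => by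
    have := H.inj k (by omega) (k + 2) (by omega) he; omega
  have htq : t ≠ q := fun he => by
    have := H.inj (k + 1) (by omega) (k + 2) (by omega) he; omega
  set M : ℕ → K := fun i => x i * Npol η i t + y i * Npol η (i - 1) t with hM
  obtain ⟨c1, c2, c3, e0, e1, e2⟩ := vandermonde3 (a := η 0) (b := η 1) (M0 := M 0) (M1 := M 1)
    (M2 := M 2) hpt hpq htq
  refine ⟨fun l => if l = k then c1 else if l = k + 1 then c2 else if l = k + 2 then c3 else 0,
    ?_, ?_⟩
  · intro l hl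
    by_cases h1 : l = k
    · omega
    · by_cases h2 : l = k + 1
      · omega
      · by_cases h3 : l = k + 2
        · omega
        · simp [h1, h2, h3] at hl
  · intro i hi
    rw [sum_three hmn c1 c2 c3 (fun l => Npol η i (η l))]
    have hP1 : p = t ∨ t ^ 2 - β * t * p + p ^ 2 - γ * (t + p) = ρ := by
      right; rw [← H.hρ k (by omega)]; ring
    have hP2 : t = t ∨ t ^ 2 - β * t * t + t ^ 2 - γ * (t + t) = ρ := Or.inl rfl
    have hP3 : q = t ∨ t ^ 2 - β * t * q + q ^ 2 - γ * (t + q) = ρ := by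
      right; rw [← H.hρ (k + 1) (by omega)]
    refine rec_unique (n := n) (u := M)
      (v := fun i => c1 * Npol η i p + c2 * Npol η i t + c3 * Npol η i q)
      (P := fun i => (β + 1) * (t - η (i + 1)))
      (Q := fun i => (β + 1) * (t - η i) * (t - η (i + 1)))
      (R := fun i => (t - (γ + β * η i - η (i + 1))) * (t - η i) * (t - η (i + 1)))
      ?_ ?_ ?_ ?_ ?_ i hi
    · refine M_rec H t (h := fun i => x i * t + g i) (M := M) ?_ ?_ ?_
      · intro i hi
        rw [hx i hi, hg i hi]; ring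
      · intro i hi1 hi
        obtain ⟨i, rfl⟩ : ∃ i', i = i' + 1 := ⟨i - 1, by omega⟩
        simp only [hM]
        rw [hy _ hi1 hi, Npol_succ, show i + 1 - 1 = i by omega]
        ring
      · simp only [hM]
        rw [hy0, h0, Npol_zero]; ring
    · intro i hi
      have r1 := Npol_rec H t p hP1 i hi
      have r2 := Npol_rec H t t hP2 i hi
      have r3 := Npol_rec H t q hP3 i hi
      rw [r1, r2, r3]
      ring
    · simp only [Npol_zero, mul_one]
      rw [e0]
    · intro _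
      simp only [Npol_one]
      rw [e1]
    · intro _
      simp only [Npol_two]
      rw [e2]

lemma end_zero {β γ ρ : K} {η : ℕ → K} {n : ℕ} (H : Nodes β γ ρ η n) (hn : 1 ≤ n) {x y : ℕ → K}
    (hy0 : y 0 = 0) :
    ∃ c : ℕ → K, (∀ l, c l ≠ 0 → l ≤ n ∧ l ≤ 0 + 1 ∧ 0 ≤ l + 1) ∧
    ∀ i ≤ n, x i * Npol η i (η 0) + y i * Npol η (i - 1) (η 0) =
      ∑ l ∈ Finset.range (n + 1), c l * Npol η i (η l) := by
  have hne : η 1 - η 0 ≠ 0 := by
    refine sub_ne_zero.mpr fun he => ?_
    have := H.inj 1 hn 0 (by omega) he; omega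
  refine ⟨fun l => if l = 0 then x 0 - y 1 / (η 1 - η 0) else if l = 0 + 1 then
    y 1 / (η 1 - η 0) else 0, ?_, ?_⟩
  · intro l hl
    by_cases h1 : l = 0
    · omega
    · by_cases h2 : l = 0 + 1
      · omega
      · simp [h1] at hl; omega
  · intro i hi
    rw [sum_two (by omega) _ _ (fun l => Npol η i (η l))]
    match i with
    | 0 => simp [hy0]
    | 1 =>
      simp only [zero_add, Npol_one, sub_self, mul_zero, Npol_zero, mul_one,
        show (1 : ℕ) - 1 = 0 from rfl]
      rw [div_mul_cancel₀ _ hne]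
    | i + 2 =>
      rw [Npol_eq_zero η (show 0 < i + 2 by omega), zero_add,
        Npol_eq_zero η (show 1 < i + 2 by omega),
        Npol_eq_zero η (show 0 < i + 2 - 1 by omega)]
      ring

/-- partial sums -/
def Ssum (η : ℕ → K) (n i : ℕ) : K := ∑ h ∈ Finset.range i, (η h - η (n - h))

lemma Ssum_succ (η : ℕ → K) (n i : ℕ) : Ssum η n (i + 1) = Ssum η n i + (η i - η (n - i)) := by
  simp only [Ssum, Finset.sum_range_succ]

lemma Ssum_rec {β γ ρ : K} {η : ℕ → K} {n : ℕ} (H : Nodes β γ ρ η n) (i : ℕ) (hi : i + 2 ≤ n) :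
    Ssum η n (i + 3) = (β + 1) * Ssum η n (i + 2) - (β + 1) * Ssum η n (i + 1) + Ssum η n i := by
  rw [Ssum_succ η n (i + 2), Ssum_succ η n (i + 1), Ssum_succ η n i]
  have h1 := H.hγ i (by omega)
  have h2 := H.hγ (n - (i + 2)) (by omega)
  rw [show n - (i + 2) + 1 = n - (i + 1) by omega, show n - (i + 2) + 2 = n - i by omega] at h2
  linear_combination h1 - h2

lemma end_top {β γ ρ : K} {η : ℕ → K} {n : ℕ} (H : Nodes β γ ρ η n) (hn : 1 ≤ n) {x y : ℕ → K}
    (hy0 : y 0 = 0) {c : K} (hy : ∀ i, 1 ≤ i → i ≤ n → y i = (x i - x 0) * (η (i - 1) - η n) +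
      c * Ssum η n i) :
    ∃ c : ℕ → K, (∀ l, c l ≠ 0 → l ≤ n ∧ l ≤ n + 1 ∧ n ≤ l + 1) ∧
    ∀ i ≤ n, x i * Npol η i (η n) + y i * Npol η (i - 1) (η n) =
      ∑ l ∈ Finset.range (n + 1), c l * Npol η i (η l) := by
  obtain ⟨k, rfl⟩ : ∃ k, n = k + 1 := ⟨n - 1, by omega⟩
  have hne : η k - η (k + 1) ≠ 0 := by
    refine sub_ne_zero.mpr fun he => ?_
    have := H.inj k (by omega) (k + 1) (by omega) he; omega
  set t := η (k + 1) with ht
  set C := c * (η 0 - t) / (η k - t) with hC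
  refine ⟨fun l => if l = k then C else if l = k + 1 then x 0 - C else 0, ?_, ?_⟩
  · intro l hl
    by_cases h1 : l = k
    · omega
    · by_cases h2 : l = k + 1
      · omega
      · simp [h1, h2] at hl
  · have key : ∀ i ≤ k + 1, (η 0 - t) * (Npol η i (η k) - Npol η i t) =
        Ssum η (k + 1) i * Npol η (i - 1) t * (η k - t) := by
      have hP1 : η k = t ∨ t ^ 2 - β * t * η k + η k ^ 2 - γ * (t + η k) = ρ := by
        right; rw [← H.hρ k (by omega)]; ring
      have hP2 : t = t ∨ t ^ 2 - β * t * t + t ^ 2 - γ * (t + t) = ρ := Or.inl rfl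
      refine rec_unique (n := k + 1)
        (u := fun i => (η 0 - t) * (Npol η i (η k) - Npol η i t))
        (v := fun i => Ssum η (k + 1) i * Npol η (i - 1) t * (η k - t))
        (P := fun i => (β + 1) * (t - η (i + 1)))
        (Q := fun i => (β + 1) * (t - η i) * (t - η (i + 1)))
        (R := fun i => (t - (γ + β * η i - η (i + 1))) * (t - η i) * (t - η (i + 1)))
        ?_ ?_ ?_ ?_ ?_
      · intro i hi
        have r1 := Npol_rec H t (η k) hP1 i hi
        have r2 := Npol_rec H t t hP2 i hi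
        rw [r1, r2]
        ring
      · refine M_rec H t (h := fun i => Ssum η (k + 1) i * (η k - t))
          (M := fun i => Ssum η (k + 1) i * Npol η (i - 1) t * (η k - t)) ?_ ?_ ?_
        · intro i hi
          rw [Ssum_rec H i (by omega)]; ring
        · intro i _ _
          ring
        · simp [Ssum]
      · simp [Ssum]
      · intro _
        simp only [Npol_one, show (1 : ℕ) - 1 = 0 from rfl, Npol_zero]
        simp only [Ssum, Finset.sum_range_one, Nat.sub_zero, ← ht]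
        ring
      · intro h2
        simp only [Npol_two, show (2 : ℕ) - 1 = 1 from rfl, Npol_one]
        simp only [Ssum, Finset.sum_range_succ, Finset.sum_range_zero, Nat.sub_zero,
          show k + 1 - 1 = k by omega, ← ht]
        ring
    intro i hi
    rw [sum_two (by omega) _ _ (fun l => Npol η i (η l))]
    simp only [← ht]
    have hk := key i hi
    have hCe : C * (η k - t) = c * (η 0 - t) := by rw [hC, div_mul_cancel₀ _ hne]
    match i with
    | 0 => simp [hy0]
    | i + 1 =>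
      rw [hy (i + 1) (by omega) hi]
      rw [show i + 1 - 1 = i by omega] at *
      rw [Npol_succ η i t] at *
      have : (η k - t) * (x (i + 1) * (Npol η i t * (t - η i)) +
          ((x (i + 1) - x 0) * (η i - η (k + 1)) + c * Ssum η (k + 1) (i + 1)) * Npol η i t -
          (C * Npol η (i + 1) (η k) + (x 0 - C) * (Npol η i t * (t - η i)))) = 0 := by
        rw [← ht]
        linear_combination (Npol η i t * (t - η i) - Npol η (i + 1) (η k)) * hCe - c * hk
      rcases mul_eq_zero.mp this with h1 | h1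
      · exact absurd h1 hne
      · exact sub_eq_zero.mp h1

lemma sum_supp3 {n k : ℕ} (hk : k + 2 ≤ n) {c : ℕ → K}
    (hc : ∀ l, c l ≠ 0 → l ≤ n ∧ l ≤ k + 1 + 1 ∧ k + 1 ≤ l + 1) (f : ℕ → K) :
    ∑ l ∈ Finset.range (n + 1), c l * f l = c k * f k + c (k + 1) * f (k + 1) +
      c (k + 2) * f (k + 2) := by
  rw [← sum_three hk (c k) (c (k + 1)) (c (k + 2)) f]
  refine Finset.sum_congr rfl fun l _ => ?_
  by_cases h1 : l = k
  · subst h1; simp
  · by_cases h2 : l = k + 1
    · subst h2; simp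
    · by_cases h3 : l = k + 2
      · subst h3; simp
      · have : c l = 0 := by
          by_contra hne
          have := hc l hne
          omega
        simp [h1, h2, h3, this]

lemma sum_supp2 {n k : ℕ} (hk : k + 1 ≤ n) {c : ℕ → K}
    (hc : ∀ l, c l ≠ 0 → l = k ∨ l = k + 1) (f : ℕ → K) :
    ∑ l ∈ Finset.range (n + 1), c l * f l = c k * f k + c (k + 1) * f (k + 1) := by
  rw [← sum_two hk (c k) (c (k + 1)) f]
  refine Finset.sum_congr rfl fun l _ => ?_
  by_cases h1 : l = k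
  · subst h1; simp
  · by_cases h2 : l = k + 1
    · subst h2; simp
    · have : c l = 0 := by
        by_contra hne
        have := hc l hne
        omega
      simp [h1, h2, this]

lemma TriCond.congr {η : ℕ → K} {n κ : ℕ} {x y x' y' : ℕ → K}
    (hx : ∀ i, i + κ ≤ n → x i = x' i)
    (hy : ∀ i, i + κ ≤ n + 1 → i ≤ n → y i = y' i) (h : TriCond η n κ x y) :
    TriCond η n κ x' y' := by
  intro m hm1 hm2
  obtain ⟨c, hc1, hc2⟩ := h m hm1 hm2
  refine ⟨c, hc1, fun i hi => ?_⟩
  rw [← hc2 i hi]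
  congr 1
  · by_cases h1 : i + κ ≤ n
    · rw [hx i h1]
    · rw [Npol_eq_zero η (show m < i by omega)]; ring
  · by_cases h1 : i + κ ≤ n + 1
    · rw [hy i h1 hi]
    · rw [Npol_eq_zero η (show m < i - 1 by omega)]; ring

lemma TriCond.sub {η : ℕ → K} {n κ : ℕ} {x y x' y' : ℕ → K}
    (h : TriCond η n κ x y) (h' : TriCond η n κ x' y') :
    TriCond η n κ (fun i => x i - x' i) (fun i => y i - y' i) := by
  intro m hm1 hm2
  obtain ⟨c, hc1, hc2⟩ := h m hm1 hm2
  obtain ⟨c', hc1', hc2'⟩ := h' m hm1 hm2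
  refine ⟨fun l => c l - c' l, fun l hl => ?_, fun i hi => ?_⟩
  · by_cases h1 : c l = 0
    · have : c' l ≠ 0 := fun h2 => hl (by simp [h1, h2])
      exact hc1' l this
    · exact hc1 l h1
  · have e1 := hc2 i hi
    have e2 := hc2' i hi
    have e3 : ∑ l ∈ Finset.range (n + 1), (c l - c' l) * Npol η i (η l) =
        ∑ l ∈ Finset.range (n + 1), c l * Npol η i (η l) -
        ∑ l ∈ Finset.range (n + 1), c' l * Npol η i (η l) := by
      rw [← Finset.sum_sub_distrib]
      exact Finset.sum_congr rfl fun l _ => by ring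
    rw [e3]
    linear_combination e1 - e2

/-- from vanishing of all the right-hand sides to vanishing of the coefficients -/
lemma zero_of_M {β γ ρ : K} {η : ℕ → K} {n κ : ℕ} (H : Nodes β γ ρ η n) {x y : ℕ → K}
    (hy0 : y κ = 0)
    (hM : ∀ m, κ ≤ m → m + κ ≤ n → ∀ i ≤ n,
      x i * Npol η i (η m) + y i * Npol η (i - 1) (η m) = 0) :
    (∀ i, κ ≤ i → i + κ ≤ n → x i = 0) ∧ (∀ i, κ < i → i + κ ≤ n + 1 → i ≤ n → y i = 0) := by
  have hy : ∀ i, κ < i → i + κ ≤ n + 1 → i ≤ n → y i = 0 := by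
    intro i h1 h2 h3
    obtain ⟨i, rfl⟩ : ∃ i', i = i' + 1 := ⟨i - 1, by omega⟩
    have := hM i (by omega) (by omega) (i + 1) h3
    rw [Npol_eq_zero η (show i < i + 1 by omega), show i + 1 - 1 = i by omega, mul_zero,
      zero_add] at this
    rcases mul_eq_zero.mp this with h4 | h4
    · exact h4
    · exact absurd h4 (Npol_ne_zero H.inj le_rfl (by omega))
  refine ⟨fun i h1 h2 => ?_, hy⟩
  have := hM i h1 h2 i (by omega)
  have hyi : y i = 0 := by
    rcases eq_or_lt_of_le h1 with rfl | h3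
    · exact hy0
    · exact hy i h3 (by omega) (by omega)
  rw [hyi, zero_mul, add_zero] at this
  rcases mul_eq_zero.mp this with h4 | h4
  · exact h4
  · exact absurd h4 (Npol_ne_zero H.inj le_rfl (by omega))

lemma interior_zero {β γ ρ : K} {η : ℕ → K} {n : ℕ} (H : Nodes β γ ρ η n) {M : ℕ → K}
    {m : ℕ} (hm1 : 1 ≤ m) (hmn : m + 1 ≤ n) {c : ℕ → K}
    (hc : ∀ l, c l ≠ 0 → l ≤ n ∧ l ≤ m + 1 ∧ m ≤ l + 1)
    (hM : ∀ i ≤ n, M i = ∑ l ∈ Finset.range (n + 1), c l * Npol η i (η l))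
    (h0 : M 0 = 0) (h1 : M 1 = 0) (h2 : M 2 = 0) : ∀ i ≤ n, M i = 0 := by
  obtain ⟨k, rfl⟩ : ∃ k, m = k + 1 := ⟨m - 1, by omega⟩
  have hpt : η k ≠ η (k + 1) := fun he => by
    have := H.inj k (by omega) (k + 1) (by omega) he; omega
  have hpq : η k ≠ η (k + 2) := fun he => by
    have := H.inj k (by omega) (k + 2) (by omega) he; omega
  have htq : η (k + 1) ≠ η (k + 2) := fun he => by
    have := H.inj (k + 1) (by omega) (k + 2) (by omega) he; omega
  have hs : ∀ i ≤ n, M i = c k * Npol η i (η k) + c (k + 1) * Npol η i (η (k + 1)) +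
      c (k + 2) * Npol η i (η (k + 2)) := by
    intro i hi
    rw [hM i hi, sum_supp3 hmn hc (fun l => Npol η i (η l))]
  have e0 := hs 0 (by omega)
  have e1 := hs 1 (by omega)
  have e2 := hs 2 (by omega)
  simp only [Npol_zero, mul_one] at e0
  simp only [Npol_one] at e1
  simp only [Npol_two] at e2
  obtain ⟨k1, k2, k3⟩ := vandermonde3_unique (a := η 0) (b := η 1) hpt hpq htq
    (by rw [← e0, h0]) (by rw [← e1, h1]) (by rw [← e2, h2])
  intro i hi
  rw [hs i hi, k1, k2, k3]; ring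

lemma nec_zero {β γ ρ : K} {η : ℕ → K} {n : ℕ} (H : Nodes β γ ρ η n) (hn : 2 ≤ n)
    {x y : ℕ → K} (h : TriCond η n 0 x y) (hx0 : x 0 = 0) (hx1 : x 1 = 0) (hx2 : x 2 = 0)
    (hy0 : y 0 = 0) (hy1 : y 1 = 0) : (∀ i ≤ n, x i = 0) ∧ (∀ i ≤ n, y i = 0) := by
  -- the top point
  have htop : ∀ i ≤ n, x i * Npol η i (η n) + y i * Npol η (i - 1) (η n) = 0 := by
    obtain ⟨k, rfl⟩ : ∃ k, n = k + 1 := ⟨n - 1, by omega⟩
    obtain ⟨c, hc, hc'⟩ := h (k + 1) (by omega) (by omega)
    have hs : ∀ i ≤ k + 1, x i * Npol η i (η (k + 1)) + y i * Npol η (i - 1) (η (k + 1)) =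
        c k * Npol η i (η k) + c (k + 1) * Npol η i (η (k + 1)) := by
      intro i hi
      rw [hc' i hi, sum_supp2 (k := k) (by omega) (fun l hl => by have := hc l hl; omega)
        (fun l => Npol η i (η l))]
    have e0 := hs 0 (by omega)
    have e1 := hs 1 (by omega)
    simp only [Npol_zero, mul_one, hx0, hy0] at e0
    simp only [Npol_one, hx1, hy1, zero_mul, add_zero] at e1
    have hne : η k - η (k + 1) ≠ 0 := by
      refine sub_ne_zero.mpr fun he => ?_
      have := H.inj k (by omega) (k + 1) (by omega) he; omega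
    have hck : c k = 0 := by
      have : c k * (η k - η (k + 1)) = 0 := by
        linear_combination -e1 + (η (k + 1) - η 0) * e0
      rcases mul_eq_zero.mp this with h4 | h4
      · exact h4
      · exact absurd h4 hne
    have hck1 : c (k + 1) = 0 := by rw [hck] at e0; linear_combination -e0
    intro i hi
    rw [hs i hi, hck, hck1]; ring
  have hy2 : y 2 = 0 := by
    have := htop 2 hn
    rw [hx2, zero_mul, zero_add, show (2 : ℕ) - 1 = 1 from rfl, Npol_one] at this
    rcases mul_eq_zero.mp this with h4 | h4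
    · exact h4
    · exfalso
      have := H.inj n le_rfl 0 (by omega) (sub_eq_zero.mp h4)
      omega
  have hall : ∀ m, 0 ≤ m → m + 0 ≤ n → ∀ i ≤ n,
      x i * Npol η i (η m) + y i * Npol η (i - 1) (η m) = 0 := by
    intro m _ hmn
    rcases Nat.eq_zero_or_pos m with rfl | hm
    · intro i hi
      match i with
      | 0 => simp [hx0, hy0]
      | 1 => simp [hx1, hy1]
      | i + 2 =>
        rw [Npol_eq_zero η (show 0 < i + 2 by omega),
          Npol_eq_zero η (show 0 < i + 2 - 1 by omega)]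
        ring
    · rcases Nat.lt_or_ge m n with hmn' | hmn'
      · obtain ⟨c, hc, hc'⟩ := h m (by omega) (by omega)
        refine interior_zero H hm hmn' hc hc' ?_ ?_ ?_
        · simp [hx0, hy0]
        · simp [hx1, hy1]
        · simp [hx2, hy2]
      · obtain rfl : m = n := by omega
        exact htop
  obtain ⟨h1, h2⟩ := zero_of_M H hy0 hall
  refine ⟨fun i hi => h1 i (by omega) (by omega), fun i hi => ?_⟩
  rcases Nat.eq_zero_or_pos i with rfl | hi'
  · exact hy0
  · exact h2 i hi' (by omega) hi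

lemma nec_pos {β γ ρ : K} {η : ℕ → K} {n κ : ℕ} (H : Nodes β γ ρ η n) (hκ : 1 ≤ κ)
    {x y : ℕ → K} (h : TriCond η n κ x y) (hx0 : x 0 = 0) (hx1 : x 1 = 0) (hx2 : x 2 = 0)
    (hy0 : y 0 = 0) (hy1 : y 1 = 0) (hy2 : y 2 = 0) (hyκ : y κ = 0) :
    (∀ i, κ ≤ i → i + κ ≤ n → x i = 0) ∧ (∀ i, κ < i → i + κ ≤ n + 1 → i ≤ n → y i = 0) := by
  refine zero_of_M H hyκ ?_
  intro m hm1 hm2
  obtain ⟨c, hc, hc'⟩ := h m hm1 hm2
  refine interior_zero H (by omega) (by omega) hc hc' ?_ ?_ ?_
  · simp [hx0, hy0]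
  · simp [hx1, hy1]
  · simp [hx2, hy2]

lemma suff_pos {β γ ρ : K} {η : ℕ → K} {n κ : ℕ} (H : Nodes β γ ρ η n) (hκ : 1 ≤ κ)
    {x g : ℕ → K}
    (hx : ∀ i, i + 3 ≤ n → x (i + 3) = (β + 1) * x (i + 2) - (β + 1) * x (i + 1) + x i)
    (hg : ∀ i, i + 3 ≤ n → g (i + 3) = (β + 1) * g (i + 2) - (β + 1) * g (i + 1) + g i)
    (hx0 : x 0 = 0) (hg0 : g 0 = 0) {y : ℕ → K}
    (hy : ∀ i, 1 ≤ i → i ≤ n → y i = x i * η (i - 1) + g i) (hy0 : y 0 = 0) :
    TriCond η n κ x y := by
  intro m hm1 hm2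
  exact interior H hx hg (by rw [hx0, hg0]; ring) hy hy0 (by omega) (by omega)

lemma suff_zero {β γ ρ : K} {η : ℕ → K} {n : ℕ} (H : Nodes β γ ρ η n) (hn : 1 ≤ n)
    {x : ℕ → K}
    (hx : ∀ i, i + 3 ≤ n → x (i + 3) = (β + 1) * x (i + 2) - (β + 1) * x (i + 1) + x i)
    {y : ℕ → K} (hy0 : y 0 = 0) {c : K}
    (hy : ∀ i, 1 ≤ i → i ≤ n → y i = (x i - x 0) * (η (i - 1) - η n) + c * Ssum η n i) :
    TriCond η n 0 x y := by
  intro m _ hm2
  rcases Nat.eq_zero_or_pos m with rfl | hm
  · exact end_zero H hn hy0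
  rcases Nat.lt_or_ge m n with hmn' | hmn'
  swap
  · obtain rfl : m = n := by omega
    exact end_top H hn hy0 hy
  set ηm : ℕ → K := fun i => if i = 0 then γ + β * η 0 - η 1 else η (i - 1) with hηm
  refine interior H hx (g := fun i => -x i * η n - x 0 * ηm i + x 0 * η n + c * Ssum η n i)
    ?_ ?_ ?_ hy0 hm hmn'
  · intro i hi
    have e1 := hx i hi
    have e2 := Ssum_rec H i (by omega)
    have e3 : ηm (i + 3) = (β + 1) * ηm (i + 2) - (β + 1) * ηm (i + 1) + ηm i := by
      match i with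
      | 0 =>
        simp only [hηm]
        have := H.hγ 0 (by omega)
        simp only [zero_add] at this
        norm_num
        linear_combination this
      | i + 1 =>
        simp only [hηm]
        have h1 := H.hγ i (by omega)
        have h2 := H.hγ (i + 1) (by omega)
        rw [if_neg (by omega), if_neg (by omega), if_neg (by omega), if_neg (by omega),
          show i + 1 + 3 - 1 = i + 1 + 2 by omega, show i + 1 + 2 - 1 = i + 2 by omega,
          show i + 1 + 1 - 1 = i + 1 by omega, show i + 1 - 1 = i by omega]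
        rw [show i + 1 + 1 = i + 2 by ring] at h2
        linear_combination h2 - h1
    rw [e1, e2, e3]; ring
  · simp only [Ssum, hηm, Finset.range_zero, Finset.sum_empty, if_true]
    ring
  · intro i hi1 hi
    rw [hy i hi1 hi]
    simp only [hηm]
    rw [if_neg (by omega)]
    ring

end Pool.Agent.Lib.MP_b7840d_al
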