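import Mathlib
import Pool.Agent.Lib.MP_b7840d_al.Block

set_option autoImplicit false

namespace Pool.Agent.Lib.MP_b7840d_al

variable {K : Type*} [Field K]

/-- A `β`-recurrent sequence with three prescribed consecutive values. -/
lemma exists_betaRec (β : K) (a : ℤ) (u0 u1 u2 : K) :
    ∃ u : ℤ → K, BetaRec β u ∧ u a = u0 ∧ u (a + 1) = u1 ∧ u (a + 2) = u2 := by
  let T : Equiv.Perm (K × K × K) :=
    { toFun := fun v => (v.2.1, v.2.2, (β + 1) * v.2.2 - (β + 1) * v.2.1 + v.1)
      invFun := fun v => (v.2.2 - (β + 1) * v.2.1 + (β + 1) * v.1, v.1, v.2.1)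
      left_inv := fun v => by
        obtain ⟨a, b, c⟩ := v
        simp only [Prod.mk.injEq, and_true]
        ring
      right_inv := fun v => by
        obtain ⟨a, b, c⟩ := v
        simp only [Prod.mk.injEq, true_and]
        ring }
  let s : ℤ → K × K × K := fun i => (T ^ (i - a)) (u0, u1, u2)
  have hs : ∀ i, s (i + 1) = T (s i) := by
    intro i
    simp only [s]
    rw [show i + 1 - a = 1 + (i - a) by ring, zpow_add, zpow_one, Equiv.Perm.mul_apply]
  have h1 : ∀ i, (s (i + 1)).1 = (s i).2.1 := fun i => by rw [hs]; rfl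
  have h2 : ∀ i, (s (i + 2)).1 = (s i).2.2 := fun i => by
    rw [show i + 2 = (i + 1) + 1 by ring, h1, hs]; rfl
  have h3 : ∀ i, (s (i + 3)).1 = (β + 1) * (s i).2.2 - (β + 1) * (s i).2.1 + (s i).1 :=
    fun i => by
    rw [show i + 3 = (i + 1) + 2 by ring, h2, hs]; rfl
  have hsa : s a = (u0, u1, u2) := by simp [s]
  refine ⟨fun i => (s i).1, ?_, ?_, ?_, ?_⟩
  · intro i
    simp only
    rw [h3, h2, h1]
  · simp only [hsa]
  · simp only [h1, hsa]
  · simp only [h2, hsa]

lemma BetaRec.nat {β : K} {u : ℤ → K} (h : BetaRec β u) (i : ℕ) :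
    u ((i + 3 : ℕ) : ℤ) = (β + 1) * u ((i + 2 : ℕ) : ℤ) - (β + 1) * u ((i + 1 : ℕ) : ℤ) +
      u (i : ℤ) := by
  have := h i
  push_cast
  exact this

lemma BetaRec.shift {β : K} {u : ℤ → K} (h : BetaRec β u) (a : ℤ) :
    BetaRec β (fun i => u (i + a)) := by
  intro i
  have := h (i + a)
  simp only
  rw [show i + 3 + a = i + a + 3 by ring, show i + 2 + a = i + a + 2 by ring,
    show i + 1 + a = i + a + 1 by ring]
  exact this

lemma BetaRec.reflect {β : K} {u : ℤ → K} (h : BetaRec β u) (a : ℤ) :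
    BetaRec β (fun i => u (a - i)) := by
  intro i
  have := h (a - (i + 3))
  simp only
  rw [show a - (i + 3) + 3 = a - i by ring, show a - (i + 3) + 2 = a - (i + 1) by ring,
    show a - (i + 3) + 1 = a - (i + 2) by ring] at this
  linear_combination -this

lemma BetaRec.neg {β : K} {u : ℤ → K} (h : BetaRec β u) : BetaRec β (fun i => -u i) := by
  intro i
  have := h i
  simp only
  linear_combination -this

lemma BetaRec.smul {β : K} {u : ℤ → K} (h : BetaRec β u) (c : K) :
    BetaRec β (fun i => c * u i) := by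
  intro i
  have := h i
  simp only
  linear_combination c * this

lemma BetaRec.add {β : K} {u v : ℤ → K} (hu : BetaRec β u) (hv : BetaRec β v) :
    BetaRec β (fun i => u i + v i) := by
  intro i
  have := hu i
  have := hv i
  simp only
  linear_combination hu i + hv i

variable {β γ ρ : K} {η : ℕ → K} {n : ℕ}

lemma block0_mpr (H : Nodes β γ ρ η n) {x y : ℕ → K} (hy0 : y 0 = 0) {u : ℤ → K}
    (hu : BetaRec β u) (hx : ∀ i ≤ n, x i = u i) {c : K}
    (hy : ∀ i, 1 ≤ i → i ≤ n → y i = (x i - x 0) * (η (i - 1) - η n) + c * Ssum η n i) :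
    TriCond η n 0 x y := by
  rcases Nat.eq_zero_or_pos n with rfl | hn
  · intro m _ hm
    obtain rfl : m = 0 := by omega
    refine ⟨fun l => if l = 0 then x 0 else 0, fun l hl => ?_, fun i hi => ?_⟩
    · by_contra h1
      apply hl
      simp only
      rw [if_neg (by omega)]
    · obtain rfl : i = 0 := by omega
      simp [hy0]
  · refine suff_zero H hn (fun i hi => ?_) hy0 hy
    rw [hx _ (by omega), hx _ (by omega), hx _ (by omega), hx _ (by omega)]
    exact hu.nat i

theorem block0 (H : Nodes β γ ρ η n) {x y : ℕ → K} (hy0 : y 0 = 0) :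
    TriCond η n 0 x y ↔ ∃ u : ℤ → K, BetaRec β u ∧ (∀ i ≤ n, x i = u i) ∧
      ∃ c : K, ∀ i, 1 ≤ i → i ≤ n →
        y i = (x i - x 0) * (η (i - 1) - η n) + c * Ssum η n i := by
  constructor
  · intro h
    obtain ⟨u, hu, e0, e1, e2⟩ := exists_betaRec β 0 (x 0) (x 1) (x 2)
    rw [zero_add] at e1 e2
    rcases Nat.eq_zero_or_pos n with rfl | hn
    · refine ⟨u, hu, fun i hi => ?_, 0, fun i h1 h2 => by omega⟩
      obtain rfl : i = 0 := by omega
      exact e0.symm
    have hne : η 0 - η n ≠ 0 := by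
      refine sub_ne_zero.mpr fun he => ?_
      have := H.inj 0 (by omega) n le_rfl he; omega
    have hS1 : Ssum η n 1 = η 0 - η n := by simp [Ssum]
    set c : K := (y 1 - (x 1 - x 0) * (η 0 - η n)) / (η 0 - η n) with hc
    have hcy : y 1 = (x 1 - x 0) * (η 0 - η n) + c * Ssum η n 1 := by
      rw [hS1, hc, div_mul_cancel₀ _ hne]; ring
    rcases Nat.lt_or_ge 1 n with hn1 | hn1
    swap
    · obtain rfl : n = 1 := by omega
      refine ⟨u, hu, fun i hi => ?_, c, fun i h1 h2 => ?_⟩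
      · interval_cases i
        · exact e0.symm
        · exact e1.symm
      · obtain rfl : i = 1 := by omega
        exact hcy
    · set x' : ℕ → K := fun i => u i with hx'
      set y' : ℕ → K := fun i => if i = 0 then 0 else
        (x' i - x' 0) * (η (i - 1) - η n) + c * Ssum η n i with hy'
      have h' : TriCond η n 0 x' y' := by
        refine block0_mpr H (by simp [hy']) hu (fun i _ => rfl) (c := c) ?_
        intro i h1 h2
        simp only [hy']
        rw [if_neg (by omega)]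
      have hsub := h.sub h'
      obtain ⟨k1, k2⟩ := nec_zero H hn1 hsub (by simp [hx', e0]) (by simp [hx', e1])
        (by simp [hx', e2]) (by simp [hy', hy0]) (by
          simp only [hy', hx', one_ne_zero, if_false]
          rw [show ((1 : ℕ) : ℤ) = 1 from rfl, show ((0 : ℕ) : ℤ) = 0 from rfl, e1, e0, hcy,
            show (1 : ℕ) - 1 = 0 from rfl]
          ring)
      have kx : ∀ i ≤ n, x i = u i := fun i hi => sub_eq_zero.mp (k1 i hi)
      refine ⟨u, hu, kx, c, fun i h1 h2 => ?_⟩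
      have := sub_eq_zero.mp (k2 i h2)
      rw [this]
      simp only [hy', hx']
      rw [if_neg (by omega), kx i h2, kx 0 (by omega)]
  · rintro ⟨u, hu, hx, c, hy⟩
    exact block0_mpr H hy0 hu hx hy

lemma block1_aux (H : Nodes β γ ρ η n) {u z : ℤ → K} (hu : BetaRec β u) (hz : BetaRec β z)
    (hu0 : u 0 = 0) (hz0 : z 0 = 0) (κ : ℕ) (hκ : 1 ≤ κ) (l : ℕ) :
    TriCond η n κ (fun i => u i) (fun i => u i * (η (i - 1) - η l) + z i) := by
  refine suff_pos H hκ (x := fun i => u i) (g := fun i => -(u i * η l) + z i)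
    (fun i _ => hu.nat i) ?_ hu0 ?_ ?_ ?_
  · intro i _
    have e1 := hu.nat i
    have e2 := hz.nat i
    linear_combination -(η l) * e1 + e2
  · simp [hu0, hz0]
  · intro i _ _
    ring
  · simp [hu0, hz0]

theorem block1 (H : Nodes β γ ρ η n) {x y : ℕ → K} (hx0 : x 0 = 0)
    (hy0 : y 0 = 0) (hy1 : y 1 = 0) :
    TriCond η n 1 x y ↔ ∃ u z : ℤ → K, BetaRec β u ∧ BetaRec β z ∧ u 0 = 0 ∧ z 0 = 0 ∧
      z 1 = 0 ∧ (∀ i : ℕ, 1 ≤ i → i + 1 ≤ n → x i = u i) ∧
      ∀ i : ℕ, 2 ≤ i → i ≤ n → y i = u i * (η (i - 1) - η 0) + z i := by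
  constructor
  · intro h
    obtain ⟨u, hu, e0, e1, e2⟩ := exists_betaRec β 0 0 (x 1) (x 2)
    obtain ⟨z, hz, f0, f1, f2⟩ := exists_betaRec β 0 0 0 (y 2 - x 2 * (η 1 - η 0))
    rw [zero_add] at e1 e2 f1 f2
    have h' := block1_aux H hu hz e0 f0 1 le_rfl 0
    have hsub := h.sub h'
    obtain ⟨k1, k2⟩ := nec_pos H le_rfl hsub (by simp [e0, hx0]) (by simp [e1])
      (by simp [e2]) (by simp [e0, f0, hy0]) (by simp [f1, hy1]) (by
        simp only [Nat.cast_ofNat, e2, f2, show (2 : ℕ) - 1 = 1 from rfl]; ring)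
      (by simp [f1, hy1])
    refine ⟨u, z, hu, hz, e0, f0, f1, fun i h1 h2 => sub_eq_zero.mp (k1 i h1 h2),
      fun i h1 h2 => sub_eq_zero.mp (k2 i (by omega) (by omega) h2)⟩
  · rintro ⟨u, z, hu, hz, hu0, hz0, hz1, hx, hy⟩
    refine (block1_aux H hu hz hu0 hz0 1 le_rfl 0).congr ?_ ?_
    · intro i hi
      rcases Nat.eq_zero_or_pos i with rfl | h1
      · simp [hu0, hx0]
      · exact (hx i h1 hi).symm
    · intro i _ hi
      match i with
      | 0 => simp [hu0, hz0, hy0]
      | 1 => simp [hz1, hy1]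
      | i + 2 => exact (hy (i + 2) (by omega) hi).symm

theorem block2 (H : Nodes β γ ρ η n) {x y : ℕ → K} (hx0 : x 0 = 0)
    (hx1 : x 1 = 0) (hy0 : y 0 = 0) (hy1 : y 1 = 0) (hy2 : y 2 = 0) :
    TriCond η n 2 x y ↔ ∃ u : ℤ → K, BetaRec β u ∧ u 0 = 0 ∧ u 1 = 0 ∧
      (∀ i : ℕ, 2 ≤ i → i + 2 ≤ n → x i = u i) ∧
      ∀ i : ℕ, 3 ≤ i → i + 1 ≤ n → y i = u i * (η (i - 1) - η 1) := by
  have hz : BetaRec β (fun _ : ℤ => (0 : K)) := fun i => by simp
  constructor
  · intro h
    obtain ⟨u, hu, e0, e1, e2⟩ := exists_betaRec β 0 0 0 (x 2)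
    rw [zero_add] at e1 e2
    have h' := block1_aux H hu hz e0 rfl 2 (by omega) 1
    have hsub := h.sub h'
    obtain ⟨k1, k2⟩ := nec_pos H (by omega) hsub (by simp [e0, hx0]) (by simp [e1, hx1])
      (by simp [e2]) (by simp [e0, hy0]) (by simp [e1, hy1]) (by simp [hy2]) (by simp [hy2])
    refine ⟨u, hu, e0, e1, fun i h1 h2 => sub_eq_zero.mp (k1 i h1 h2), fun i h1 h2 => ?_⟩
    have := sub_eq_zero.mp (k2 i (by omega) (by omega) (by omega))
    rw [this, add_zero]
  · rintro ⟨u, hu, hu0, hu1, hx, hy⟩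
    refine (block1_aux H hu hz hu0 rfl 2 (by omega) 1).congr ?_ ?_
    · intro i hi
      match i with
      | 0 => simp [hu0, hx0]
      | 1 => simp [hu1, hx1]
      | i + 2 => exact (hx (i + 2) (by omega) hi).symm
    · intro i hi _
      match i with
      | 0 => simp [hu0, hy0]
      | 1 => simp [hu1, hy1]
      | 2 => simp [hy2]
      | i + 3 => simp only [add_zero]; exact (hy (i + 3) (by omega) (by omega)).symm

theorem block3 (H : Nodes β γ ρ η n) {κ : ℕ} (hκ : 3 ≤ κ) {x y : ℕ → K}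
    (hx0 : ∀ i < κ, x i = 0) (hy0 : ∀ i ≤ κ, y i = 0) :
    TriCond η n κ x y ↔ (∀ i, κ ≤ i → i + κ ≤ n → x i = 0) ∧
      (∀ i, κ < i → i + κ ≤ n + 1 → y i = 0) := by
  constructor
  · intro h
    obtain ⟨k1, k2⟩ := nec_pos H (by omega) h (hx0 0 (by omega)) (hx0 1 (by omega))
      (hx0 2 (by omega)) (hy0 0 (by omega)) (hy0 1 (by omega)) (hy0 2 (by omega))
      (hy0 κ le_rfl)
    exact ⟨k1, fun i h1 h2 => k2 i h1 h2 (by omega)⟩
  · rintro ⟨hx, hy⟩
    have h0 : TriCond η n κ (fun _ => 0) (fun _ => 0) := by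
      intro m _ _
      exact ⟨fun _ => 0, fun l hl => absurd rfl hl, fun i _ => by simp⟩
    refine h0.congr (fun i hi => ?_) (fun i hi _ => ?_)
    · rcases Nat.lt_or_ge i κ with h1 | h1
      · exact (hx0 i h1).symm
      · exact (hx i h1 hi).symm
    · rcases Nat.lt_or_ge κ i with h1 | h1
      · exact (hy i h1 hi).symm
      · exact (hy0 i h1).symm

end Pool.Agent.Lib.MP_b7840d_al
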