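import Mathlib
import Pool.Agent.Lib.MP_b7840d_al.Chain

set_option autoImplicit false
set_option linter.unusedSectionVars false

namespace Pool.Agent.Lib.MP_b7840d_al

variable {K V : Type*} [Field K] [AddCommGroup V] [Module K V]
variable {A As : Module.End K V} {d δ : ℕ} {θ θs : ℤ → K}

/-- The lowest pieces of strings starting in `U_n`. -/
noncomputable def Kr (A As : Module.End K V) (d δ : ℕ) (θ θs : ℤ → K) (n : ℕ) :
    Submodule K V := splitSp A As d δ θ θs n ⊓ LinearMap.ker (chain A θ n (d + 1 - 2 * n))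

variable (A As d δ θ θs) in
/-- A choice of bases of all `Kr n`. -/
lemma exists_Kbasis [FiniteDimensional K V] :
    ∃ (J : Type) (_ : Fintype J) (r : J → ℕ) (w : J → V),
      (∀ j, 2 * r j ≤ d) ∧ (∀ j, w j ∈ Kr A As d δ θ θs (r j)) ∧
      (∀ n, 2 * n ≤ d → Kr A As d δ θ θs n ≤ Submodule.span K {x | ∃ j, r j = n ∧ x = w j}) ∧
      (∀ n, 2 * n ≤ d → ∀ g : J → K, (∀ j, r j ≠ n → g j = 0) → ∑ j, g j • w j = 0 →
        ∀ j, g j = 0) := by
  classical
  refine ⟨Σ n : Fin (d / 2 + 1), Fin (Module.finrank K (Kr A As d δ θ θs n)), inferInstance,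
    fun j => (j.1 : ℕ), fun j => (Module.finBasis K (Kr A As d δ θ θs j.1) j.2 : V),
    ?_, ?_, ?_, ?_⟩
  · intro j; have := j.1.2; show 2 * (j.1 : ℕ) ≤ d; omega
  · intro j; exact Submodule.coe_mem _
  · intro n hn x hx
    have hn' : n < d / 2 + 1 := by omega
    set b := Module.finBasis K (Kr A As d δ θ θs n) with hb
    have h1 := b.sum_repr ⟨x, hx⟩
    have h2 := congrArg Subtype.val h1
    simp only [Submodule.coe_sum, Submodule.coe_smul] at h2
    rw [← h2]
    refine Submodule.sum_mem _ fun a _ => Submodule.smul_mem _ _ (Submodule.subset_span ?_)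
    exact ⟨⟨⟨n, hn'⟩, a⟩, rfl, rfl⟩
  · intro n hn g hg h0
    have hn' : n < d / 2 + 1 := by omega
    have h1 : ∑ a, g ⟨⟨n, hn'⟩, a⟩ •
        (Module.finBasis K (Kr A As d δ θ θs ((⟨n, hn'⟩ : Fin (d / 2 + 1)) : ℕ)) a : V) = 0 := by
      rw [← h0, Fintype.sum_sigma]
      symm
      rw [Finset.sum_eq_single (⟨n, hn'⟩ : Fin (d / 2 + 1))]
      · intro m _ hm
        refine Finset.sum_eq_zero fun a _ => ?_
        rw [hg ⟨m, a⟩ (fun he => hm (Fin.ext he)), zero_smul]
      · intro hm; exact absurd (Finset.mem_univ _) hm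
    have h2 : ∑ a, g ⟨⟨n, hn'⟩, a⟩ •
        (Module.finBasis K (Kr A As d δ θ θs ((⟨n, hn'⟩ : Fin (d / 2 + 1)) : ℕ)) a) = 0 := by
      apply Subtype.ext
      simpa using h1
    have h3 := Fintype.linearIndependent_iff.mp
      (Module.finBasis K (Kr A As d δ θ θs ((⟨n, hn'⟩ : Fin (d / 2 + 1)) : ℕ))).linearIndependent
      _ h2
    rintro ⟨m, a⟩
    by_cases hm : m = ⟨n, hn'⟩
    · subst hm; exact h3 a
    · exact hg _ (fun he => hm (Fin.ext he))

/-- the vector in position `i` of the string of `w` starting at `r`, zero outside `[r, d - r]` -/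
noncomputable def strVec (A : Module.End K V) (d : ℕ) (θ : ℤ → K) (r : ℕ) (w : V) (i : ℤ) : V :=
  open scoped Classical in
  if (r : ℤ) ≤ i ∧ i ≤ d - r then chain A θ r (i - r).toNat w else 0

lemma strVec_of_mem {r : ℕ} {w : V} {i : ℤ} (h : (r : ℤ) ≤ i ∧ i ≤ d - r) :
    strVec A d θ r w i = chain A θ r (i - r).toNat w := by
  unfold strVec; rw [if_pos h]

lemma strVec_of_not_mem {r : ℕ} {w : V} {i : ℤ} (h : ¬ ((r : ℤ) ≤ i ∧ i ≤ d - r)) :
    strVec A d θ r w i = 0 := by
  unfold strVec; rw [if_neg h]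

section

variable (h : IsTridiagonalPair A As d δ θ θs)
include h

omit h in
lemma Kr_chain_zero {r : ℕ} {w : V} (hw : w ∈ Kr A As d δ θ θs r) :
    chain A θ r (d + 1 - 2 * r) w = 0 := hw.2

lemma strVec_mem_Usp {r : ℕ} {w : V} (hw : w ∈ Kr A As d δ θ θs r) (i : ℤ) :
    strVec A d θ r w i ∈ splitSp A As d δ θ θs i := by
  by_cases hi : (r : ℤ) ≤ i ∧ i ≤ d - r
  · rw [strVec_of_mem hi]
    have := chain_Usp h hw.1 (i - r).toNat
    rwa [show (r : ℤ) + ((i - r).toNat : ℤ) = i by omega] at this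
  · rw [strVec_of_not_mem hi]; exact Submodule.zero_mem _

omit h in
lemma strVec_A {r : ℕ} {w : V} (hw : w ∈ Kr A As d δ θ θs r) {i : ℤ}
    (hi : (r : ℤ) ≤ i ∧ i ≤ d - r) :
    A (strVec A d θ r w i) - θ i • strVec A d θ r w i = strVec A d θ r w (i + 1) := by
  rw [strVec_of_mem hi]
  have h1 := chain_succ_apply (A := A) (θ := θ) r (i - r).toNat w
  rw [show (r : ℤ) + ((i - r).toNat : ℤ) = i by omega] at h1
  rw [← h1]
  by_cases hi' : i + 1 ≤ d - r
  · rw [strVec_of_mem ⟨by omega, hi'⟩]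
    rw [show (i - r).toNat + 1 = (i + 1 - r).toNat by omega]
  · rw [strVec_of_not_mem (by omega)]
    rw [show (i - r).toNat + 1 = d + 1 - 2 * r by omega]
    exact Kr_chain_zero hw

omit h in
lemma chain_strVec {r : ℕ} {w : V} (hw : w ∈ Kr A As d δ θ θs r) {i : ℤ}
    (hi : (r : ℤ) ≤ i) (k : ℕ) :
    chain A θ i k (strVec A d θ r w i) = strVec A d θ r w (i + k) := by
  induction k with
  | zero => simp
  | succ k ih =>
    rw [chain_succ_apply, ih]
    by_cases hk : i + k ≤ d - r
    · rw [strVec_A hw ⟨by omega, hk⟩]; push_cast; rw [add_assoc]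
    · rw [strVec_of_not_mem (by omega), strVec_of_not_mem (by omega)]; simp

variable [FiniteDimensional K V]

/-- Decomposition step. -/
lemma Usp_decomp {n : ℕ} (hn : 1 ≤ n) (hnd : 2 * n ≤ d) {u : V}
    (hu : u ∈ splitSp A As d δ θ θs n) :
    ∃ u' ∈ splitSp A As d δ θ θs (n - 1), u - chain A θ (n - 1) 1 u' ∈ Kr A As d δ θ θs n := by
  have h1 := chain_Usp h hu (d + 1 - 2 * n)
  have e1 : (n : ℤ) + ((d + 1 - 2 * n : ℕ) : ℤ) = (n - 1) + ((d + 2 - 2 * n : ℕ) : ℤ) := by omega
  rw [e1] at h1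
  obtain ⟨u', hu', hu''⟩ := chain_surj h (r := (n : ℤ) - 1) (k := d + 2 - 2 * n) (by omega)
    (by omega) h1
  refine ⟨u', hu', ?_, ?_⟩
  · refine Submodule.sub_mem _ hu ?_
    have := chain_Usp h hu' 1
    rwa [show (n : ℤ) - 1 + ((1 : ℕ) : ℤ) = n by push_cast; ring] at this
  · show _ ∈ LinearMap.ker _
    rw [LinearMap.mem_ker, map_sub, sub_eq_zero, ← hu'']
    have := chain_add_apply (A := A) (θ := θ) (n - 1) 1 (d + 1 - 2 * n) u'
    rw [show (n : ℤ) - 1 + ((1 : ℕ) : ℤ) = n by push_cast; ring] at this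
    rw [← this]
    congr 2
    omega

section withbasis

variable {J : Type} [Fintype J] {r : J → ℕ} {w : J → V}
  (hr : ∀ j, 2 * r j ≤ d) (hw : ∀ j, w j ∈ Kr A As d δ θ θs (r j))
  (hspan : ∀ n, 2 * n ≤ d → Kr A As d δ θ θs n ≤ Submodule.span K {x | ∃ j, r j = n ∧ x = w j})
  (hind : ∀ n, 2 * n ≤ d → ∀ g : J → K, (∀ j, r j ≠ n → g j = 0) → ∑ j, g j • w j = 0 →
        ∀ j, g j = 0)

include hr hw

omit [FiniteDimensional K V] [Fintype J] in
lemma span_chain {i : ℤ} (k : ℕ) :
    ∀ x ∈ Submodule.span K {x | ∃ j, (r j : ℤ) ≤ i ∧ i ≤ d - r j ∧ x = strVec A d θ (r j) (w j) i},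
    chain A θ i k x ∈ Submodule.span K
      {x | ∃ j, (r j : ℤ) ≤ i + k ∧ i + k ≤ d - r j ∧ x = strVec A d θ (r j) (w j) (i + k)} := by
  intro x hx
  have : Submodule.span K
      {x | ∃ j, (r j : ℤ) ≤ i ∧ i ≤ d - r j ∧ x = strVec A d θ (r j) (w j) i} ≤
      (Submodule.span K {x | ∃ j, (r j : ℤ) ≤ i + k ∧ i + k ≤ d - r j ∧
        x = strVec A d θ (r j) (w j) (i + k)}).comap (chain A θ i k) := by
    rw [Submodule.span_le]
    rintro x ⟨j, hj1, hj2, rfl⟩
    simp only [Submodule.comap_coe, Set.mem_preimage, SetLike.mem_coe]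
    rw [chain_strVec (hw j) hj1]
    by_cases hk : i + k ≤ d - r j
    · exact Submodule.subset_span ⟨j, by omega, hk, rfl⟩
    · rw [strVec_of_not_mem (by omega)]; exact Submodule.zero_mem _
  exact this hx

include hspan

lemma Usp_le_span_low (n : ℕ) (hn : 2 * n ≤ d) :
    splitSp A As d δ θ θs n ≤ Submodule.span K
      {x | ∃ j, (r j : ℤ) ≤ n ∧ (n : ℤ) ≤ d - r j ∧ x = strVec A d θ (r j) (w j) n} := by
  have hK : ∀ n, 2 * n ≤ d → Kr A As d δ θ θs n ≤ Submodule.span K
      {x | ∃ j, (r j : ℤ) ≤ n ∧ (n : ℤ) ≤ d - r j ∧ x = strVec A d θ (r j) (w j) n} := by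
    intro n hn
    refine (hspan n hn).trans (Submodule.span_mono ?_)
    rintro x ⟨j, hj, rfl⟩
    refine ⟨j, by omega, by omega, ?_⟩
    rw [strVec_of_mem (by omega)]
    have : ((n : ℤ) - r j).toNat = 0 := by omega
    rw [this]; simp
  induction n with
  | zero =>
    refine le_trans ?_ (hK 0 hn)
    intro u hu
    refine ⟨hu, ?_⟩
    show _ ∈ LinearMap.ker _
    rw [LinearMap.mem_ker]
    have h1 := chain_Usp h hu (d + 1 - 2 * 0)
    rw [Usp_big (by push_cast; omega), Submodule.mem_bot] at h1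
    exact h1
  | succ n ih =>
    intro u hu
    obtain ⟨u', hu', hu''⟩ := Usp_decomp h (n := n + 1) (by omega) hn hu
    have e1 : (((n + 1 : ℕ) : ℤ) - 1) = n := by push_cast; ring
    rw [e1] at hu' hu''
    have h1 := span_chain h hr hw 1 _ (ih (by omega) hu')
    have h2 := hK (n + 1) hn hu''
    have e2 : ((n : ℤ) + ((1 : ℕ) : ℤ)) = ((n + 1 : ℕ) : ℤ) := by push_cast; ring
    rw [e2] at h1
    have := Submodule.add_mem _ h2 h1
    rwa [sub_add_cancel] at this

lemma Usp_le_span (i : ℤ) :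
    splitSp A As d δ θ θs i ≤ Submodule.span K
      {x | ∃ j, (r j : ℤ) ≤ i ∧ i ≤ d - r j ∧ x = strVec A d θ (r j) (w j) i} := by
  rcases lt_or_ge i 0 with hi | hi
  · rw [Usp_neg hi]; exact bot_le
  rcases lt_or_ge (d : ℤ) i with hi' | hi'
  · rw [Usp_big hi']; exact bot_le
  obtain ⟨n, rfl⟩ := Int.eq_ofNat_of_zero_le hi
  by_cases hn : 2 * n ≤ d
  · exact Usp_le_span_low h hr hw hspan n hn
  · intro u hu
    obtain ⟨m, hm⟩ : ∃ m, d = n + m := ⟨d - n, by omega⟩
    have e1 : ((n : ℤ)) = (m : ℤ) + ((d - 2 * m : ℕ) : ℤ) := by omega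
    rw [e1] at hu ⊢
    obtain ⟨u', hu', rfl⟩ := chain_surj h (r := m) (k := d - 2 * m) (by omega) (by omega) hu
    exact span_chain h hr hw _ _ (Usp_le_span_low h hr hw hspan m (by omega) hu')

omit hspan [FiniteDimensional K V]
include hind

lemma level_low (n : ℕ) (hn : 2 * n ≤ d) (g : J → K) (hg : ∀ j, n < r j → g j = 0)
    (h0 : ∑ j, g j • strVec A d θ (r j) (w j) n = 0) : ∀ j, g j = 0 := by
  classical
  induction n generalizing g with
  | zero =>
    refine hind 0 hn g (fun j hj => hg j (by omega)) ?_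
    rw [← h0]
    refine Finset.sum_congr rfl fun j _ => ?_
    by_cases hj : r j = 0
    · rw [strVec_of_mem (by push_cast; omega)]
      have : (((0 : ℕ) : ℤ) - r j).toNat = 0 := by omega
      rw [this]; simp
    · rw [hg j (by omega)]; simp
  | succ n ih =>
    -- g' : restriction to r j ≤ n
    set g' : J → K := fun j => if r j ≤ n then g j else 0 with hg'
    have h1 : ∑ j, g' j • strVec A d θ (r j) (w j) ((n : ℤ) + ((d - 2 * n : ℕ) : ℤ)) = 0 := by
      have h2 := congrArg (chain A θ ((n + 1 : ℕ) : ℤ) (d - 2 * n - 1)) h0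
      rw [map_zero, map_sum] at h2
      rw [← h2]
      refine Finset.sum_congr rfl fun j _ => ?_
      rw [map_smul]
      by_cases hj : r j ≤ n
      · rw [chain_strVec (hw j) (by push_cast; omega)]
        simp only [hg', if_pos hj]
        congr 2
        omega
      · simp only [hg', if_neg hj, zero_smul]
        by_cases hj' : r j = n + 1
        · rw [chain_strVec (hw j) (by push_cast; omega), strVec_of_not_mem (by omega)]
          simp
        · rw [hg j (by omega)]; simp
    have h3 : ∑ j, g' j • strVec A d θ (r j) (w j) n = 0 := by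
      refine chain_inj h (r := n) (k := d - 2 * n) (by omega) (by omega) ?_ ?_
      · exact Submodule.sum_mem _ fun j _ => Submodule.smul_mem _ _ (strVec_mem_Usp h (hw j) _)
      · rw [← h1, map_sum]
        refine Finset.sum_congr rfl fun j _ => ?_
        rw [map_smul]
        by_cases hj : r j ≤ n
        · rw [chain_strVec (hw j) (by omega)]
        · simp only [hg', if_neg hj, zero_smul]
    have h4 := ih (by omega) g' (fun j hj => by simp only [hg']; rw [if_neg (by omega)]) h3
    have h5 : ∀ j, r j ≤ n → g j = 0 := fun j hj => by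
      have := h4 j
      simpa only [hg', if_pos hj] using this
    refine hind (n + 1) hn g (fun j hj => ?_) ?_
    · rcases Nat.lt_or_ge (r j) (n + 1) with h6 | h6
      · exact h5 j (by omega)
      · exact hg j (by omega)
    · rw [← h0]
      refine Finset.sum_congr rfl fun j _ => ?_
      by_cases hj : r j = n + 1
      · rw [strVec_of_mem (by omega)]
        have : (((n + 1 : ℕ) : ℤ) - r j).toNat = 0 := by omega
        rw [this]; simp
      · rcases Nat.lt_or_ge (r j) (n + 1) with h6 | h6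
        · rw [h5 j (by omega)]; simp
        · rw [hg j (by omega)]; simp

lemma level_ind (i : ℤ) (g : J → K)
    (h0 : ∑ j, g j • strVec A d θ (r j) (w j) i = 0) :
    ∀ j, (r j : ℤ) ≤ i → i ≤ d - r j → g j = 0 := by
  classical
  intro j hj1 hj2
  obtain ⟨n, rfl⟩ := Int.eq_ofNat_of_zero_le (show 0 ≤ i by omega)
  by_cases hn : 2 * n ≤ d
  · set g' : J → K := fun j => if r j ≤ n then g j else 0 with hg'
    have h1 : ∑ j, g' j • strVec A d θ (r j) (w j) n = 0 := by
      rw [← h0]
      refine Finset.sum_congr rfl fun j _ => ?_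
      by_cases hj : r j ≤ n
      · simp only [hg', if_pos hj]
      · simp only [hg', if_neg hj, zero_smul]
        rw [strVec_of_not_mem (by omega), smul_zero]
    have h2 := level_low h hr hw hind n hn g' (fun j hj => by
      simp only [hg']; rw [if_neg (by omega)]) h1 j
    simpa only [hg', if_pos (show r j ≤ n by omega)] using h2
  · obtain ⟨m, hm⟩ : ∃ m, d = n + m := ⟨d - n, by omega⟩
    set g' : J → K := fun j => if r j ≤ m then g j else 0 with hg'
    have h1 : ∑ j, g' j • strVec A d θ (r j) (w j) m = 0 := by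
      refine chain_inj h (r := m) (k := d - 2 * m) (by omega) (by omega) ?_ ?_
      · exact Submodule.sum_mem _ fun j _ => Submodule.smul_mem _ _ (strVec_mem_Usp h (hw j) _)
      · rw [← h0, map_sum]
        refine Finset.sum_congr rfl fun j _ => ?_
        rw [map_smul]
        by_cases hj : r j ≤ m
        · rw [chain_strVec (hw j) (by omega)]
          simp only [hg', if_pos hj]
          congr 2
          omega
        · simp only [hg', if_neg hj, zero_smul]
          rw [strVec_of_not_mem (by omega), smul_zero]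
    have h2 := level_low h hr hw hind m (by omega) g' (fun j hj => by
      simp only [hg']; rw [if_neg (by omega)]) h1 j
    simpa only [hg', if_pos (show r j ≤ m by omega)] using h2

end withbasis

end

/-- The index set of the string basis. -/
abbrev Idx {J : Type} (d : ℕ) (r : J → ℕ) : Type := {p : J × ℤ // (r p.1 : ℤ) ≤ p.2 ∧ p.2 ≤ d - r p.1}

instance {J : Type} [Finite J] (d : ℕ) (r : J → ℕ) : Finite (Idx d r) := by
  let f : Idx d r → J × (Set.Icc (0 : ℤ) d) := fun p => (p.1.1, ⟨p.1.2, by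
    have := p.2; simp only [Set.mem_Icc]; omega⟩)
  refine Finite.of_injective f ?_
  intro p q hpq
  simp only [f, Prod.mk.injEq, Subtype.mk.injEq] at hpq
  exact Subtype.ext (Prod.ext hpq.1 hpq.2)

/-- Existence of a string basis. -/
theorem exists_string_basis [FiniteDimensional K V] (h : IsTridiagonalPair A As d δ θ θs) :
    ∃ (J : Type) (_ : Fintype J) (r : J → ℕ) (e : J → ℤ → V) (b : Module.Basis (Idx d r) K V),
      (∀ j, 2 * r j ≤ d) ∧
      (∀ j i, ¬ ((r j : ℤ) ≤ i ∧ i ≤ d - r j) → e j i = 0) ∧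
      (∀ p : Idx d r, b p = e p.1.1 p.1.2) ∧
      (∀ j i, e j i ∈ splitSp A As d δ θ θs i) ∧
      (∀ j i, (r j : ℤ) ≤ i → i ≤ d - r j → A (e j i) = θ i • e j i + e j (i + 1)) := by
  classical
  obtain ⟨J, hJ, r, w, hr, hw, hspan, hind⟩ := exists_Kbasis A As d δ θ θs
  have : Fintype (Idx d r) := Fintype.ofFinite _
  set e : J → ℤ → V := fun j i => strVec A d θ (r j) (w j) i with he
  have hli : LinearIndependent K (fun p : Idx d r => e p.1.1 p.1.2) := by
    rw [Fintype.linearIndependent_iff]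
    intro g hg
    -- extend g
    set G : J → ℤ → K := fun j i =>
      if hp : (r j : ℤ) ≤ i ∧ i ≤ d - r j then g ⟨(j, i), hp⟩ else 0 with hG
    have hsum : ∑ p : Idx d r, g p • e p.1.1 p.1.2 =
        ∑ i ∈ Finset.Icc (0 : ℤ) d, ∑ j, G j i • e j i := by
      rw [Finset.sum_comm, ← Finset.sum_product']
      refine Finset.sum_bij_ne_zero (fun p _ _ => (p.1.1, p.1.2)) ?_ ?_ ?_ ?_
      · intro p _ _
        simp only [Finset.mem_product, Finset.mem_univ, Finset.mem_Icc, true_and]
        have := p.2; omega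
      · intro p _ _ q _ _ hpq
        exact Subtype.ext hpq
      · rintro ⟨j, i⟩ hji hne
        have hp : (r j : ℤ) ≤ i ∧ i ≤ d - r j := by
          by_contra hp
          apply hne
          simp only [hG, dif_neg hp, zero_smul]
        refine ⟨⟨(j, i), hp⟩, Finset.mem_univ _, ?_, rfl⟩
        simpa only [hG, dif_pos hp] using hne
      · intro p _ _
        have hp := p.2
        simp only [hG, dif_pos hp]
    have hlev : ∀ i ∈ Finset.Icc (0 : ℤ) d, ∑ j, G j i • e j i = 0 := by
      refine (iSupIndep_iff_finsetSum_eq_zero_imp_eq_zero _).mp (iSupIndep_Usp h) _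
        (fun i => ∑ j, G j i • e j i) ?_ ?_
      · intro i _
        exact Submodule.sum_mem _ fun j _ => Submodule.smul_mem _ _ (strVec_mem_Usp h (hw j) _)
      · rw [← hsum, hg]
    intro p
    have h1 := hlev p.1.2 (by have := p.2; rw [Finset.mem_Icc]; omega)
    have h2 := level_ind h hr hw hind p.1.2 (fun j => G j p.1.2) h1 p.1.1 p.2.1 p.2.2
    simpa only [hG, dif_pos p.2] using h2
  have hsp : ⊤ ≤ Submodule.span K (Set.range (fun p : Idx d r => e p.1.1 p.1.2)) := by
    rw [← iSup_Usp h]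
    refine iSup_le fun i => (Usp_le_span h hr hw hspan i).trans (Submodule.span_mono ?_)
    rintro x ⟨j, hj1, hj2, rfl⟩
    exact ⟨⟨(j, i), hj1, hj2⟩, rfl⟩
  refine ⟨J, hJ, r, e, Module.Basis.mk hli hsp, hr, ?_, ?_, ?_, ?_⟩
  · intro j i hi; exact strVec_of_not_mem hi
  · intro p; rw [Module.Basis.mk_apply]
  · intro j i; exact strVec_mem_Usp h (hw j) i
  · intro j i hi1 hi2
    have := strVec_A (θ := θ) (hw j) ⟨hi1, hi2⟩
    rw [sub_eq_iff_eq_add] at this
    rw [show A (e j i) = A (strVec A d θ (r j) (w j) i) from rfl, this, add_comm]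

end Pool.Agent.Lib.MP_b7840d_al
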