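import Mathlib
import Pool.Agent.Lib.MP_b7840d_al.Strings
import Pool.Agent.Lib.MP_b7840d_al.Block2

set_option autoImplicit false
set_option linter.unusedSectionVars false

namespace Pool.Agent.Lib.MP_b7840d_al

variable {K V : Type*} [Field K] [AddCommGroup V] [Module K V]

/-- The data of a string basis. -/
structure StrBasis (A : Module.End K V) (d : ℕ) (θ : ℤ → K) {J : Type} [Fintype J] (r : J → ℕ)
    (e : J → ℤ → V) (b : Module.Basis (Idx d r) K V) : Prop where
  inj : Set.InjOn θ (Set.Icc 0 (d : ℤ))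
  hr : ∀ j, 2 * r j ≤ d
  he0 : ∀ j i, ¬ ((r j : ℤ) ≤ i ∧ i ≤ d - r j) → e j i = 0
  hb : ∀ p : Idx d r, b p = e p.1.1 p.1.2
  heA : ∀ j i, (r j : ℤ) ≤ i → i ≤ d - r j → A (e j i) = θ i • e j i + e j (i + 1)

variable {A : Module.End K V} {d : ℕ} {θ : ℤ → K} {J : Type} [Fintype J] {r : J → ℕ}
  {e : J → ℤ → V} {b : Module.Basis (Idx d r) K V}

lemma sum_Idx {M : Type*} [AddCommMonoid M] [Fintype (Idx d r)] (f : J → ℤ → M)
    (hf : ∀ j i, ¬ ((r j : ℤ) ≤ i ∧ i ≤ d - r j) → f j i = 0) :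
    ∑ p : Idx d r, f p.1.1 p.1.2 = ∑ j, ∑ i ∈ Finset.Icc (0 : ℤ) d, f j i := by
  rw [← Finset.sum_product']
  refine Finset.sum_bij_ne_zero (fun p _ _ => (p.1.1, p.1.2)) ?_ ?_ ?_ ?_
  · intro p _ _
    simp only [Finset.mem_product, Finset.mem_univ, Finset.mem_Icc, true_and]
    have := p.2; omega
  · intro p _ _ q _ _ hpq
    exact Subtype.ext hpq
  · rintro ⟨j, i⟩ hji hne
    have hp : (r j : ℤ) ≤ i ∧ i ≤ d - r j := by
      by_contra hp
      exact hne (hf j i hp)
    exact ⟨⟨(j, i), hp⟩, Finset.mem_univ _, hne, rfl⟩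
  · intro p _ _
    rfl

/-- coordinate functionals -/
noncomputable def co (b : Module.Basis (Idx d r) K V) (j : J) (i : ℤ) : V →ₗ[K] K :=
  open scoped Classical in
  if hp : (r j : ℤ) ≤ i ∧ i ≤ d - r j then b.coord ⟨(j, i), hp⟩ else 0

lemma co_of_mem {j : J} {i : ℤ} (hp : (r j : ℤ) ≤ i ∧ i ≤ d - r j) (v : V) :
    co b j i v = b.repr v ⟨(j, i), hp⟩ := by
  unfold co; rw [dif_pos hp]; rfl

lemma co_of_not_mem {j : J} {i : ℤ} (hp : ¬ ((r j : ℤ) ≤ i ∧ i ≤ d - r j)) (v : V) :
    co b j i v = 0 := by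
  unfold co; rw [dif_neg hp]; rfl

open scoped Classical in
lemma co_e (S : StrBasis A d θ r e b) (j k : J) (i l : ℤ) :
    co b j i (e k l) = if (j = k ∧ i = l ∧ (r j : ℤ) ≤ i ∧ i ≤ d - r j) then 1 else 0 := by
  by_cases hk : (r k : ℤ) ≤ l ∧ l ≤ d - r k
  · have h1 : e k l = b ⟨(k, l), hk⟩ := (S.hb ⟨(k, l), hk⟩).symm
    by_cases hj : (r j : ℤ) ≤ i ∧ i ≤ d - r j
    · rw [co_of_mem hj, h1, b.repr_self, Finsupp.single_apply]
      congr 1
      simp only [Subtype.mk.injEq, Prod.mk.injEq, eq_iff_iff]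
      constructor
      · rintro ⟨rfl, rfl⟩; exact ⟨rfl, rfl, hj⟩
      · rintro ⟨rfl, rfl, _⟩; exact ⟨rfl, rfl⟩
    · rw [co_of_not_mem hj, if_neg (fun h => hj ⟨h.2.2.1, h.2.2.2⟩)]
  · rw [S.he0 k l hk, map_zero]
    rw [if_neg]
    rintro ⟨rfl, rfl, h⟩
    exact hk h

lemma co_e_self (S : StrBasis A d θ r e b) {j : J} {i : ℤ} (h : (r j : ℤ) ≤ i ∧ i ≤ d - r j) :
    co b j i (e j i) = 1 := by
  rw [co_e S, if_pos ⟨rfl, rfl, h⟩]

lemma co_e_ne (S : StrBasis A d θ r e b) {j k : J} {i l : ℤ} (h : ¬ (j = k ∧ i = l)) :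
    co b j i (e k l) = 0 := by
  rw [co_e S, if_neg (fun h' => h ⟨h'.1, h'.2.1⟩)]

lemma recon (S : StrBasis A d θ r e b) (v : V) :
    v = ∑ j, ∑ i ∈ Finset.Icc (0 : ℤ) d, co b j i v • e j i := by
  classical
  have : Fintype (Idx d r) := Fintype.ofFinite _
  rw [← sum_Idx (r := r) (d := d) (fun j i => co b j i v • e j i)
    (fun j i h => by rw [S.he0 j i h, smul_zero])]
  conv_lhs => rw [← b.sum_repr v]
  refine Finset.sum_congr rfl fun p _ => ?_
  rw [S.hb p, co_of_mem p.2]

/-- nodes starting at `a` -/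
def nd (θ : ℤ → K) (a : ℤ) : ℕ → K := fun l => θ (a + l)

/-- nodes going down from `a` -/
def ndr (θ : ℤ → K) (a : ℤ) : ℕ → K := fun l => θ (a - l)

/-- the functional of evaluation at the node `m` on the string `j` -/
noncomputable def phi (b : Module.Basis (Idx d r) K V) (θ : ℤ → K) (j : J) (m : ℤ) :
    V →ₗ[K] K :=
  ∑ i ∈ Finset.Icc (0 : ℤ) d, Npol (nd θ (r j)) (i - r j).toNat (θ m) • co b j i

lemma phi_apply (j : J) (m : ℤ) (v : V) : phi b θ j m v =
    ∑ i ∈ Finset.Icc (0 : ℤ) d, Npol (nd θ (r j)) (i - r j).toNat (θ m) * co b j i v := by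
  simp [phi]

lemma phi_e (S : StrBasis A d θ r e b) (j : J) (m : ℤ) {i : ℤ}
    (hi : (r j : ℤ) ≤ i ∧ i ≤ d - r j) :
    phi b θ j m (e j i) = Npol (nd θ (r j)) (i - r j).toNat (θ m) := by
  rw [phi_apply, Finset.sum_eq_single i]
  · rw [co_e_self S hi, mul_one]
  · intro l _ hl
    rw [co_e_ne S (fun h => hl h.2), mul_zero]
  · intro h
    exfalso; apply h; rw [Finset.mem_Icc]; omega

lemma phi_e_ne (S : StrBasis A d θ r e b) {j k : J} (hjk : j ≠ k) (m i : ℤ) :
    phi b θ j m (e k i) = 0 := by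
  rw [phi_apply]
  refine Finset.sum_eq_zero fun l _ => ?_
  rw [co_e_ne S (fun h => hjk h.1), mul_zero]

lemma nodes_inj (S : StrBasis A d θ r e b) (j : J) :
    ∀ a ≤ d - 2 * r j, ∀ c ≤ d - 2 * r j, nd θ (r j) a = nd θ (r j) c → a = c := by
  intro a ha c hc h
  have := S.hr j
  have := S.inj (by simp only [Set.mem_Icc]; omega) (by simp only [Set.mem_Icc]; omega) h
  omega

/-- `phi j m` is a left eigenvector of `A`. -/
lemma phi_A (S : StrBasis A d θ r e b) {j : J} {m : ℤ} (hm : (r j : ℤ) ≤ m ∧ m ≤ d - r j)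
    (v : V) : phi b θ j m (A v) = θ m * phi b θ j m v := by
  have key : ∀ k i, phi b θ j m (A (e k i)) = θ m * phi b θ j m (e k i) := by
    intro k i
    by_cases hi : (r k : ℤ) ≤ i ∧ i ≤ d - r k
    · rw [S.heA k i hi.1 hi.2]
      by_cases hjk : j = k
      · subst hjk
        rw [map_add, map_smul, phi_e S j m hi]
        by_cases hi' : i + 1 ≤ d - r j
        · rw [phi_e S j m ⟨by omega, hi'⟩]
          rw [show (i + 1 - (r j : ℤ)).toNat = (i - r j).toNat + 1 by omega, Npol_succ]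
          have : nd θ (r j) (i - r j).toNat = θ i := by
            unfold nd; congr 1; omega
          rw [this, smul_eq_mul]; ring
        · rw [S.he0 j (i + 1) (by omega), map_zero, add_zero, smul_eq_mul]
          have hid : i = d - r j := by omega
          have h0 : (θ m - θ i) * Npol (nd θ (r j)) (i - r j).toNat (θ m) = 0 := by
            by_cases hmi : m = i
            · rw [hmi, sub_self, zero_mul]
            · have : Npol (nd θ (r j)) (i - r j).toNat (θ m) = 0 := by
                have h1 := Npol_eq_zero (nd θ (r j)) (i := (i - r j).toNat)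
                  (m := (m - r j).toNat) (by omega)
                have h2 : nd θ (r j) (m - r j).toNat = θ m := by
                  unfold nd; congr 1; omega
                rwa [h2] at h1
              rw [this, mul_zero]
          linear_combination -h0
      · rw [map_add, map_smul, phi_e_ne S hjk, phi_e_ne S hjk]; simp
    · rw [S.he0 k i hi]; simp
  have h1 : A v = ∑ j, ∑ i ∈ Finset.Icc (0 : ℤ) d, co b j i v • A (e j i) := by
    conv_lhs => rw [recon S v]
    simp only [map_sum, map_smul]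
  have h2 : phi b θ j m v = ∑ k, ∑ i ∈ Finset.Icc (0 : ℤ) d,
      co b k i v * phi b θ j m (e k i) := by
    conv_lhs => rw [recon S v]
    simp only [map_sum, map_smul, smul_eq_mul]
  rw [h1, h2]
  simp only [map_sum, map_smul, smul_eq_mul, key, Finset.mul_sum]
  refine Finset.sum_congr rfl fun k _ => Finset.sum_congr rfl fun i _ => ?_
  ring

/-- joint injectivity of the `phi j m` -/
lemma phi_inj (S : StrBasis A d θ r e b) {w : V}
    (h : ∀ j m, (r j : ℤ) ≤ m → m ≤ d - r j → phi b θ j m w = 0) : w = 0 := by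
  have hco : ∀ j, ∀ n : ℕ, n ≤ d - 2 * r j → co b j (r j + n) w = 0 := by
    intro j n
    induction n using Nat.strong_induction_on with
    | _ n ih =>
      intro hn
      have hrj := S.hr j
      have h1 := h j (r j + n) (by omega) (by omega)
      rw [phi_apply, Finset.sum_eq_single ((r j : ℤ) + n)] at h1
      · rcases mul_eq_zero.mp h1 with h2 | h2
        · exfalso
          have h3 := Npol_ne_zero (nodes_inj S j) (i := n) (m := n) le_rfl hn
          have h4 : nd θ (r j) n = θ (r j + n) := rfl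
          rw [h4] at h3
          rw [show ((r j : ℤ) + n - r j).toNat = n by omega] at h2
          exact h3 h2
        · exact h2
      · intro i hi hne
        rw [Finset.mem_Icc] at hi
        by_cases hir : (r j : ℤ) ≤ i ∧ i ≤ d - r j
        · rcases lt_or_gt_of_ne hne with h2 | h2
          · have h3 := ih (i - r j).toNat (by omega) (by omega)
            rw [show (r j : ℤ) + ((i - r j).toNat : ℤ) = i by omega] at h3
            rw [h3, mul_zero]
          · have h3 := Npol_eq_zero (nd θ (r j)) (i := (i - r j).toNat) (m := n) (by omega)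
            have h4 : nd θ (r j) n = θ (r j + n) := rfl
            rw [h4] at h3
            rw [h3, zero_mul]
        · rw [co_of_not_mem hir, mul_zero]
      · intro h2
        exfalso; apply h2; rw [Finset.mem_Icc]; omega
  rw [recon S w]
  refine Finset.sum_eq_zero fun j _ => Finset.sum_eq_zero fun i _ => ?_
  by_cases hir : (r j : ℤ) ≤ i ∧ i ≤ d - r j
  · have := hco j (i - r j).toNat (by omega)
    rw [show (r j : ℤ) + ((i - r j).toNat : ℤ) = i by omega] at this
    rw [this, zero_smul]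
  · rw [co_of_not_mem hir, zero_smul]

/-- eigenvectors of `A` inside a string -/
noncomputable def ev (d : ℕ) (r : J → ℕ) (e : J → ℤ → V) (θ : ℤ → K) (j : J) (m : ℤ) : V :=
  ∑ i ∈ Finset.Icc (0 : ℤ) d, Npol (ndr θ (d - r j)) (d - r j - i).toNat (θ m) • e j i

lemma co_ev (S : StrBasis A d θ r e b) (j : J) (m : ℤ) {i : ℤ}
    (hi : (r j : ℤ) ≤ i ∧ i ≤ d - r j) :
    co b j i (ev d r e θ j m) = Npol (ndr θ (d - r j)) (d - r j - i).toNat (θ m) := by
  unfold ev
  rw [map_sum, Finset.sum_eq_single i]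
  · rw [map_smul, co_e_self S hi, smul_eq_mul, mul_one]
  · intro l _ hl
    rw [map_smul, co_e_ne S (fun h => hl h.2.symm), smul_zero]
  · intro h
    exfalso; apply h; rw [Finset.mem_Icc]; omega

lemma co_ev_ne (S : StrBasis A d θ r e b) {j k : J} (hjk : j ≠ k) (m i : ℤ) :
    co b j i (ev d r e θ k m) = 0 := by
  unfold ev
  rw [map_sum]
  refine Finset.sum_eq_zero fun l _ => ?_
  rw [map_smul, co_e_ne S (fun h => hjk h.1), smul_zero]

lemma A_ev (S : StrBasis A d θ r e b) {j : J} {m : ℤ} (hm : (r j : ℤ) ≤ m ∧ m ≤ d - r j) :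
    A (ev d r e θ j m) = θ m • ev d r e θ j m := by
  have hrj := S.hr j
  set N : ℤ → K := fun i => Npol (ndr θ (d - r j)) (d - r j - i).toNat (θ m) with hN
  have hstep : ∀ i : ℤ, i ≤ d - r j → N (i - 1) = N i * (θ m - θ i) := by
    intro i hi
    simp only [hN]
    rw [show (d - r j - (i - 1) : ℤ).toNat = (d - r j - i : ℤ).toNat + 1 by omega, Npol_succ]
    congr 2
    unfold ndr
    congr 1
    omega
  have hbot : N (r j - 1) = 0 := by
    simp only [hN]
    have h1 := Npol_eq_zero (ndr θ (d - r j)) (i := (d - r j - (r j - 1) : ℤ).toNat)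
      (m := (d - r j - m : ℤ).toNat) (by omega)
    have h2 : ndr θ (d - r j) (d - r j - m : ℤ).toNat = θ m := by
      unfold ndr; congr 1; omega
    rwa [h2] at h1
  have h1 : A (ev d r e θ j m) = ∑ i ∈ Finset.Icc (0 : ℤ) d, N i • A (e j i) := by
    unfold ev; simp only [map_sum, map_smul, hN]
  have h2 : ∑ i ∈ Finset.Icc (0 : ℤ) d, N i • A (e j i) =
      ∑ i ∈ Finset.Icc (0 : ℤ) d, ((N i * θ i) • e j i + N i • e j (i + 1)) := by
    refine Finset.sum_congr rfl fun i _ => ?_
    by_cases hi : (r j : ℤ) ≤ i ∧ i ≤ d - r j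
    · rw [S.heA j i hi.1 hi.2, smul_add, smul_smul]
    · rw [S.he0 j i hi]
      by_cases hi' : (r j : ℤ) ≤ i + 1 ∧ i + 1 ≤ d - r j
      · have : i = r j - 1 := by omega
        rw [this, hbot]; simp
      · rw [S.he0 j (i + 1) hi']; simp
  have h3 : ∑ i ∈ Finset.Icc (0 : ℤ) d, N i • e j (i + 1) =
      ∑ i ∈ Finset.Icc (0 : ℤ) d, N (i - 1) • e j i := by
    have e1 : ∑ i ∈ Finset.Icc (0 : ℤ) d, N i • e j (i + 1) =
        ∑ i ∈ Finset.Icc (1 : ℤ) (d + 1), N (i - 1) • e j i := by
      refine Finset.sum_bij (fun i _ => i + 1) ?_ ?_ ?_ ?_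
      · intro i hi; rw [Finset.mem_Icc] at *; omega
      · intro i _ l _ h; omega
      · intro i hi
        rw [Finset.mem_Icc] at hi
        exact ⟨i - 1, by rw [Finset.mem_Icc]; omega, by ring⟩
      · intro i _; rw [add_sub_cancel_right]
    rw [e1]
    have e2 : ∑ i ∈ Finset.Icc (1 : ℤ) (d + 1), N (i - 1) • e j i =
        ∑ i ∈ Finset.Icc (0 : ℤ) (d + 1), N (i - 1) • e j i := by
      refine Finset.sum_subset (by intro i; simp only [Finset.mem_Icc]; omega) ?_
      intro i hi hi'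
      rw [Finset.mem_Icc] at hi hi'
      obtain rfl : i = 0 := by omega
      by_cases h : (r j : ℤ) ≤ 0 ∧ (0 : ℤ) ≤ d - r j
      · have : (r j : ℤ) = 0 := by omega
        rw [this] at hbot
        rw [hbot, zero_smul]
      · rw [S.he0 j 0 h, smul_zero]
    have e3 : ∑ i ∈ Finset.Icc (0 : ℤ) d, N (i - 1) • e j i =
        ∑ i ∈ Finset.Icc (0 : ℤ) (d + 1), N (i - 1) • e j i := by
      refine Finset.sum_subset (by intro i; simp only [Finset.mem_Icc]; omega) ?_
      intro i hi hi'
      rw [Finset.mem_Icc] at hi hi'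
      rw [S.he0 j i (by omega), smul_zero]
    rw [e2, e3]
  rw [h1, h2, Finset.sum_add_distrib, h3, ← Finset.sum_add_distrib]
  unfold ev
  rw [Finset.smul_sum]
  refine Finset.sum_congr rfl fun i _ => ?_
  by_cases hi : (r j : ℤ) ≤ i ∧ i ≤ d - r j
  · rw [hstep i hi.2, ← add_smul, smul_smul]
    congr 1
    simp only [hN]
    ring
  · rw [S.he0 j i hi]; simp

lemma phi_ev_ne (S : StrBasis A d θ r e b) {j k : J} {m l : ℤ}
    (hm : (r j : ℤ) ≤ m ∧ m ≤ d - r j) (hl : (r k : ℤ) ≤ l ∧ l ≤ d - r k)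
    (hne : ¬ (j = k ∧ m = l)) : phi b θ j m (ev d r e θ k l) = 0 := by
  by_cases hjk : j = k
  · subst hjk
    have h1 := phi_A S hm (ev d r e θ j l)
    rw [A_ev S hl, map_smul, smul_eq_mul] at h1
    have h2 : θ m ≠ θ l := by
      intro he
      have := S.inj (by simp only [Set.mem_Icc]; omega) (by simp only [Set.mem_Icc]; omega) he
      exact hne ⟨rfl, this⟩
    have h3 : (θ m - θ l) * phi b θ j m (ev d r e θ j l) = 0 := by linear_combination -h1
    rcases mul_eq_zero.mp h3 with h4 | h4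
    · exact absurd (sub_eq_zero.mp h4) h2
    · exact h4
  · unfold ev
    rw [map_sum]
    refine Finset.sum_eq_zero fun i _ => ?_
    rw [map_smul, phi_e_ne S hjk, smul_zero]

lemma phi_ev_self (S : StrBasis A d θ r e b) {j : J} {m : ℤ}
    (hm : (r j : ℤ) ≤ m ∧ m ≤ d - r j) : phi b θ j m (ev d r e θ j m) ≠ 0 := by
  have hrj := S.hr j
  rw [phi_apply, Finset.sum_eq_single m]
  · rw [co_ev S j m hm]
    refine mul_ne_zero ?_ ?_
    · have h3 := Npol_ne_zero (nodes_inj S j) (i := (m - r j).toNat) (m := (m - r j).toNat)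
        le_rfl (by omega)
      have h4 : nd θ (r j) (m - r j).toNat = θ m := by unfold nd; congr 1; omega
      rwa [h4] at h3
    · have hinj' : ∀ a ≤ d - 2 * r j, ∀ c ≤ d - 2 * r j,
          ndr θ (d - r j) a = ndr θ (d - r j) c → a = c := by
        intro a ha c hc h
        have := S.inj (by simp only [Set.mem_Icc]; omega) (by simp only [Set.mem_Icc]; omega) h
        omega
      have h3 := Npol_ne_zero hinj' (i := (d - r j - m : ℤ).toNat)
        (m := (d - r j - m : ℤ).toNat) le_rfl (by omega)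
      have h4 : ndr θ (d - r j) (d - r j - m : ℤ).toNat = θ m := by
        unfold ndr; congr 1; omega
      rwa [h4] at h3
  · intro i hi hne
    by_cases hir : (r j : ℤ) ≤ i ∧ i ≤ d - r j
    · rcases lt_or_gt_of_ne hne with h2 | h2
      · rw [co_ev S j m hir]
        have h3 := Npol_eq_zero (ndr θ (d - r j)) (i := (d - r j - i : ℤ).toNat)
          (m := (d - r j - m : ℤ).toNat) (by omega)
        have h4 : ndr θ (d - r j) (d - r j - m : ℤ).toNat = θ m := by
          unfold ndr; congr 1; omega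
        rw [h4] at h3
        rw [h3, mul_zero]
      · have h3 := Npol_eq_zero (nd θ (r j)) (i := (i - r j).toNat) (m := (m - r j).toNat)
          (by omega)
        have h4 : nd θ (r j) (m - r j).toNat = θ m := by unfold nd; congr 1; omega
        rw [h4] at h3
        rw [h3, zero_mul]
    · rw [co_of_not_mem hir, mul_zero]
  · intro h
    exfalso; apply h; rw [Finset.mem_Icc]; omega

/-- Expansion in the eigenvectors `ev`. -/
lemma expand (S : StrBasis A d θ r e b) (w : V) :
    w = ∑ j, ∑ m ∈ Finset.Icc (r j : ℤ) (d - r j),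
      (phi b θ j m w / phi b θ j m (ev d r e θ j m)) • ev d r e θ j m := by
  rw [← sub_eq_zero]
  refine phi_inj S fun k l hl1 hl2 => ?_
  rw [map_sub, map_sum, Finset.sum_eq_single k]
  · rw [map_sum, Finset.sum_eq_single l]
    · rw [map_smul, smul_eq_mul, div_mul_cancel₀ _ (phi_ev_self S ⟨hl1, hl2⟩), sub_self]
    · intro m hm hne
      rw [Finset.mem_Icc] at hm
      rw [map_smul, phi_ev_ne S ⟨hl1, hl2⟩ hm (fun h => hne h.2.symm), smul_zero]
    · intro h
      exfalso; apply h; rw [Finset.mem_Icc]; exact ⟨hl1, hl2⟩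
  · intro j _ hne
    rw [map_sum]
    refine Finset.sum_eq_zero fun m hm => ?_
    rw [Finset.mem_Icc] at hm
    rw [map_smul, phi_ev_ne S ⟨hl1, hl2⟩ hm (fun h => hne h.1.symm), smul_zero]
  · intro h; exact absurd (Finset.mem_univ k) h

end Pool.Agent.Lib.MP_b7840d_al
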