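import Mathlib
import Pool.Agent.Lib.MP_b7840d_al.Frame

set_option autoImplicit false
set_option linter.unusedSectionVars false

namespace Pool.Agent.Lib.MP_b7840d_al

variable {K V : Type*} [Field K] [AddCommGroup V] [Module K V]
variable {A : Module.End K V} {d : ℕ} {θ : ℤ → K} {J : Type} [Fintype J] {r : J → ℕ}
  {e : J → ℤ → V} {b : Module.Basis (Idx d r) K V}

/-- diagonal coefficients of a map -/
noncomputable def xc (b : Module.Basis (Idx d r) K V) (e : J → ℤ → V) (X : Module.End K V)
    (j k : J) (i : ℤ) : K := co b k i (X (e j i))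

/-- subdiagonal coefficients of a map -/
noncomputable def yc (b : Module.Basis (Idx d r) K V) (e : J → ℤ → V) (X : Module.End K V)
    (j k : J) (i : ℤ) : K := co b k (i - 1) (X (e j i))

/-- the tridiagonality condition for one pair of strings -/
def TT (b : Module.Basis (Idx d r) K V) (e : J → ℤ → V) (θ : ℤ → K) (X : Module.End K V)
    (j k : J) : Prop :=
  ∀ m l : ℤ, (r j : ℤ) ≤ m → m ≤ d - r j → (r k : ℤ) ≤ l → l ≤ d - r k →
    (l < m - 1 ∨ m + 1 < l) → phi b θ k l (X (ev d r e θ j m)) = 0

lemma sum_Icc_range {M : Type*} [AddCommMonoid M] {a n : ℕ} (h : 2 * a ≤ n) (f : ℤ → M) :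
    ∑ m ∈ Finset.Icc (a : ℤ) (n - a), f m = ∑ l ∈ Finset.range (n - 2 * a + 1), f (a + l) := by
  refine Finset.sum_bij' (fun m _ => (m - a).toNat) (fun l _ => (a : ℤ) + l) ?_ ?_ ?_ ?_ ?_
  · intro m hm; rw [Finset.mem_Icc] at hm; rw [Finset.mem_range]; omega
  · intro l hl; rw [Finset.mem_range] at hl; rw [Finset.mem_Icc]; omega
  · intro m hm; rw [Finset.mem_Icc] at hm; omega
  · intro l _; omega
  · intro m hm; rw [Finset.mem_Icc] at hm; congr 1; omega

lemma sum_Icc_range_rev {M : Type*} [AddCommMonoid M] {a n : ℕ} (h : 2 * a ≤ n) (f : ℤ → M) :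
    ∑ m ∈ Finset.Icc (a : ℤ) (n - a), f m =
      ∑ l ∈ Finset.range (n - 2 * a + 1), f (n - a - l) := by
  refine Finset.sum_bij' (fun m _ => (n - a - m : ℤ).toNat) (fun l _ => (n : ℤ) - a - l)
    ?_ ?_ ?_ ?_ ?_
  · intro m hm; rw [Finset.mem_Icc] at hm; rw [Finset.mem_range]; omega
  · intro l hl; rw [Finset.mem_range] at hl; rw [Finset.mem_Icc]; omega
  · intro m hm; rw [Finset.mem_Icc] at hm; omega
  · intro l _; omega
  · intro m hm; rw [Finset.mem_Icc] at hm; congr 1; omega

lemma Npol_add (η : ℕ → K) (κ i : ℕ) (t : K) :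
    Npol η (κ + i) t = Npol η κ t * Npol (fun l => η (κ + l)) i t := by
  unfold Npol; rw [Finset.prod_range_add]

section

variable (S : StrBasis A d θ r e b) {X : Module.End K V}
  (hX : ∀ j k i l, l ≠ i → l ≠ i - 1 → co b k l (X (e j i)) = 0)
include S hX

lemma phi_X (j k : J) (l : ℤ) {i : ℤ} (hi : 0 ≤ i ∧ i ≤ d) :
    phi b θ k l (X (e j i)) =
      xc b e X j k i * Npol (nd θ (r k)) (i - r k).toNat (θ l) +
      yc b e X j k i * Npol (nd θ (r k)) (i - 1 - r k).toNat (θ l) := by
  rw [phi_apply]
  by_cases h0 : i = 0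
  · subst h0
    have h1 : yc b e X j k 0 = 0 := by
      unfold yc; rw [co_of_not_mem (by omega)]
    rw [h1, zero_mul, add_zero, Finset.sum_eq_single 0]
    · unfold xc; ring
    · intro l' hl' hne
      rw [Finset.mem_Icc] at hl'
      rw [hX j k 0 l' hne (by omega), mul_zero]
    · intro h; exfalso; apply h; rw [Finset.mem_Icc]; omega
  · have h1 : ({i, i - 1} : Finset ℤ) ⊆ Finset.Icc (0 : ℤ) d := by
      intro l' hl'
      simp only [Finset.mem_insert, Finset.mem_singleton] at hl'
      rw [Finset.mem_Icc]; omega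
    rw [← Finset.sum_subset h1]
    · rw [Finset.sum_pair (by omega)]
      unfold xc yc; ring
    · intro l' _ hl'
      simp only [Finset.mem_insert, Finset.mem_singleton, not_or] at hl'
      rw [hX j k i l' hl'.1 hl'.2, mul_zero]

lemma xc_zero {j k : J} {i : ℤ} (h : ¬ ((r j : ℤ) ≤ i ∧ i ≤ d - r j) ∨
    ¬ ((r k : ℤ) ≤ i ∧ i ≤ d - r k)) : xc b e X j k i = 0 := by
  unfold xc
  rcases h with h | h
  · rw [S.he0 j i h]; simp
  · rw [co_of_not_mem h]

lemma yc_zero {j k : J} {i : ℤ} (h : ¬ ((r j : ℤ) ≤ i ∧ i ≤ d - r j) ∨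
    ¬ ((r k : ℤ) ≤ i - 1 ∧ i - 1 ≤ d - r k)) : yc b e X j k i = 0 := by
  unfold yc
  rcases h with h | h
  · rw [S.he0 j i h]; simp
  · rw [co_of_not_mem h]

/-- The functional form of the block condition. -/
lemma TT_iff_low {j k : J} (hjk : r j ≤ r k) :
    TT b e θ X j k ↔ TriCond (nd θ (r j)) (d - 2 * r j) (r k - r j)
      (fun i => xc b e X j k (r j + i)) (fun i => yc b e X j k (r j + i)) := by
  have hrj := S.hr j
  have hrk := S.hr k
  set n := d - 2 * r j with hn
  set κ := r k - r j with hκ
  -- the left-hand side in terms of phi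
  have hL : ∀ mm : ℕ, κ ≤ mm → mm + κ ≤ n → ∀ i ≤ n,
      xc b e X j k (r j + i) * Npol (nd θ (r j)) i (nd θ (r j) mm) +
      yc b e X j k (r j + i) * Npol (nd θ (r j)) (i - 1) (nd θ (r j) mm) =
      Npol (nd θ (r j)) κ (nd θ (r j) mm) * phi b θ k (r j + mm) (X (e j (r j + i))) := by
    intro mm h1 h2 i hi
    rw [phi_X S hX j k (r j + mm) (by omega)]
    have hθ : θ (r j + mm) = nd θ (r j) mm := rfl
    rw [hθ]
    have hsh : (fun l => nd θ (r j) (κ + l)) = nd θ (r k) := by
      funext l; unfold nd; congr 1; omega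
    have hx : xc b e X j k (r j + i) * Npol (nd θ (r j)) i (nd θ (r j) mm) =
        Npol (nd θ (r j)) κ (nd θ (r j) mm) * (xc b e X j k (r j + i) *
          Npol (nd θ (r k)) ((r j : ℤ) + i - r k).toNat (nd θ (r j) mm)) := by
      by_cases hiκ : κ ≤ i
      · obtain ⟨i', rfl⟩ := Nat.exists_eq_add_of_le hiκ
        rw [Npol_add, hsh, show ((r j : ℤ) + ((κ + i' : ℕ) : ℤ) - r k).toNat = i' by omega]
        ring
      · rw [xc_zero S hX (Or.inr (by omega))]; ring
    have hy : yc b e X j k (r j + i) * Npol (nd θ (r j)) (i - 1) (nd θ (r j) mm) =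
        Npol (nd θ (r j)) κ (nd θ (r j) mm) * (yc b e X j k (r j + i) *
          Npol (nd θ (r k)) ((r j : ℤ) + i - 1 - r k).toNat (nd θ (r j) mm)) := by
      by_cases hiκ : κ + 1 ≤ i
      · obtain ⟨i', hi'⟩ := Nat.exists_eq_add_of_le (show κ ≤ i - 1 by omega)
        rw [hi', Npol_add, hsh, show ((r j : ℤ) + (i : ℤ) - 1 - r k).toNat = i' by omega]
        ring
      · rw [yc_zero S hX (Or.inr (by omega))]; ring
    rw [mul_add, ← hx, ← hy]
  have hCne : ∀ mm : ℕ, κ ≤ mm → mm + κ ≤ n → Npol (nd θ (r j)) κ (nd θ (r j) mm) ≠ 0 :=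
    fun mm h1 h2 => Npol_ne_zero (nodes_inj S j) h1 (by omega)
  constructor
  · intro h mm h1 h2
    set l : ℤ := r j + mm with hl
    set C := Npol (nd θ (r j)) κ (nd θ (r j) mm) with hC
    refine ⟨fun a => if a ≤ n then C * (phi b θ k l (X (ev d r e θ j (r j + a))) /
      phi b θ j (r j + a) (ev d r e θ j (r j + a))) else 0, ?_, ?_⟩
    · intro a ha
      by_cases han : a ≤ n
      · refine ⟨han, ?_⟩
        by_contra hcon
        apply ha
        simp only
        rw [if_pos han, h (r j + a) l (by omega) (by omega) (by omega) (by omega) (by omega)]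
        simp
      · simp [han] at ha
    · intro i hi
      simp only
      rw [hL mm h1 h2 i hi]
      conv_lhs => rw [expand S (e j (r j + i))]
      simp only [map_sum, map_smul, smul_eq_mul]
      rw [Finset.sum_eq_single j]
      · rw [sum_Icc_range hrj, Finset.mul_sum]
        refine Finset.sum_congr rfl fun a ha => ?_
        rw [Finset.mem_range] at ha
        rw [if_pos (by omega), phi_e S j _ (by omega)]
        rw [show ((r j : ℤ) + i - r j).toNat = i by omega]
        have hθ : θ (r j + a) = nd θ (r j) a := rfl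
        rw [hθ]
        ring
      · intro k' _ hk'
        refine Finset.sum_eq_zero fun m _ => ?_
        rw [phi_e_ne S hk']; simp
      · intro hh; exact absurd (Finset.mem_univ j) hh
  · intro h m l hm1 hm2 hl1 hl2 hlm
    obtain ⟨c, hc1, hc2⟩ := h (l - r j).toNat (by omega) (by omega)
    have hC := hCne (l - r j).toNat (by omega) (by omega)
    set C := Npol (nd θ (r j)) κ (nd θ (r j) (l - r j).toNat) with hCdef
    have hll : (r j : ℤ) + ((l - r j).toNat : ℤ) = l := by omega
    have key : C * phi b θ k l (X (ev d r e θ j m)) =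
        ∑ a ∈ Finset.range (n + 1), c a * phi b θ j (r j + a) (ev d r e θ j m) := by
      unfold ev
      simp only [map_sum, map_smul, smul_eq_mul, Finset.mul_sum]
      rw [Finset.sum_comm]
      refine Finset.sum_congr rfl fun i _ => ?_
      by_cases hi : (r j : ℤ) ≤ i ∧ i ≤ d - r j
      · have h3 := hc2 (i - r j).toNat (by omega)
        rw [hL _ (by omega) (by omega) _ (by omega)] at h3
        rw [hll, show (r j : ℤ) + ((i - r j).toNat : ℤ) = i by omega] at h3
        have h4 : ∀ a ∈ Finset.range (n + 1), c a * (Npol (ndr θ (d - r j))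
            (d - r j - i).toNat (θ m) * phi b θ j (r j + a) (e j i)) =
            Npol (ndr θ (d - r j)) (d - r j - i).toNat (θ m) *
              (c a * Npol (nd θ (r j)) (i - r j).toNat (nd θ (r j) a)) := by
          intro a _
          rw [phi_e S j _ hi]
          have hθ : θ (r j + a) = nd θ (r j) a := rfl
          rw [hθ]; ring
        rw [Finset.sum_congr rfl h4, ← Finset.mul_sum, ← h3]
        ring
      · rw [S.he0 j i hi]; simp
    have h5 : ∑ a ∈ Finset.range (n + 1), c a * phi b θ j (r j + a) (ev d r e θ j m) = 0 := by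
      refine Finset.sum_eq_zero fun a ha => ?_
      rw [Finset.mem_range] at ha
      by_cases ham : (r j : ℤ) + a = m
      · have : c a = 0 := by
          by_contra hne
          have := hc1 a hne
          omega
        rw [this, zero_mul]
      · rw [phi_ev_ne S (by omega) (by omega) (fun hh => ham hh.2), mul_zero]
    rw [h5] at key
    rcases mul_eq_zero.mp key with h6 | h6
    · exact absurd h6 hC
    · exact h6

lemma co_X_ev (j k : J) (m : ℤ) {i : ℤ} (hi : (r k : ℤ) ≤ i ∧ i ≤ d - r k) :
    co b k i (X (ev d r e θ j m)) =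
      xc b e X j k i * Npol (ndr θ (d - r j)) (d - r j - i).toNat (θ m) +
      yc b e X j k (i + 1) * Npol (ndr θ (d - r j)) (d - r j - (i + 1)).toNat (θ m) := by
  have hrj := S.hr j
  have hrk := S.hr k
  unfold ev
  simp only [map_sum, map_smul, smul_eq_mul]
  have h1 : ({i, i + 1} : Finset ℤ) ⊆ Finset.Icc (0 : ℤ) (d + 1) := by
    intro l' hl'
    simp only [Finset.mem_insert, Finset.mem_singleton] at hl'
    rw [Finset.mem_Icc]; omega
  have h2 : ∑ x ∈ Finset.Icc (0 : ℤ) d, Npol (ndr θ (d - r j)) (d - r j - x).toNat (θ m) *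
      co b k i (X (e j x)) = ∑ x ∈ Finset.Icc (0 : ℤ) (d + 1),
      Npol (ndr θ (d - r j)) (d - r j - x).toNat (θ m) * co b k i (X (e j x)) := by
    refine Finset.sum_subset (by intro x; simp only [Finset.mem_Icc]; omega) ?_
    intro x hx hx'
    rw [Finset.mem_Icc] at hx hx'
    rw [S.he0 j x (by omega)]; simp
  rw [h2, ← Finset.sum_subset h1]
  · rw [Finset.sum_pair (by omega)]
    unfold xc yc
    rw [add_sub_cancel_right]
    ring
  · intro l' _ hl'
    simp only [Finset.mem_insert, Finset.mem_singleton, not_or] at hl'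
    rw [hX j k l' i (Ne.symm hl'.1) (by omega), mul_zero]

/-- The vector form of the block condition. -/
lemma TT_iff_high {j k : J} (hjk : r k ≤ r j) :
    TT b e θ X j k ↔ TriCond (ndr θ (d - r k)) (d - 2 * r k) (r j - r k)
      (fun i => xc b e X j k (d - r k - i)) (fun i => yc b e X j k (d - r k - i + 1)) := by
  have hrj := S.hr j
  have hrk := S.hr k
  set n := d - 2 * r k with hn
  set κ := r j - r k with hκ
  set η := ndr θ (d - r k) with hη
  have hinj' : ∀ a ≤ n, ∀ c ≤ n, η a = η c → a = c := by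
    intro a ha c hc h
    have := S.inj (by simp only [Set.mem_Icc]; omega) (by simp only [Set.mem_Icc]; omega) h
    omega
  have hL : ∀ mm : ℕ, κ ≤ mm → mm + κ ≤ n → ∀ i ≤ n,
      xc b e X j k (d - r k - i) * Npol η i (η mm) +
      yc b e X j k (d - r k - i + 1) * Npol η (i - 1) (η mm) =
      Npol η κ (η mm) * co b k (d - r k - i) (X (ev d r e θ j (d - r k - mm))) := by
    intro mm h1 h2 i hi
    rw [co_X_ev S hX j k (d - r k - mm) (by omega)]
    have hθ : θ (d - r k - mm) = η mm := rfl
    rw [hθ]
    have hsh : (fun l => η (κ + l)) = ndr θ (d - r j) := by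
      funext l; simp only [hη]; unfold ndr; congr 1; omega
    have hx : xc b e X j k (d - r k - i) * Npol η i (η mm) =
        Npol η κ (η mm) * (xc b e X j k (d - r k - i) *
          Npol (ndr θ (d - r j)) ((d : ℤ) - r j - (d - r k - i)).toNat (η mm)) := by
      by_cases hiκ : κ ≤ i
      · obtain ⟨i', rfl⟩ := Nat.exists_eq_add_of_le hiκ
        rw [Npol_add, hsh,
          show ((d : ℤ) - r j - (d - r k - ((κ + i' : ℕ) : ℤ))).toNat = i' by omega]
        ring
      · rw [xc_zero S hX (Or.inl (by omega))]; ring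
    have hy : yc b e X j k (d - r k - i + 1) * Npol η (i - 1) (η mm) =
        Npol η κ (η mm) * (yc b e X j k (d - r k - i + 1) *
          Npol (ndr θ (d - r j)) ((d : ℤ) - r j - (d - r k - i + 1)).toNat (η mm)) := by
      by_cases hiκ : κ + 1 ≤ i
      · obtain ⟨i', hi'⟩ := Nat.exists_eq_add_of_le (show κ ≤ i - 1 by omega)
        rw [hi', Npol_add, hsh,
          show ((d : ℤ) - r j - (d - r k - (i : ℤ) + 1)).toNat = i' by omega]
        ring
      · rw [yc_zero S hX (Or.inl (by omega))]; ring
    rw [mul_add, ← hx, ← hy]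
  have hCne : ∀ mm : ℕ, κ ≤ mm → mm + κ ≤ n → Npol η κ (η mm) ≠ 0 :=
    fun mm h1 h2 => Npol_ne_zero hinj' h1 (by omega)
  constructor
  · intro h mm h1 h2
    set m : ℤ := d - r k - mm with hm
    set C := Npol η κ (η mm) with hC
    refine ⟨fun a => if a ≤ n then C * (phi b θ k (d - r k - a) (X (ev d r e θ j m)) /
      phi b θ k (d - r k - a) (ev d r e θ k (d - r k - a))) else 0, ?_, ?_⟩
    · intro a ha
      by_cases han : a ≤ n
      · refine ⟨han, ?_⟩
        by_contra hcon
        apply ha
        simp only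
        rw [if_pos han, h m (d - r k - a) (by omega) (by omega) (by omega) (by omega)
          (by omega)]
        simp
      · simp [han] at ha
    · intro i hi
      simp only
      rw [hL mm h1 h2 i hi]
      conv_lhs => rw [expand S (X (ev d r e θ j (d - r k - mm)))]
      simp only [map_sum, map_smul, smul_eq_mul]
      rw [Finset.sum_eq_single k]
      · rw [sum_Icc_range_rev hrk, Finset.mul_sum]
        refine Finset.sum_congr rfl fun a ha => ?_
        rw [Finset.mem_range] at ha
        rw [if_pos (by omega), co_ev S k _ (by omega)]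
        rw [show ((d : ℤ) - r k - (d - r k - i)).toNat = i by omega]
        have hθ : θ (d - r k - a) = η a := rfl
        rw [hθ]
        ring
      · intro k' _ hk'
        refine Finset.sum_eq_zero fun m _ => ?_
        rw [co_ev_ne S (Ne.symm hk'), mul_zero]
      · intro hh; exact absurd (Finset.mem_univ k) hh
  · intro h m l hm1 hm2 hl1 hl2 hlm
    obtain ⟨c, hc1, hc2⟩ := h (d - r k - m : ℤ).toNat (by omega) (by omega)
    have hC := hCne (d - r k - m : ℤ).toNat (by omega) (by omega)
    set C := Npol η κ (η (d - r k - m : ℤ).toNat) with hCdef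
    have hmm : (d : ℤ) - r k - ((d - r k - m : ℤ).toNat : ℤ) = m := by omega
    have key : C * phi b θ k l (X (ev d r e θ j m)) =
        ∑ a ∈ Finset.range (n + 1), c a * phi b θ k l (ev d r e θ k (d - r k - a)) := by
      simp only [phi_apply, Finset.mul_sum]
      rw [Finset.sum_comm]
      refine Finset.sum_congr rfl fun i _ => ?_
      by_cases hi : (r k : ℤ) ≤ i ∧ i ≤ d - r k
      · have h3 := hc2 (d - r k - i : ℤ).toNat (by omega)
        rw [hL _ (by omega) (by omega) _ (by omega)] at h3
        rw [hmm, show (d : ℤ) - r k - ((d - r k - i : ℤ).toNat : ℤ) = i by omega] at h3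
        have h4 : ∀ a ∈ Finset.range (n + 1), c a * (Npol (nd θ (r k))
            (i - r k).toNat (θ l) * co b k i (ev d r e θ k (d - r k - a))) =
            Npol (nd θ (r k)) (i - r k).toNat (θ l) *
              (c a * Npol η (d - r k - i : ℤ).toNat (η a)) := by
          intro a _
          rw [co_ev S k _ hi]
          have hθ : θ (d - r k - a) = η a := rfl
          rw [hθ]; ring
        rw [Finset.sum_congr rfl h4, ← Finset.mul_sum, ← h3]
        ring
      · rw [co_of_not_mem hi]
        symm
        rw [mul_zero, mul_zero]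
        refine Finset.sum_eq_zero fun a _ => ?_
        rw [co_of_not_mem hi]; ring
    have h5 : ∑ a ∈ Finset.range (n + 1), c a * phi b θ k l (ev d r e θ k (d - r k - a)) = 0 := by
      refine Finset.sum_eq_zero fun a ha => ?_
      rw [Finset.mem_range] at ha
      by_cases ham : (d : ℤ) - r k - a = l
      · have : c a = 0 := by
          by_contra hne
          have := hc1 a hne
          omega
        rw [this, zero_mul]
      · rw [phi_ev_ne S (by omega) (by omega) (fun hh => ham hh.2.symm), mul_zero]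
    rw [h5] at key
    rcases mul_eq_zero.mp key with h6 | h6
    · exact absurd h6 hC
    · exact h6

end

end Pool.Agent.Lib.MP_b7840d_al
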