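import Mathlib
import Pool.Agent.Lib.MP_b7840d_al.Blocks

set_option autoImplicit false
set_option linter.unusedSectionVars false

namespace Pool.Agent.Lib.MP_b7840d_al

variable {K : Type*} [Field K]

lemma nodes_exist {β : K} {η : ℕ → K} {n : ℕ}
    (hinj : ∀ a ≤ n, ∀ b ≤ n, η a = η b → a = b)
    (hrec : ∀ l, l + 3 ≤ n → η (l + 3) = (β + 1) * η (l + 2) - (β + 1) * η (l + 1) + η l) :
    ∃ γ ρ : K, Nodes β γ ρ η n := by
  refine ⟨η 0 - β * η 1 + η 2, η 0 ^ 2 - β * η 0 * η 1 + η 1 ^ 2 -
    (η 0 - β * η 1 + η 2) * (η 0 + η 1), hinj, ?_, ?_⟩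
  · intro l
    induction l with
    | zero => intro _; simp
    | succ l ih =>
      intro hl
      have h1 := ih (by omega)
      have h2 := hrec l (by omega)
      rw [show l + 1 + 1 = l + 2 by ring, show l + 1 + 2 = l + 3 by ring, ← h1, h2]
      ring
  · intro l
    induction l with
    | zero => intro _; simp
    | succ l ih =>
      intro hl
      have h1 := ih (by omega)
      have h2 : η l - β * η (l + 1) + η (l + 2) = η 0 - β * η 1 + η 2 := by
        clear ih h1
        induction l with
        | zero => simp
        | succ l ih =>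
          have h1 := ih (by omega)
          have h2 := hrec l (by omega)
          rw [show l + 1 + 1 = l + 2 by ring, show l + 1 + 2 = l + 3 by ring, ← h1, h2]
          ring
      rw [show l + 1 + 1 = l + 2 by ring]
      rw [← h1, ← h2]
      ring

section

variable {β : K} {θ : ℤ → K} {d : ℕ} (hinj : Set.InjOn θ (Set.Icc 0 (d : ℤ)))
  (hrec : ∀ i : ℤ, 0 ≤ i → i + 3 ≤ d →
    θ (i + 3) = (β + 1) * θ (i + 2) - (β + 1) * θ (i + 1) + θ i)
include hinj hrec

lemma nodes_nd {r : ℕ} (hr : 2 * r ≤ d) : ∃ γ ρ : K, Nodes β γ ρ (nd θ r) (d - 2 * r) := by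
  refine nodes_exist ?_ ?_
  · intro a ha c hc h
    have := hinj (by simp only [Set.mem_Icc]; omega) (by simp only [Set.mem_Icc]; omega) h
    omega
  · intro l hl
    have := hrec (r + l) (by omega) (by omega)
    unfold nd
    push_cast
    rw [← add_assoc, ← add_assoc, ← add_assoc]
    exact this

lemma nodes_ndr {s : ℕ} (hs : 2 * s ≤ d) :
    ∃ γ ρ : K, Nodes β γ ρ (ndr θ (d - s)) (d - 2 * s) := by
  refine nodes_exist ?_ ?_
  · intro a ha c hc h
    have := hinj (by simp only [Set.mem_Icc]; omega) (by simp only [Set.mem_Icc]; omega) h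
    omega
  · intro l hl
    have := hrec (d - s - l - 3) (by omega) (by omega)
    unfold ndr
    push_cast
    rw [show (d : ℤ) - s - l - 3 + 3 = d - s - l by ring,
      show (d : ℤ) - s - l - 3 + 2 = d - s - (l + 1) by ring,
      show (d : ℤ) - s - l - 3 + 1 = d - s - (l + 2) by ring,
      show (d : ℤ) - s - l - 3 = d - s - (l + 3) by ring] at this
    linear_combination -this

/-- agreement of coefficient sequences where they matter -/
def Agree (d r s : ℤ) (x y x' y' : ℤ → K) : Prop :=
  ∀ i, r ≤ i → i ≤ d - r → (s ≤ i → i ≤ d - s → x i = x' i) ∧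
    (s ≤ i - 1 → i - 1 ≤ d - s → y i = y' i)

lemma low_iff {r s : ℕ} (hr : 2 * r ≤ d) (hs : 2 * s ≤ d) (hrs : r ≤ s) {X Y : ℤ → K}
    (hX : ∀ i : ℤ, ¬ ((r : ℤ) ≤ i ∧ i ≤ d - r) ∨ ¬ ((s : ℤ) ≤ i ∧ i ≤ d - s) → X i = 0)
    (hY : ∀ i : ℤ, ¬ ((r : ℤ) ≤ i ∧ i ≤ d - r) ∨ ¬ ((s : ℤ) ≤ i - 1 ∧ i - 1 ≤ d - s) →
      Y i = 0) :
    TriCond (nd θ r) (d - 2 * r) (s - r) (fun i => X (r + i)) (fun i => Y (r + i)) ↔
      ∃ x y : ℤ → K, Block β θ d r s x y ∧ Agree (K := K) d r s x y X Y := by
  obtain ⟨γ, ρ, H⟩ := nodes_nd hinj hrec hr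
  rcases Nat.lt_or_ge (s - r) 1 with h0 | h0
  · -- κ = 0
    have hsr : s = r := by omega
    subst hsr
    rw [Nat.sub_self, block0 H (hY _ (Or.inr (by omega)))]
    constructor
    · rintro ⟨u, hu, hux, c, hc⟩
      refine ⟨fun i => u (i - s), Y, ⟨?_, Or.inl ⟨rfl, c, ?_⟩⟩, ?_⟩
      · have := hu.shift (-s)
        simpa [sub_eq_add_neg] using this
      · intro i h1 h2
        have h3 := hc (i - s).toNat (by omega) (by omega)
        have h4 : (s : ℤ) + ((i - s).toNat : ℤ) = i := by omega
        have h5 := hux (i - s).toNat (by omega)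
        have h6 := hux 0 (by omega)
        rw [h4] at h3 h5
        rw [h3, h5, h6]
        have e1 : (((i - s).toNat : ℕ) : ℤ) = i - s := by omega
        have e2 : nd θ s ((i - s).toNat - 1) = θ (i - 1) := by unfold nd; congr 1; omega
        have e3 : nd θ s (d - 2 * s) = θ (d - s) := by unfold nd; congr 1; omega
        beta_reduce
        rw [e1, e2, e3, sub_self, Nat.cast_zero]
        congr 2
        unfold Ssum
        symm
        refine Finset.sum_bij' (fun h _ => (h - s).toNat) (fun l _ => (s : ℤ) + l)
          ?_ ?_ ?_ ?_ ?_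
        · intro h hh; rw [Finset.mem_Ico] at hh; rw [Finset.mem_range]; omega
        · intro l hl; rw [Finset.mem_range] at hl; rw [Finset.mem_Ico]; omega
        · intro h hh; rw [Finset.mem_Ico] at hh; omega
        · intro l _; omega
        · intro h hh
          rw [Finset.mem_Ico] at hh
          unfold nd
          congr 2
          · omega
          · omega
      · intro i h1 h2
        refine ⟨fun h3 h4 => ?_, fun _ _ => rfl⟩
        have h5 := hux (i - s).toNat (by omega)
        have h6 : (s : ℤ) + ((i - s).toNat : ℤ) = i := by omega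
        have e1 : (((i - s).toNat : ℕ) : ℤ) = i - s := by omega
        rw [h6, e1] at h5
        exact h5.symm
    · rintro ⟨x, y, ⟨hx, hcases⟩, hag⟩
      have hc : ∃ c : K, ∀ i : ℤ, (s : ℤ) < i → i ≤ d - s →
        y i = (x i - x s) * (θ (i - 1) - θ (d - s)) +
          c * ∑ h ∈ Finset.Ico (s : ℤ) i, (θ h - θ (d - h)) := by
        rcases hcases with h | h | h | h | h | h
        · exact h.2
        · exfalso; have := h.1; omega
        · exfalso; have := h.1; omega
        · exfalso; have := h.1; omega
        · exfalso; have := h.1; omega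
        · exfalso; have := h.1; rw [lt_abs] at this; omega
      obtain ⟨c, hc⟩ := hc
      refine ⟨fun i => x (i + s), hx.shift s, ?_, c, ?_⟩
      · intro i hi
        have := (hag (s + i) (by omega) (by omega)).1 (by omega) (by omega)
        simp only
        rw [← this, add_comm]
      · intro i h1 h2
        have e0 := (hag (s + i) (by omega) (by omega)).1 (by omega) (by omega)
        have e1 := (hag (s + i) (by omega) (by omega)).2 (by omega) (by omega)
        have e2 := (hag s (by omega) (by omega)).1 (by omega) (by omega)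
        have e3 := hc (s + i) (by omega) (by omega)
        rw [← e1, e3, ← e0, Nat.cast_zero, add_zero, ← e2]
        have e4 : nd θ s (i - 1) = θ (s + i - 1) := by unfold nd; congr 1; omega
        have e5 : nd θ s (d - 2 * s) = θ (d - s) := by unfold nd; congr 1; omega
        rw [e4, e5]
        congr 2
        unfold Ssum
        refine Finset.sum_bij' (fun h _ => (h - s).toNat) (fun l _ => (s : ℤ) + l)
          ?_ ?_ ?_ ?_ ?_
        · intro h hh; rw [Finset.mem_Ico] at hh; rw [Finset.mem_range]; omega
        · intro l hl; rw [Finset.mem_range] at hl; rw [Finset.mem_Ico]; omega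
        · intro h hh; rw [Finset.mem_Ico] at hh; omega
        · intro l _; omega
        · intro h hh
          rw [Finset.mem_Ico] at hh
          unfold nd
          congr 2
          · omega
          · omega
  rcases Nat.lt_or_ge (s - r) 2 with h1 | h1
  · -- κ = 1
    have hsr : s = r + 1 := by omega
    subst hsr
    rw [show r + 1 - r = 1 by omega, block1 H (hX _ (Or.inr (by omega)))
      (hY _ (Or.inr (by omega))) (hY _ (Or.inr (by omega)))]
    constructor
    · rintro ⟨u, z, hu, hz, hu0, hz0, hz1, hux, hc⟩
      refine ⟨fun i => u (i - r), fun i => if (r : ℤ) + 1 < i ∧ i ≤ d - r then Y i else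
        u (i - r) * (θ (i - 1) - θ r) + z (i - r), ⟨?_, Or.inr (Or.inl ⟨by push_cast; ring,
          by simpa using hu0, fun i => z (i - r), ?_, by simpa using hz0,
          by simpa using hz1, ?_⟩)⟩, ?_⟩
      · have := hu.shift (-r)
        simpa [sub_eq_add_neg] using this
      · have := hz.shift (-r)
        simpa [sub_eq_add_neg] using this
      · intro i h1 h2
        simp only
        rw [if_pos ⟨h1, h2⟩]
        have h3 := hc (i - r).toNat (by omega) (by omega)
        have h4 : (r : ℤ) + ((i - r).toNat : ℤ) = i := by omega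
        rw [h4] at h3
        rw [h3]
        have e1 : (((i - r).toNat : ℕ) : ℤ) = i - r := by omega
        have e2 : nd θ r ((i - r).toNat - 1) = θ (i - 1) := by unfold nd; congr 1; omega
        have e3 : nd θ r 0 = θ r := by unfold nd; norm_num
        rw [e1, e2, e3]
      · intro i h1 h2
        refine ⟨fun h3 h4 => ?_, fun h3 h4 => ?_⟩
        · have h5 := hux (i - r).toNat (by omega) (by omega)
          have h6 : (r : ℤ) + ((i - r).toNat : ℤ) = i := by omega
          have e1 : (((i - r).toNat : ℕ) : ℤ) = i - r := by omega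
          rw [h6, e1] at h5
          exact h5.symm
        · simp only
          rw [if_pos (by omega)]
    · rintro ⟨x, y, ⟨hx, hcases⟩, hag⟩
      have hc : x r = 0 ∧ ∃ z, BetaRec β z ∧ z r = 0 ∧ z (r + 1) = 0 ∧
          ∀ i : ℤ, (r : ℤ) + 1 < i → i ≤ d - r → y i = x i * (θ (i - 1) - θ r) + z i := by
        rcases hcases with h | h | h | h | h | h
        · exfalso; have := h.1; omega
        · exact h.2
        · exfalso; have := h.1; omega
        · exfalso; have := h.1; omega
        · exfalso; have := h.1; omega
        · exfalso; have := h.1; rw [lt_abs] at this; omega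
      obtain ⟨hxr, z, hz, hz0, hz1, hc⟩ := hc
      refine ⟨fun i => x (i + r), fun i => z (i + r), hx.shift r, hz.shift r, by simpa using hxr,
        by simpa using hz0, by simp only; rw [add_comm]; exact hz1, ?_, ?_⟩
      · intro i hi hi'
        have := (hag (r + i) (by omega) (by omega)).1 (by omega) (by omega)
        simp only
        rw [← this, add_comm]
      · intro i h1 h2
        have e1 := (hag (r + i) (by omega) (by omega)).2 (by omega) (by omega)
        have e3 := hc (r + i) (by omega) (by omega)
        simp only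
        rw [← e1, e3]
        have e4 : nd θ r (i - 1) = θ (r + i - 1) := by unfold nd; congr 1; omega
        have e5 : nd θ r 0 = θ r := by unfold nd; norm_num
        rw [e4, e5, add_comm (i : ℤ) r]
  rcases Nat.lt_or_ge (s - r) 3 with h2 | h2
  · -- κ = 2
    have hsr : s = r + 2 := by omega
    subst hsr
    rw [show r + 2 - r = 2 by omega, block2 H (hX _ (Or.inr (by omega)))
      (hX _ (Or.inr (by omega)))
      (hY _ (Or.inr (by omega))) (hY _ (Or.inr (by omega))) (hY _ (Or.inr (by omega)))]
    constructor
    · rintro ⟨u, hu, hu0, hu1, hux, hc⟩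
      refine ⟨fun i => u (i - r), fun i => if (r : ℤ) + 2 < i ∧ i < d - r then Y i else
        0, ⟨?_, Or.inr (Or.inr (Or.inl ⟨by push_cast; ring,
          by simpa using hu0, by simpa using hu1, ?_⟩))⟩, ?_⟩
      · have := hu.shift (-r)
        simpa [sub_eq_add_neg] using this
      · intro i h1 h2
        simp only
        rw [if_pos ⟨h1, h2⟩]
        have h3 := hc (i - r).toNat (by omega) (by omega)
        have h4 : (r : ℤ) + ((i - r).toNat : ℤ) = i := by omega
        rw [h4] at h3
        rw [h3]
        have e1 : (((i - r).toNat : ℕ) : ℤ) = i - r := by omega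
        have e2 : nd θ r ((i - r).toNat - 1) = θ (i - 1) := by unfold nd; congr 1; omega
        have e3 : nd θ r 1 = θ (r + 1) := by unfold nd; norm_num
        rw [e1, e2, e3]
      · intro i h1 h2
        refine ⟨fun h3 h4 => ?_, fun h3 h4 => ?_⟩
        · have h5 := hux (i - r).toNat (by omega) (by omega)
          have h6 : (r : ℤ) + ((i - r).toNat : ℤ) = i := by omega
          have e1 : (((i - r).toNat : ℕ) : ℤ) = i - r := by omega
          rw [h6, e1] at h5
          exact h5.symm
        · simp only
          rw [if_pos (by omega)]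
    · rintro ⟨x, y, ⟨hx, hcases⟩, hag⟩
      have hc : x r = 0 ∧ x (r + 1) = 0 ∧
          ∀ i : ℤ, (r : ℤ) + 2 < i → i < d - r → y i = x i * (θ (i - 1) - θ (r + 1)) := by
        rcases hcases with h | h | h | h | h | h
        · exfalso; have := h.1; omega
        · exfalso; have := h.1; omega
        · exact h.2
        · exfalso; have := h.1; omega
        · exfalso; have := h.1; omega
        · exfalso; have := h.1; rw [lt_abs] at this; omega
      obtain ⟨hxr, hxr1, hc⟩ := hc
      refine ⟨fun i => x (i + r), hx.shift r, by simpa using hxr,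
        by simp only; rw [add_comm]; exact hxr1, ?_, ?_⟩
      · intro i hi hi'
        have := (hag (r + i) (by omega) (by omega)).1 (by omega) (by omega)
        simp only
        rw [← this, add_comm]
      · intro i h1 h2
        have e1 := (hag (r + i) (by omega) (by omega)).2 (by omega) (by omega)
        have e3 := hc (r + i) (by omega) (by omega)
        simp only
        rw [← e1, e3]
        have e4 : nd θ r (i - 1) = θ (r + i - 1) := by unfold nd; congr 1; omega
        have e5 : nd θ r 1 = θ (r + 1) := by unfold nd; norm_num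
        rw [e4, e5, add_comm (i : ℤ) r]
  · -- κ ≥ 3
    rw [block3 H h2 (fun i hi => hX _ (Or.inr (by omega))) (fun i hi => hY _ (Or.inr (by omega)))]
    constructor
    · rintro ⟨hx, hy⟩
      refine ⟨fun _ => 0, fun _ => 0, ⟨fun i => by simp, Or.inr (Or.inr (Or.inr (Or.inr (Or.inr
        ⟨?_, fun i => ⟨rfl, rfl⟩⟩))))⟩, ?_⟩
      · rw [lt_abs]; left; omega
      · intro i h3 h4
        refine ⟨fun h5 h6 => ?_, fun h5 h6 => ?_⟩
        · have := hx (i - r).toNat (by omega) (by omega)
          rw [show (r : ℤ) + ((i - r).toNat : ℤ) = i by omega] at this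
          exact this.symm
        · have := hy (i - r).toNat (by omega) (by omega)
          rw [show (r : ℤ) + ((i - r).toNat : ℤ) = i by omega] at this
          exact this.symm
    · rintro ⟨x, y, ⟨hx, hcases⟩, hag⟩
      have hc : ∀ i, x i = 0 ∧ y i = 0 := by
        rcases hcases with h | h | h | h | h | h
        · exfalso; have := h.1; omega
        · exfalso; have := h.1; omega
        · exfalso; have := h.1; omega
        · exfalso; have := h.1; omega
        · exfalso; have := h.1; omega
        · exact h.2
      refine ⟨fun i h3 h4 => ?_, fun i h3 h4 => ?_⟩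
      · have := (hag (r + i) (by omega) (by omega)).1 (by omega) (by omega)
        rw [← this, (hc _).1]
      · have := (hag (r + i) (by omega) (by omega)).2 (by omega) (by omega)
        rw [← this, (hc _).2]

lemma high_iff {r s : ℕ} (hr : 2 * r ≤ d) (hs : 2 * s ≤ d) (hrs : s < r) {X Y : ℤ → K}
    (hX : ∀ i : ℤ, ¬ ((r : ℤ) ≤ i ∧ i ≤ d - r) ∨ ¬ ((s : ℤ) ≤ i ∧ i ≤ d - s) → X i = 0)
    (hY : ∀ i : ℤ, ¬ ((r : ℤ) ≤ i ∧ i ≤ d - r) ∨ ¬ ((s : ℤ) ≤ i - 1 ∧ i - 1 ≤ d - s) →
      Y i = 0) :
    TriCond (ndr θ (d - s)) (d - 2 * s) (r - s) (fun i => X (d - s - i))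
      (fun i => Y (d - s - i + 1)) ↔
      ∃ x y : ℤ → K, Block β θ d r s x y ∧ Agree (K := K) d r s x y X Y := by
  obtain ⟨γ, ρ, H⟩ := nodes_ndr hinj hrec hs
  rcases Nat.lt_or_ge (r - s) 2 with h1 | h1
  · -- κ = 1
    have hsr : r = s + 1 := by omega
    subst hsr
    rw [show s + 1 - s = 1 by omega, block1 H (hX _ (Or.inl (by omega)))
      (hY _ (Or.inl (by omega))) (hY _ (Or.inl (by omega)))]
    constructor
    · rintro ⟨u, z, hu, hz, hu0, hz0, hz1, hux, hc⟩
      refine ⟨fun i => u (d - s - i), fun i => Y i, ⟨hu.reflect _,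
        Or.inr (Or.inr (Or.inr (Or.inl ⟨by push_cast; ring, by simpa using hu0,
          fun i => z (d - s + 1 - i), hz.reflect _, ?_, ?_, ?_⟩)))⟩, ?_⟩
      · simpa using hz1
      · simpa using hz0
      · intro i h1 h2
        have h3 := hc (d - s + 1 - i : ℤ).toNat (by omega) (by omega)
        have e1 : (((d - s + 1 - i : ℤ).toNat : ℕ) : ℤ) = d - s + 1 - i := by omega
        have e2 : ndr θ (d - s) ((d - s + 1 - i : ℤ).toNat - 1) = θ i := by
          unfold ndr; congr 1; omega
        have e3 : ndr θ (d - s) 0 = θ (d - s) := by unfold ndr; norm_num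
        rw [e1, e2, e3] at h3
        rw [show (d : ℤ) - s - (d - s + 1 - i) + 1 = i by ring] at h3
        beta_reduce
        rw [h3, show (d : ℤ) - s - (i - 1) = d - s + 1 - i by ring]
      · intro i h1 h2
        refine ⟨fun h3 h4 => ?_, fun h3 h4 => rfl⟩
        have h5 := hux (d - s - i : ℤ).toNat (by omega) (by omega)
        have e1 : (((d - s - i : ℤ).toNat : ℕ) : ℤ) = d - s - i := by omega
        rw [e1, show (d : ℤ) - s - (d - s - i) = i by ring] at h5
        exact h5.symm
    · rintro ⟨x, y, ⟨hx, hcases⟩, hag⟩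
      have hc : x (d - s) = 0 ∧ ∃ z, BetaRec β z ∧ z (d - s) = 0 ∧ z (d - s + 1) = 0 ∧
          ∀ i : ℤ, (s : ℤ) + 1 ≤ i → i ≤ d - (s + 1) →
            y i = x (i - 1) * (θ i - θ (d - s)) + z i := by
        push_cast at hcases
        rcases hcases with h | h | h | h | h | h
        · exfalso; have := h.1; omega
        · exfalso; have := h.1; omega
        · exfalso; have := h.1; omega
        · exact h.2
        · exfalso; have := h.1; omega
        · exfalso; have := h.1; rw [lt_abs] at this; omega
      obtain ⟨hxr, z, hz, hz0, hz1, hc⟩ := hc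
      refine ⟨fun i => x (d - s - i), fun i => z (d - s + 1 - i), hx.reflect _, hz.reflect _,
        by simpa using hxr, by simpa using hz1, by simpa using hz0, ?_, ?_⟩
      · intro i hi hi'
        exact ((hag (d - s - i) (by omega) (by omega)).1 (by omega) (by omega)).symm
      · intro i h1 h2
        have e1 := (hag (d - s - i + 1) (by omega) (by omega)).2 (by omega) (by omega)
        have e3 := hc (d - s - i + 1) (by omega) (by omega)
        rw [← e1, e3]
        have e4 : ndr θ (d - s) (i - 1) = θ (d - s - i + 1) := by unfold ndr; congr 1; omega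
        have e5 : ndr θ (d - s) 0 = θ (d - s) := by unfold ndr; norm_num
        beta_reduce
        rw [e4, e5, show (d : ℤ) - s - i + 1 - 1 = d - s - i by ring,
          show (d : ℤ) - s - i + 1 = d - s + 1 - i by ring]
  rcases Nat.lt_or_ge (r - s) 3 with h2 | h2
  · -- κ = 2
    have hsr : r = s + 2 := by omega
    subst hsr
    rw [show s + 2 - s = 2 by omega, block2 H (hX _ (Or.inl (by omega)))
      (hX _ (Or.inl (by omega)))
      (hY _ (Or.inl (by omega))) (hY _ (Or.inl (by omega))) (hY _ (Or.inl (by omega)))]
    constructor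
    · rintro ⟨u, hu, hu0, hu1, hux, hc⟩
      refine ⟨fun i => u (d - s - i), fun i => Y i, ⟨hu.reflect _,
        Or.inr (Or.inr (Or.inr (Or.inr (Or.inl ⟨by push_cast; ring, by simpa using hu0,
          ?_, ?_⟩))))⟩, ?_⟩
      · beta_reduce
        rw [show (d : ℤ) - s - (d - s - 1) = 1 by ring]; exact hu1
      · intro i h1 h2
        have h3 := hc (d - s + 1 - i : ℤ).toNat (by omega) (by omega)
        have e1 : (((d - s + 1 - i : ℤ).toNat : ℕ) : ℤ) = d - s + 1 - i := by omega
        have e2 : ndr θ (d - s) ((d - s + 1 - i : ℤ).toNat - 1) = θ i := by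
          unfold ndr; congr 1; omega
        have e3 : ndr θ (d - s) 1 = θ (d - s - 1) := by unfold ndr; norm_num
        rw [e1, e2, e3] at h3
        rw [show (d : ℤ) - s - (d - s + 1 - i) + 1 = i by ring] at h3
        beta_reduce
        rw [h3, show (d : ℤ) - s - (i - 1) = d - s + 1 - i by ring]
      · intro i h1 h2
        refine ⟨fun h3 h4 => ?_, fun h3 h4 => rfl⟩
        have h5 := hux (d - s - i : ℤ).toNat (by omega) (by omega)
        have e1 : (((d - s - i : ℤ).toNat : ℕ) : ℤ) = d - s - i := by omega
        rw [e1, show (d : ℤ) - s - (d - s - i) = i by ring] at h5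
        exact h5.symm
    · rintro ⟨x, y, ⟨hx, hcases⟩, hag⟩
      have hc : x (d - s) = 0 ∧ x (d - s - 1) = 0 ∧
          ∀ i : ℤ, (s : ℤ) + 2 ≤ i → i ≤ d - (s + 2) →
            y i = x (i - 1) * (θ i - θ (d - s - 1)) := by
        push_cast at hcases
        rcases hcases with h | h | h | h | h | h
        · exfalso; have := h.1; omega
        · exfalso; have := h.1; omega
        · exfalso; have := h.1; omega
        · exfalso; have := h.1; omega
        · exact h.2
        · exfalso; have := h.1; rw [lt_abs] at this; omega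
      obtain ⟨hxr, hxr1, hc⟩ := hc
      refine ⟨fun i => x (d - s - i), hx.reflect _,
        by simpa using hxr, by simpa using hxr1, ?_, ?_⟩
      · intro i hi hi'
        exact ((hag (d - s - i) (by omega) (by omega)).1 (by omega) (by omega)).symm
      · intro i h1 h2
        have e1 := (hag (d - s - i + 1) (by omega) (by omega)).2 (by omega) (by omega)
        have e3 := hc (d - s - i + 1) (by omega) (by omega)
        rw [← e1, e3]
        have e4 : ndr θ (d - s) (i - 1) = θ (d - s - i + 1) := by unfold ndr; congr 1; omega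
        have e5 : ndr θ (d - s) 1 = θ (d - s - 1) := by unfold ndr; norm_num
        beta_reduce
        rw [e4, e5, show (d : ℤ) - s - i + 1 - 1 = d - s - i by ring]
  · -- κ ≥ 3
    rw [block3 H h2 (fun i hi => hX _ (Or.inl (by omega))) (fun i hi => hY _ (Or.inl (by omega)))]
    constructor
    · rintro ⟨hx, hy⟩
      refine ⟨fun _ => 0, fun _ => 0, ⟨fun i => by simp, Or.inr (Or.inr (Or.inr (Or.inr (Or.inr
        ⟨?_, fun i => ⟨rfl, rfl⟩⟩))))⟩, ?_⟩
      · rw [lt_abs]; right; omega
      · intro i h3 h4
        refine ⟨fun h5 h6 => ?_, fun h5 h6 => ?_⟩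
        · have := hx (d - s - i : ℤ).toNat (by omega) (by omega)
          rw [show (d : ℤ) - s - ((d - s - i : ℤ).toNat : ℤ) = i by omega] at this
          exact this.symm
        · have := hy (d - s + 1 - i : ℤ).toNat (by omega) (by omega)
          rw [show (d : ℤ) - s - ((d - s + 1 - i : ℤ).toNat : ℤ) + 1 = i by omega] at this
          exact this.symm
    · rintro ⟨x, y, ⟨hx, hcases⟩, hag⟩
      have hc : ∀ i, x i = 0 ∧ y i = 0 := by
        rcases hcases with h | h | h | h | h | h
        · exfalso; have := h.1; omega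
        · exfalso; have := h.1; omega
        · exfalso; have := h.1; omega
        · exfalso; have := h.1; omega
        · exfalso; have := h.1; omega
        · exact h.2
      refine ⟨fun i h3 h4 => ?_, fun i h3 h4 => ?_⟩
      · have := (hag (d - s - i) (by omega) (by omega)).1 (by omega) (by omega)
        rw [← this, (hc _).1]
      · have := (hag (d - s - i + 1) (by omega) (by omega)).2 (by omega) (by omega)
        rw [← this, (hc _).2]

end

end Pool.Agent.Lib.MP_b7840d_al
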