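import Mathlib
import Pool.Agent.Lib.MP_b7840d_al.Classify
import Pool.Agent.Lib.MP_b7840d_al.Beta

set_option autoImplicit false
set_option linter.unusedSectionVars false

namespace Pool.Agent.Lib.MP_b7840d_al

variable {K V : Type*} [Field K] [AddCommGroup V] [Module K V]
variable {A As : Module.End K V} {d δ : ℕ} {θ θs : ℤ → K} {J : Type} [Fintype J] {r : J → ℕ}
  {e : J → ℤ → V} {b : Module.Basis (Idx d r) K V}

section

variable (h : IsTridiagonalPair A As d δ θ θs) (S : StrBasis A d θ r e b)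
  (hU : ∀ j i, e j i ∈ splitSp A As d δ θ θs i)
include h S hU

lemma co_Usp {k : J} {i l : ℤ} (hil : i ≠ l) {u : V} (hu : u ∈ splitSp A As d δ θ θs l) :
    co b k i u = 0 := by
  classical
  by_cases hl : 0 ≤ l ∧ l ≤ d
  swap
  · have : u = 0 := by
      rcases lt_or_ge l 0 with h1 | h1
      · rw [Usp_neg h1, Submodule.mem_bot] at hu; exact hu
      · rw [Usp_big (by omega), Submodule.mem_bot] at hu; exact hu
    rw [this, map_zero]
  by_cases hki : (r k : ℤ) ≤ i ∧ i ≤ d - r k
  swap
  · exact co_of_not_mem hki _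
  have h1 := (iSupIndep_iff_finsetSum_eq_imp_eq _).mp (iSupIndep_Usp h) (Finset.Icc (0 : ℤ) d)
    (fun i => ∑ j, co b j i u • e j i) (fun i => if i = l then u else 0) ?_ ?_ i
    (by rw [Finset.mem_Icc]; omega)
  · simp only [if_neg hil] at h1
    have h2 := congrArg (co b k i) h1
    rw [map_sum, map_zero, Finset.sum_eq_single k] at h2
    · rw [map_smul, co_e_self S hki, smul_eq_mul, mul_one] at h2
      exact h2
    · intro j _ hj
      rw [map_smul, co_e_ne S (fun hh => hj hh.1.symm), smul_zero]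
    · intro hh; exact absurd (Finset.mem_univ k) hh
  · intro i _
    refine ⟨Submodule.sum_mem _ fun j _ => Submodule.smul_mem _ _ (hU j i), ?_⟩
    by_cases hi : i = l
    · subst hi; simpa using hu
    · simp [hi]
  · rw [Finset.sum_ite_eq' , if_pos (by rw [Finset.mem_Icc]; exact hl), Finset.sum_comm]
    exact (recon S u).symm

lemma co_flag {k : J} {i m : ℤ} (him : i < m) {v : V} (hv : v ∈ flag As δ θs i) :
    co b k m v = 0 := by
  have : flag As δ θs i ≤ LinearMap.ker (co b k m) := by
    rw [flag_eq_iSup_Usp h i]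
    refine iSup₂_le fun l hl => fun u hu => ?_
    rw [LinearMap.mem_ker]
    exact co_Usp h S hU (by omega) hu
  exact this hv

lemma co_upflag {k : J} {i m : ℤ} (him : m < i) {v : V} (hv : v ∈ upflag A d θ i) :
    co b k m v = 0 := by
  have : upflag A d θ i ≤ LinearMap.ker (co b k m) := by
    rw [upflag_eq_iSup_Usp h i]
    refine iSup₂_le fun l hl => fun u hu => ?_
    rw [LinearMap.mem_ker]
    exact co_Usp h S hU (by omega) hu
  exact this hv

lemma Usp_span (i : ℤ) : splitSp A As d δ θ θs i ≤ Submodule.span K {x | ∃ j, x = e j i} := by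
  intro u hu
  rw [recon S u]
  refine Submodule.sum_mem _ fun j _ => Submodule.sum_mem _ fun l _ => ?_
  by_cases hl : l = i
  · subst hl
    exact Submodule.smul_mem _ _ (Submodule.subset_span ⟨j, rfl⟩)
  · rw [co_Usp h S hU hl hu, zero_smul]; exact Submodule.zero_mem _

lemma flag_eq_span (i : ℤ) :
    flag As δ θs i = Submodule.span K {x | ∃ j l, l ≤ i ∧ x = e j l} := by
  apply le_antisymm
  · rw [flag_eq_iSup_Usp h i]
    refine iSup₂_le fun l hl => (Usp_span h S hU l).trans (Submodule.span_mono ?_)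
    rintro x ⟨j, rfl⟩
    exact ⟨j, l, hl, rfl⟩
  · rw [Submodule.span_le]
    rintro x ⟨j, l, hl, rfl⟩
    exact flag_mono hl (hU j l).1

/-- functionals `phi` kill the other eigenspaces -/
lemma phi_eig {k : J} {l m : ℤ} (hl : (r k : ℤ) ≤ l ∧ l ≤ d - r k) (hlm : l ≠ m) {v : V}
    (hv : v ∈ eigSp A d θ m) : phi b θ k l v = 0 := by
  by_cases hm : 0 ≤ m ∧ m ≤ d
  · have h1 := phi_A S hl v
    rw [eigSp_apply hv, map_smul, smul_eq_mul] at h1
    have h2 : (θ m - θ l) * phi b θ k l v = 0 := by linear_combination h1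
    rcases mul_eq_zero.mp h2 with h3 | h3
    · exact absurd (sub_eq_zero.mp h3) (theta_ne h.ord hm (by omega) hlm.symm)
    · exact h3
  · rw [eigSp_of_not_mem hm, Submodule.mem_bot] at hv
    rw [hv, map_zero]

lemma ev_mem {j : J} {m : ℤ} (hm : (r j : ℤ) ≤ m ∧ m ≤ d - r j) :
    ev d r e θ j m ∈ eigSp A d θ m := by
  rw [eigSp_of_mem (by omega), Module.End.mem_eigenspace_iff]
  exact A_ev S hm

lemma tri_iff_TT (X : Module.End K V) :
    (∀ i, ∀ v ∈ eigSp A d θ i,
      X v ∈ eigSp A d θ (i - 1) ⊔ eigSp A d θ i ⊔ eigSp A d θ (i + 1)) ↔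
      ∀ j k, TT b e θ X j k := by
  constructor
  · intro hX j k m l hm1 hm2 hl1 hl2 hlm
    have h1 := hX m _ (ev_mem h S hU (j := j) ⟨hm1, hm2⟩)
    have h2 : eigSp A d θ (m - 1) ⊔ eigSp A d θ m ⊔ eigSp A d θ (m + 1) ≤
        LinearMap.ker (phi b θ k l) := by
      refine sup_le (sup_le ?_ ?_) ?_
      all_goals
        intro v hv
        rw [LinearMap.mem_ker]
        exact phi_eig h S hU ⟨hl1, hl2⟩ (by omega) hv
    exact h2 h1
  · intro hT i v hv
    rw [expand S v, map_sum]
    refine Submodule.sum_mem _ fun j _ => ?_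
    rw [map_sum]
    refine Submodule.sum_mem _ fun m hm => ?_
    rw [Finset.mem_Icc] at hm
    rw [map_smul]
    by_cases hmi : m = i
    swap
    · rw [phi_eig h S hU hm hmi hv, zero_div, zero_smul]; exact Submodule.zero_mem _
    subst hmi
    refine Submodule.smul_mem _ _ ?_
    rw [expand S (X (ev d r e θ j m))]
    refine Submodule.sum_mem _ fun k _ => Submodule.sum_mem _ fun l hl => ?_
    rw [Finset.mem_Icc] at hl
    by_cases hlm : l < m - 1 ∨ m + 1 < l
    · rw [hT j k m l hm.1 hm.2 hl.1 hl.2 hlm, zero_div, zero_smul]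
      exact Submodule.zero_mem _
    · refine Submodule.smul_mem _ _ ?_
      have h1 := ev_mem h S hU hl
      rcases (show l = m - 1 ∨ l = m ∨ l = m + 1 by omega) with rfl | rfl | rfl
      · exact Submodule.mem_sup_left (Submodule.mem_sup_left h1)
      · exact Submodule.mem_sup_left (Submodule.mem_sup_right h1)
      · exact Submodule.mem_sup_right h1

lemma bidiag_of_mem {X : Module.End K V} (hX : X ∈ XSpace A As d δ θ θs) :
    ∀ j k i l, l ≠ i → l ≠ i - 1 → co b k l (X (e j i)) = 0 := by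
  intro j k i l h1 h2
  rcases lt_or_gt_of_ne h1 with h3 | h3
  · have h4 := tri_upflag hX.2 i _ (hU j i).2
    exact co_upflag h S hU (by omega) h4
  · have h4 : X (e j i) ∈ flag As δ θs i := by
      refine map_flag_le (T := X) (i := i) (W := flag As δ θs i) ?_ _ (hU j i).1
      intro l' hl' v hv
      exact flag_mono hl' (hX.1 l' v hv)
    exact co_flag h S hU h3 h4

lemma recon_bidiag {X : Module.End K V}
    (hX : ∀ j k i l, l ≠ i → l ≠ i - 1 → co b k l (X (e j i)) = 0) (j : J) (i : ℤ)
    (hi : 0 ≤ i ∧ i ≤ d) :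
    X (e j i) = ∑ k, (xc b e X j k i • e k i + yc b e X j k i • e k (i - 1)) := by
  conv_lhs => rw [recon S (X (e j i))]
  refine Finset.sum_congr rfl fun k _ => ?_
  by_cases h0 : i = 0
  · subst h0
    have h1 : yc b e X j k 0 = 0 := by unfold yc; rw [co_of_not_mem (by omega)]
    rw [h1, zero_smul, add_zero, Finset.sum_eq_single 0]
    · rfl
    · intro l hl hne
      rw [Finset.mem_Icc] at hl
      rw [hX j k 0 l hne (by omega), zero_smul]
    · intro hh; exfalso; apply hh; rw [Finset.mem_Icc]; omega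
  · have h1 : ({i, i - 1} : Finset ℤ) ⊆ Finset.Icc (0 : ℤ) d := by
      intro l' hl'
      simp only [Finset.mem_insert, Finset.mem_singleton] at hl'
      rw [Finset.mem_Icc]; omega
    rw [← Finset.sum_subset h1]
    · rw [Finset.sum_pair (by omega)]; rfl
    · intro l' _ hl'
      simp only [Finset.mem_insert, Finset.mem_singleton, not_or] at hl'
      rw [hX j k i l' hl'.1 hl'.2, zero_smul]

variable {β : K} (hβ : ∀ i : ℤ, 0 ≤ i → i + 3 ≤ d →
    θ (i + 3) = (β + 1) * θ (i + 2) - (β + 1) * θ (i + 1) + θ i)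
include hβ

/-- the block condition in explicit form -/
lemma TT_iff_block {X : Module.End K V}
    (hX : ∀ j k i l, l ≠ i → l ≠ i - 1 → co b k l (X (e j i)) = 0) (j k : J) :
    TT b e θ X j k ↔ ∃ x y : ℤ → K, Block β θ d (r j) (r k) x y ∧
      Agree (K := K) d (r j) (r k) x y (xc b e X j k) (yc b e X j k) := by
  rcases Nat.lt_or_ge (r k) (r j) with h1 | h1
  · rw [TT_iff_high S hX h1.le]
    exact high_iff h.ord.injOn hβ (S.hr j) (S.hr k) h1 (fun i hi => xc_zero S hX hi)
      (fun i hi => yc_zero S hX hi)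
  · rw [TT_iff_low S hX h1]
    exact low_iff h.ord.injOn hβ (S.hr j) (S.hr k) h1 (fun i hi => xc_zero S hX hi)
      (fun i hi => yc_zero S hX hi)

/-- The classification. -/
theorem mem_XSpace_iff (X : Module.End K V) :
    X ∈ XSpace A As d δ θ θs ↔ ∃ x y : J → J → ℤ → K,
      (∀ j k, Block β θ d (r j) (r k) (x j k) (y j k)) ∧
      ∀ j i, (r j : ℤ) ≤ i → i ≤ d - r j →
        X (e j i) = ∑ k, (x j k i • e k i + y j k i • e k (i - 1)) := by
  constructor
  · intro hX
    have hbi := bidiag_of_mem h S hU hX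
    have hTT := (tri_iff_TT h S hU X).mp hX.2
    have hbl : ∀ j k, ∃ x y : ℤ → K, Block β θ d (r j) (r k) x y ∧
      Agree (K := K) d (r j) (r k) x y (xc b e X j k) (yc b e X j k) :=
      fun j k => (TT_iff_block h S hU hβ hbi j k).mp (hTT j k)
    choose x y hb hag using hbl
    refine ⟨x, y, hb, fun j i h1 h2 => ?_⟩
    rw [recon_bidiag h S hU hbi j i (by omega)]
    refine Finset.sum_congr rfl fun k _ => ?_
    congr 1
    · by_cases hk : (r k : ℤ) ≤ i ∧ i ≤ d - r k
      · rw [(hag j k i h1 h2).1 hk.1 hk.2]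
      · rw [S.he0 k i hk]; simp
    · by_cases hk : (r k : ℤ) ≤ i - 1 ∧ i - 1 ≤ d - r k
      · rw [(hag j k i h1 h2).2 hk.1 hk.2]
      · rw [S.he0 k (i - 1) hk]; simp
  · rintro ⟨x, y, hb, hform⟩
    have hco : ∀ j k i l, (r j : ℤ) ≤ i → i ≤ d - r j →
        co b k l (X (e j i)) = x j k i * co b k l (e k i) + y j k i * co b k l (e k (i - 1)) := by
      intro j k i l h1 h2
      rw [hform j i h1 h2, map_sum, Finset.sum_eq_single k]
      · rw [map_add, map_smul, map_smul]; rfl
      · intro k' _ hk'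
        rw [map_add, map_smul, map_smul, co_e_ne S (fun hh => hk' hh.1.symm),
          co_e_ne S (fun hh => hk' hh.1.symm)]
        simp
      · intro hh; exact absurd (Finset.mem_univ k) hh
    have hbi : ∀ j k i l, l ≠ i → l ≠ i - 1 → co b k l (X (e j i)) = 0 := by
      intro j k i l h1 h2
      by_cases hi : (r j : ℤ) ≤ i ∧ i ≤ d - r j
      · rw [hco j k i l hi.1 hi.2, co_e_ne S (fun hh => h1 hh.2), co_e_ne S (fun hh => h2 hh.2)]
        ring
      · rw [S.he0 j i hi]; simp
    refine ⟨?_, ?_⟩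
    · intro i v hv
      have hv' : v ∈ flag As δ θs i := eigSp_le_flag le_rfl hv
      rw [flag_eq_span h S hU i] at hv'
      have hle : Submodule.span K {x | ∃ j l, l ≤ i ∧ x = e j l} ≤
          (flag As δ θs i).comap X := by
        rw [Submodule.span_le]
        rintro w ⟨j, l, hl, rfl⟩
        show X (e j l) ∈ flag As δ θs i
        by_cases hjl : (r j : ℤ) ≤ l ∧ l ≤ d - r j
        · rw [hform j l hjl.1 hjl.2]
          refine Submodule.sum_mem _ fun k _ => Submodule.add_mem _
            (Submodule.smul_mem _ _ (flag_mono hl (hU k l).1))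
            (Submodule.smul_mem _ _ (flag_mono (by omega) (hU k (l - 1)).1))
        · rw [S.he0 j l hjl, map_zero]; exact Submodule.zero_mem _
      exact hle hv'
    · rw [tri_iff_TT h S hU X]
      intro j k
      rw [TT_iff_block h S hU hβ hbi j k]
      refine ⟨x j k, y j k, hb j k, fun i h1 h2 => ⟨fun h3 h4 => ?_, fun h3 h4 => ?_⟩⟩
      · unfold xc
        rw [hco j k i i h1 h2, co_e_self S ⟨h3, h4⟩, co_e_ne S (fun hh => by omega)]
        ring
      · unfold yc
        rw [hco j k i (i - 1) h1 h2, co_e_self S ⟨h3, h4⟩, co_e_ne S (fun hh => by omega)]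
        ring

end

end Pool.Agent.Lib.MP_b7840d_al
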