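import Mathlib
import Pool.Agent.Lib.MP_b7840d_al.Final

set_option autoImplicit false
set_option linter.unusedSectionVars false

namespace Pool.Agent.Lib.MP_b7840d_al

/-- positions whose coefficients parametrize a block; `false` is for `x`, `true` is for `y` -/
def Pos (d r s : ℕ) : Finset (Bool × ℤ) :=
  if r ≤ s then
    ((Finset.range (min (3 - (s - r)) (d - 2 * s + 1))).image
      (fun a : ℕ => ((false, (s : ℤ) + a) : Bool × ℤ))) ∪
      (if s = r + 1 ∨ (s = r ∧ 1 ≤ d - 2 * s) then {(true, (s : ℤ) + 1)} else ∅)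
  else
    ((Finset.range (min (3 - (r - s)) (d - 2 * r + 1))).image
      (fun a : ℕ => ((false, (d : ℤ) - r - a) : Bool × ℤ))) ∪
      (if r = s + 1 then {(true, (d : ℤ) - r)} else ∅)

lemma Pos_valid {d r s : ℕ} (hr : 2 * r ≤ d) (hs : 2 * s ≤ d) {p : Bool × ℤ}
    (hp : p ∈ Pos d r s) : (r : ℤ) ≤ p.2 ∧ p.2 ≤ d - r ∧
      (p.1 = false → (s : ℤ) ≤ p.2 ∧ p.2 ≤ d - s) ∧
      (p.1 = true → (s : ℤ) ≤ p.2 - 1 ∧ p.2 - 1 ≤ d - s) := by
  unfold Pos at hp
  split_ifs at hp with h1 h2 h3
  · rw [Finset.mem_union, Finset.mem_image] at hp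
    rcases hp with ⟨a, ha, rfl⟩ | hp
    · rw [Finset.mem_range] at ha
      refine ⟨by simp only; omega, by simp only; omega, fun _ => by simp only; omega,
        fun hh => by simp at hh⟩
    · rw [Finset.mem_singleton] at hp
      subst hp
      refine ⟨by simp only; omega, by simp only; omega, fun hh => by simp at hh,
        fun _ => by simp only; omega⟩
  · rw [Finset.union_empty, Finset.mem_image] at hp
    obtain ⟨a, ha, rfl⟩ := hp
    rw [Finset.mem_range] at ha
    refine ⟨by simp only; omega, by simp only; omega, fun _ => by simp only; omega,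
      fun hh => by simp at hh⟩
  · rw [Finset.mem_union, Finset.mem_image] at hp
    rcases hp with ⟨a, ha, rfl⟩ | hp
    · rw [Finset.mem_range] at ha
      refine ⟨by simp only; omega, by simp only; omega, fun _ => by simp only; omega,
        fun hh => by simp at hh⟩
    · rw [Finset.mem_singleton] at hp
      subst hp
      refine ⟨by simp only; omega, by simp only; omega, fun hh => by simp at hh,
        fun _ => by simp only; omega⟩
  · rw [Finset.union_empty, Finset.mem_image] at hp
    obtain ⟨a, ha, rfl⟩ := hp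
    rw [Finset.mem_range] at ha
    refine ⟨by simp only; omega, by simp only; omega, fun _ => by simp only; omega,
      fun hh => by simp at hh⟩

lemma Pos_card (d r s : ℕ) : (Pos d r s).card =
    if r ≤ s then min (3 - (s - r)) (d - 2 * s + 1) +
      (if s = r + 1 ∨ (s = r ∧ 1 ≤ d - 2 * s) then 1 else 0)
    else min (3 - (r - s)) (d - 2 * r + 1) + (if r = s + 1 then 1 else 0) := by
  unfold Pos
  have hinj1 : Function.Injective (fun a : ℕ => ((false, (s : ℤ) + a) : Bool × ℤ)) := by
    intro a c h; simp only [Prod.mk.injEq, true_and] at h; omega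
  have hinj2 : Function.Injective (fun a : ℕ => ((false, (d : ℤ) - r - a) : Bool × ℤ)) := by
    intro a c h; simp only [Prod.mk.injEq, true_and] at h; omega
  split_ifs with h1 h2 h3
  · rw [Finset.card_union_of_disjoint, Finset.card_image_of_injective _ hinj1,
      Finset.card_range, Finset.card_singleton]
    rw [Finset.disjoint_singleton_right, Finset.mem_image]
    rintro ⟨a, _, ha⟩
    simp at ha
  · rw [Finset.union_empty, Finset.card_image_of_injective _ hinj1, Finset.card_range, add_zero]
  · rw [Finset.card_union_of_disjoint, Finset.card_image_of_injective _ hinj2,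
      Finset.card_range, Finset.card_singleton]
    rw [Finset.disjoint_singleton_right, Finset.mem_image]
    rintro ⟨a, _, ha⟩
    simp at ha
  · rw [Finset.union_empty, Finset.card_image_of_injective _ hinj2, Finset.card_range, add_zero]

open scoped Classical in
lemma pair_count (d : ℕ) (r s : ℤ) (n : ℕ) (hr : 0 ≤ r) :
    ∑ i ∈ Finset.Icc (0 : ℤ) d, ((if r ≤ i ∧ i ≤ d - r then 1 else 0) *
      (if s ≤ i + n ∧ i + n ≤ d - s then 1 else 0) : ℤ) =
    ((min (d - r) (d - s - n) + 1 - max r (s - n)).toNat : ℤ) := by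
  have h1 : ∀ i ∈ Finset.Icc (0 : ℤ) d, ((if r ≤ i ∧ i ≤ d - r then 1 else 0) *
      (if s ≤ i + n ∧ i + n ≤ d - s then 1 else 0) : ℤ) =
      if (r ≤ i ∧ i ≤ d - r) ∧ (s ≤ i + n ∧ i + n ≤ d - s) then 1 else 0 := by
    intro i _
    rw [ite_mul, one_mul, zero_mul, ← ite_and]
  rw [Finset.sum_congr rfl h1, Finset.sum_boole]
  have h2 : (Finset.Icc (0 : ℤ) d).filter (fun i => (r ≤ i ∧ i ≤ d - r) ∧
      (s ≤ i + n ∧ i + n ≤ d - s)) = Finset.Icc (max r (s - n)) (min (d - r) (d - s - n)) := by
    ext i
    simp only [Finset.mem_filter, Finset.mem_Icc, max_le_iff, le_min_iff]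
    omega
  rw [h2, Int.card_Icc]

open scoped Classical in
lemma Pos_card_eq {d r s : ℕ} (hr : 2 * r ≤ d) (hs : 2 * s ≤ d) :
    ∑ i ∈ Finset.Icc (0 : ℤ) d, ((if (r : ℤ) ≤ i ∧ i ≤ d - r then 1 else 0) *
      ((if (s : ℤ) ≤ i ∧ i ≤ d - s then 1 else 0) +
       (if (s : ℤ) ≤ i + 1 ∧ i + 1 ≤ d - s then 1 else 0) -
       (if (s : ℤ) ≤ i + 2 ∧ i + 2 ≤ d - s then 1 else 0) -
       (if (s : ℤ) ≤ i + 3 ∧ i + 3 ≤ d - s then 1 else 0)) : ℤ) = ((Pos d r s).card : ℤ) := by
  have e0 := pair_count d r s 0 (by omega)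
  have e1 := pair_count d r s 1 (by omega)
  have e2 := pair_count d r s 2 (by omega)
  have e3 := pair_count d r s 3 (by omega)
  simp only [Nat.cast_zero, add_zero, Nat.cast_one, Nat.cast_ofNat, sub_zero] at e0 e1 e2 e3
  simp only [mul_sub, mul_add, Finset.sum_sub_distrib, Finset.sum_add_distrib]
  rw [e0, e1, e2, e3, Pos_card]
  split_ifs with h1 h2 h3
  · omega
  · omega
  · omega
  · omega

variable {K : Type*} [Field K]

section blocks

variable {β : K} {θ : ℤ → K} {d : ℕ} (hinj : Set.InjOn θ (Set.Icc 0 (d : ℤ)))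
include hinj

/-- existence of a block with prescribed parameters -/
lemma block_exists {r s : ℕ} (hr : 2 * r ≤ d) (hs : 2 * s ≤ d) (f : Bool × ℤ → K) :
    ∃ x y : ℤ → K, Block β θ d r s x y ∧
      ∀ p ∈ Pos d r s, (if p.1 then y p.2 else x p.2) = f p := by
  rcases Nat.lt_or_ge s r with hsr | hsr
  · -- s < r
    rcases (show r = s + 1 ∨ r = s + 2 ∨ s + 3 ≤ r by omega) with h1 | h1 | h1
    · subst h1
      obtain ⟨x, hx, x0, x1, x2⟩ := exists_betaRec β (d - s - 2) (f (false, d - (s + 1) - 1))
        (f (false, d - (s + 1))) 0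
      obtain ⟨z, hz, z0, z1, z2⟩ := exists_betaRec β (d - s - 1)
        (f (true, d - (s + 1)) - x (d - s - 2) * (θ (d - s - 1) - θ (d - s))) 0 0
      rw [show (d : ℤ) - s - 2 + 1 = d - s - 1 by ring] at x1
      rw [show (d : ℤ) - s - 2 + 2 = d - s by ring] at x2
      rw [show (d : ℤ) - s - 1 + 1 = d - s by ring] at z1
      rw [show (d : ℤ) - s - 1 + 2 = d - s + 1 by ring] at z2
      refine ⟨x, fun i => x (i - 1) * (θ i - θ (d - s)) + z i, ⟨hx, Or.inr (Or.inr (Or.inr
        (Or.inl ⟨by push_cast; ring, x2, z, hz, z1, z2, fun i _ _ => rfl⟩)))⟩, ?_⟩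
      intro p hp
      unfold Pos at hp
      rw [if_neg (by omega), if_pos rfl, Finset.mem_union, Finset.mem_image] at hp
      rcases hp with ⟨a, ha, rfl⟩ | hp
      · rw [Finset.mem_range] at ha
        have ha' : a = 0 ∨ a = 1 := by omega
        rcases ha' with rfl | rfl
        · simp only [Bool.false_eq_true, if_false, Nat.cast_zero, sub_zero]
          push_cast
          rw [← x1]; congr 1; ring
        · simp only [Bool.false_eq_true, if_false, Nat.cast_one]
          push_cast
          rw [← x0]; congr 1; ring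
      · rw [Finset.mem_singleton] at hp
        subst hp
        simp only [if_true]
        push_cast
        rw [show (d : ℤ) - (s + 1) - 1 = d - s - 2 by ring,
          show (d : ℤ) - (s + 1) = d - s - 1 by ring, z0,
          show (d : ℤ) - (s + 1) = d - s - 1 by ring]
        ring
    · subst h1
      obtain ⟨x, hx, x0, x1, x2⟩ := exists_betaRec β (d - s - 2) (f (false, d - (s + 2))) 0 0
      rw [show (d : ℤ) - s - 2 + 1 = d - s - 1 by ring] at x1
      rw [show (d : ℤ) - s - 2 + 2 = d - s by ring] at x2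
      refine ⟨x, fun i => x (i - 1) * (θ i - θ (d - s - 1)), ⟨hx, Or.inr (Or.inr (Or.inr
        (Or.inr (Or.inl ⟨by push_cast; ring, x2, x1, fun i _ _ => rfl⟩))))⟩, ?_⟩
      intro p hp
      unfold Pos at hp
      rw [if_neg (by omega), if_neg (by omega), Finset.union_empty, Finset.mem_image] at hp
      obtain ⟨a, ha, rfl⟩ := hp
      rw [Finset.mem_range] at ha
      obtain rfl : a = 0 := by omega
      simp only [Bool.false_eq_true, if_false, Nat.cast_zero, sub_zero]
      push_cast
      rw [← x0]; congr 1; ring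
    · refine ⟨fun _ => 0, fun _ => 0, ⟨fun i => by simp, Or.inr (Or.inr (Or.inr (Or.inr (Or.inr
        ⟨?_, fun i => ⟨rfl, rfl⟩⟩))))⟩, ?_⟩
      · rw [lt_abs]; right; omega
      · intro p hp
        unfold Pos at hp
        rw [if_neg (by omega), if_neg (by omega), Finset.union_empty, Finset.mem_image] at hp
        obtain ⟨a, ha, rfl⟩ := hp
        rw [Finset.mem_range] at ha
        omega
  · rcases (show s = r ∨ s = r + 1 ∨ s = r + 2 ∨ r + 3 ≤ s by omega) with h1 | h1 | h1 | h1
    · subst h1
      obtain ⟨x, hx, x0, x1, x2⟩ := exists_betaRec β s (f (false, s)) (f (false, s + 1))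
        (f (false, s + 2))
      set c : K := (f (true, s + 1) - (x (s + 1) - x s) * (θ s - θ (d - s))) /
        (θ s - θ (d - s)) with hc
      refine ⟨x, fun i => (x i - x s) * (θ (i - 1) - θ (d - s)) +
          c * ∑ h ∈ Finset.Ico (s : ℤ) i, (θ h - θ (d - h)), ⟨hx, Or.inl
          ⟨rfl, c, fun i _ _ => rfl⟩⟩, ?_⟩
      intro p hp
      unfold Pos at hp
      rw [if_pos le_rfl, Finset.mem_union, Finset.mem_image] at hp
      rcases hp with ⟨a, ha, rfl⟩ | hp
      · rw [Finset.mem_range] at ha
        have ha' : a = 0 ∨ a = 1 ∨ a = 2 := by omega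
        rcases ha' with rfl | rfl | rfl
        · simp only [Bool.false_eq_true, if_false, Nat.cast_zero, add_zero]; exact x0
        · simp only [Bool.false_eq_true, if_false, Nat.cast_one]; exact x1
        · simp only [Bool.false_eq_true, if_false, Nat.cast_ofNat]; exact x2
      · split_ifs at hp with h2
        · rw [Finset.mem_singleton] at hp
          subst hp
          simp only [if_true]
          have hne : θ s - θ (d - s) ≠ 0 := by
            refine sub_ne_zero.mpr fun he => ?_
            have := hinj (by simp only [Set.mem_Icc]; omega) (by simp only [Set.mem_Icc]; omega)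
              he
            omega
          have hsum : ∑ h ∈ Finset.Ico (s : ℤ) (s + 1), (θ h - θ (d - h)) =
              θ s - θ (d - s) := by
            have : Finset.Ico (s : ℤ) (s + 1) = {(s : ℤ)} := by
              ext i; simp only [Finset.mem_Ico, Finset.mem_singleton]; omega
            rw [this, Finset.sum_singleton]
          rw [hsum, hc, div_mul_cancel₀ _ hne, add_sub_cancel_right]
          ring
        · simp at hp
    · subst h1
      obtain ⟨x, hx, x0, x1, x2⟩ := exists_betaRec β r 0 (f (false, r + 1))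
        (f (false, r + 1 + 1))
      obtain ⟨z, hz, z0, z1, z2⟩ := exists_betaRec β r 0 0
        (f (true, r + 1 + 1) - x (r + 2) * (θ (r + 1) - θ r))
      refine ⟨x, fun i => x i * (θ (i - 1) - θ r) + z i, ⟨hx, Or.inr (Or.inl
        ⟨by push_cast; ring, x0, z, hz, z0, z1, fun i _ _ => rfl⟩)⟩, ?_⟩
      intro p hp
      unfold Pos at hp
      rw [if_pos (by omega), if_pos (Or.inl rfl), Finset.mem_union, Finset.mem_image] at hp
      rcases hp with ⟨a, ha, rfl⟩ | hp
      · rw [Finset.mem_range] at ha
        have ha' : a = 0 ∨ a = 1 := by omega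
        rcases ha' with rfl | rfl
        · simp only [Bool.false_eq_true, if_false, Nat.cast_zero, add_zero]
          push_cast
          exact x1
        · simp only [Bool.false_eq_true, if_false, Nat.cast_one]
          push_cast
          rw [← x2]; congr 1
      · rw [Finset.mem_singleton] at hp
        subst hp
        simp only [if_true]
        push_cast
        rw [show (r : ℤ) + 1 + 1 - 1 = r + 1 by ring,
          show (r : ℤ) + 1 + 1 = r + 2 by ring, z2,
          show (r : ℤ) + 1 + 1 = r + 2 by ring]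
        ring
    · subst h1
      obtain ⟨x, hx, x0, x1, x2⟩ := exists_betaRec β r 0 0 (f (false, r + 2))
      refine ⟨x, fun i => x i * (θ (i - 1) - θ (r + 1)), ⟨hx, Or.inr (Or.inr
        (Or.inl ⟨by push_cast; ring, x0, x1, fun i _ _ => rfl⟩))⟩, ?_⟩
      intro p hp
      unfold Pos at hp
      rw [if_pos (by omega), if_neg (by omega), Finset.union_empty, Finset.mem_image] at hp
      obtain ⟨a, ha, rfl⟩ := hp
      rw [Finset.mem_range] at ha
      obtain rfl : a = 0 := by omega
      simp only [Bool.false_eq_true, if_false, Nat.cast_zero, add_zero]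
      push_cast
      exact x2
    · refine ⟨fun _ => 0, fun _ => 0, ⟨fun i => by simp, Or.inr (Or.inr (Or.inr (Or.inr (Or.inr
        ⟨?_, fun i => ⟨rfl, rfl⟩⟩))))⟩, ?_⟩
      · rw [lt_abs]; left; omega
      · intro p hp
        unfold Pos at hp
        rw [if_pos (by omega), if_neg (by omega), Finset.union_empty, Finset.mem_image] at hp
        obtain ⟨a, ha, rfl⟩ := hp
        rw [Finset.mem_range] at ha
        omega

variable (hrec : ∀ i : ℤ, 0 ≤ i → i + 3 ≤ d →
    θ (i + 3) = (β + 1) * θ (i + 2) - (β + 1) * θ (i + 1) + θ i)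
include hrec

/-- uniqueness -/
lemma block_unique {r s : ℕ} (hr : 2 * r ≤ d) (hs : 2 * s ≤ d) {X Y : ℤ → K}
    (hX : ∀ i : ℤ, ¬ ((r : ℤ) ≤ i ∧ i ≤ d - r) ∨ ¬ ((s : ℤ) ≤ i ∧ i ≤ d - s) → X i = 0)
    (hY : ∀ i : ℤ, ¬ ((r : ℤ) ≤ i ∧ i ≤ d - r) ∨ ¬ ((s : ℤ) ≤ i - 1 ∧ i - 1 ≤ d - s) →
      Y i = 0)
    (hB : ∃ x y : ℤ → K, Block β θ d r s x y ∧ Agree (K := K) d r s x y X Y)
    (hP : ∀ p ∈ Pos d r s, (if p.1 then Y p.2 else X p.2) = 0) :
    (∀ i, X i = 0) ∧ (∀ i, Y i = 0) := by
  rcases Nat.lt_or_ge s r with hsr | hsr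
  · -- high
    rw [← high_iff hinj hrec hr hs hsr hX hY] at hB
    obtain ⟨γ, ρ, H⟩ := nodes_ndr hinj hrec hs
    have hx1 : r = s + 1 → X (d - r) = 0 := by
      rintro rfl
      have := hP (false, (d : ℤ) - (s + 1 : ℕ)) (by
        unfold Pos
        rw [if_neg (by omega), Finset.mem_union, Finset.mem_image]
        left; exact ⟨0, by rw [Finset.mem_range]; omega, by simp⟩)
      simpa using this
    have hx1' : r = s + 1 → X (d - r - 1) = 0 := by
      rintro rfl
      by_cases hd : 1 ≤ d - 2 * (s + 1)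
      · have := hP (false, (d : ℤ) - (s + 1 : ℕ) - 1) (by
          unfold Pos
          rw [if_neg (by omega), Finset.mem_union, Finset.mem_image]
          left; exact ⟨1, by rw [Finset.mem_range]; omega, by simp⟩)
        simpa using this
      · exact hX _ (Or.inl (by omega))
    have hy1 : r = s + 1 → Y (d - r) = 0 := by
      rintro rfl
      have := hP (true, (d : ℤ) - (s + 1 : ℕ)) (by
        unfold Pos
        rw [if_neg (by omega), if_pos rfl, Finset.mem_union]
        right; simp)
      simpa using this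
    have hx2 : r = s + 2 → X (d - r) = 0 := by
      rintro rfl
      have := hP (false, (d : ℤ) - (s + 2 : ℕ)) (by
        unfold Pos
        rw [if_neg (by omega), Finset.mem_union, Finset.mem_image]
        left; exact ⟨0, by rw [Finset.mem_range]; omega, by simp⟩)
      simpa using this
    have g0 : X (d - s - (0 : ℕ)) = 0 := hX _ (Or.inl (by omega))
    have g1 : X (d - s - (1 : ℕ)) = 0 := by
      by_cases h : r = s + 1
      · have := hx1 h
        rw [show (d : ℤ) - s - (1 : ℕ) = d - r by omega]; exact this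
      · exact hX _ (Or.inl (by omega))
    have g2 : X (d - s - (2 : ℕ)) = 0 := by
      by_cases h : r = s + 1
      · have := hx1' h
        rw [show (d : ℤ) - s - (2 : ℕ) = d - r - 1 by omega]; exact this
      · by_cases h' : r = s + 2
        · have := hx2 h'
          rw [show (d : ℤ) - s - (2 : ℕ) = d - r by omega]; exact this
        · exact hX _ (Or.inl (by omega))
    have f0 : Y (d - s - (0 : ℕ) + 1) = 0 := hY _ (Or.inl (by omega))
    have f1 : Y (d - s - (1 : ℕ) + 1) = 0 := hY _ (Or.inl (by omega))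
    have f2 : Y (d - s - (2 : ℕ) + 1) = 0 := by
      by_cases h : r = s + 1
      · have := hy1 h
        rw [show (d : ℤ) - s - (2 : ℕ) + 1 = d - r by omega]; exact this
      · exact hY _ (Or.inl (by omega))
    obtain ⟨k1, k2⟩ := nec_pos H (show 1 ≤ r - s by omega) hB g0 g1 g2 f0 f1 f2
      (hY _ (Or.inl (by omega)))
    refine ⟨fun i => ?_, fun i => ?_⟩
    · by_cases hi : ((r : ℤ) ≤ i ∧ i ≤ d - r)
      · have := k1 (d - s - i : ℤ).toNat (by omega) (by omega)
        rwa [show (d : ℤ) - s - ((d - s - i : ℤ).toNat : ℤ) = i by omega] at this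
      · exact hX i (Or.inl hi)
    · by_cases hi : ((r : ℤ) ≤ i ∧ i ≤ d - r)
      · have := k2 (d - s + 1 - i : ℤ).toNat (by omega) (by omega) (by omega)
        rwa [show (d : ℤ) - s - ((d - s + 1 - i : ℤ).toNat : ℤ) + 1 = i by omega] at this
      · exact hY i (Or.inl hi)
  · rw [← low_iff hinj hrec hr hs hsr hX hY] at hB
    obtain ⟨γ, ρ, H⟩ := nodes_nd hinj hrec hr
    have hPf : ∀ a : ℕ, a < min (3 - (s - r)) (d - 2 * s + 1) → X (s + a) = 0 := by
      intro a ha
      have := hP (false, (s : ℤ) + a) (by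
        unfold Pos
        rw [if_pos hsr, Finset.mem_union, Finset.mem_image]
        left; exact ⟨a, by rw [Finset.mem_range]; exact ha, rfl⟩)
      simpa using this
    have hPt : (s = r + 1 ∨ (s = r ∧ 1 ≤ d - 2 * s)) → Y (s + 1) = 0 := by
      intro hc
      have := hP (true, (s : ℤ) + 1) (by
        unfold Pos
        rw [if_pos hsr, if_pos hc, Finset.mem_union]
        right; simp)
      simpa using this
    have gX : ∀ a : ℕ, a ≤ 2 → X (r + a) = 0 := by
      intro a ha
      by_cases h : s ≤ r + a ∧ (r : ℤ) + a ≤ d - s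
      · have := hPf (r + a - s) (by omega)
        rwa [show (s : ℤ) + ((r + a - s : ℕ) : ℤ) = r + a by omega] at this
      · exact hX _ (Or.inr (by omega))
    have gY : ∀ a : ℕ, a ≤ 1 ∨ (a = 2 ∧ s ≠ r) → Y (r + a) = 0 := by
      intro a ha
      by_cases h : (s = r + 1 ∨ (s = r ∧ 1 ≤ d - 2 * s)) ∧ r + a = s + 1
      · have := hPt h.1
        rwa [show (r : ℤ) + a = s + 1 by omega]
      · exact hY _ (by omega)
    rcases Nat.eq_zero_or_pos (s - r) with h0 | h0
    · have hrs : s = r := by omega
      subst hrs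
      rcases Nat.lt_or_ge (d - 2 * s) 2 with hd2 | hd2
      · refine ⟨fun i => ?_, fun i => ?_⟩
        · by_cases hi : ((s : ℤ) ≤ i ∧ i ≤ d - s)
          · have := gX (i - s).toNat (by omega)
            rwa [show (s : ℤ) + ((i - s).toNat : ℤ) = i by omega] at this
          · exact hX i (Or.inl hi)
        · by_cases hi : ((s : ℤ) ≤ i ∧ i ≤ d - s)
          · have := gY (i - s).toNat (by omega)
            rwa [show (s : ℤ) + ((i - s).toNat : ℤ) = i by omega] at this
          · exact hY i (Or.inl hi)
      · rw [Nat.sub_self] at hB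
        obtain ⟨k1, k2⟩ := nec_zero H hd2 hB (gX 0 (by omega)) (gX 1 (by omega))
          (gX 2 (by omega)) (gY 0 (by omega)) (gY 1 (by omega))
        refine ⟨fun i => ?_, fun i => ?_⟩
        · by_cases hi : ((s : ℤ) ≤ i ∧ i ≤ d - s)
          · have := k1 (i - s).toNat (by omega)
            rwa [show (s : ℤ) + ((i - s).toNat : ℤ) = i by omega] at this
          · exact hX i (Or.inl hi)
        · by_cases hi : ((s : ℤ) ≤ i ∧ i ≤ d - s)
          · have := k2 (i - s).toNat (by omega)
            rwa [show (s : ℤ) + ((i - s).toNat : ℤ) = i by omega] at this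
          · exact hY i (Or.inl hi)
    · obtain ⟨k1, k2⟩ := nec_pos H (show 1 ≤ s - r by omega) hB (gX 0 (by omega))
        (gX 1 (by omega)) (gX 2 (by omega)) (gY 0 (by omega)) (gY 1 (by omega))
        (gY 2 (by omega)) (hY _ (Or.inr (by omega)))
      refine ⟨fun i => ?_, fun i => ?_⟩
      · by_cases hi : ((s : ℤ) ≤ i ∧ i ≤ d - s)
        · have := k1 (i - r).toNat (by omega) (by omega)
          rwa [show (r : ℤ) + ((i - r).toNat : ℤ) = i by omega] at this
        · exact hX i (Or.inr hi)
      · by_cases hi : ((s : ℤ) ≤ i - 1 ∧ i - 1 ≤ d - s)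
        · have := k2 (i - r).toNat (by omega) (by omega) (by omega)
          rwa [show (r : ℤ) + ((i - r).toNat : ℤ) = i by omega] at this
        · exact hY i (Or.inr hi)

end blocks

end Pool.Agent.Lib.MP_b7840d_al
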