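import Mathlib
import Pool.Agent.Lib.MP_b7840d_al.Dim

set_option autoImplicit false
set_option linter.unusedSectionVars false

namespace Pool.Agent.Lib.MP_b7840d_al

variable {K V : Type*} [Field K] [AddCommGroup V] [Module K V]
variable {A As : Module.End K V} {d δ : ℕ} {θ θs : ℤ → K} {J : Type} [Fintype J] {r : J → ℕ}
  {e : J → ℤ → V} {b : Module.Basis (Idx d r) K V}

/-- index type of the parameters -/
abbrev PIdx (d : ℕ) (r : J → ℕ) : Type :=
  Σ jk : J × J, {p : Bool × ℤ // p ∈ Pos d (r jk.1) (r jk.2)}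

/-- evaluation of the parameters -/
noncomputable def evalP (b : Module.Basis (Idx d r) K V) (e : J → ℤ → V)
    (W : Submodule K (Module.End K V)) : W →ₗ[K] (PIdx d r → K) where
  toFun X p := if p.2.1.1 then yc b e X.1 p.1.1 p.1.2 p.2.1.2 else xc b e X.1 p.1.1 p.1.2 p.2.1.2
  map_add' X Y := by
    funext p
    simp only [Submodule.coe_add, xc, yc, LinearMap.add_apply, map_add, Pi.add_apply]
    split_ifs <;> rfl
  map_smul' c X := by
    funext p
    simp only [Submodule.coe_smul, xc, yc, LinearMap.smul_apply, map_smul, Pi.smul_apply,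
      RingHom.id_apply]
    split_ifs <;> rfl

section

variable (h : IsTridiagonalPair A As d δ θ θs) (S : StrBasis A d θ r e b)
  (hU : ∀ j i, e j i ∈ splitSp A As d δ θ θs i)
include h S hU

variable {β : K} (hβ : ∀ i : ℤ, 0 ≤ i → i + 3 ≤ d →
    θ (i + 3) = (β + 1) * θ (i + 2) - (β + 1) * θ (i + 1) + θ i)
include hβ

lemma evalP_bijective :
    Function.Bijective (evalP b e (XSpace A As d δ θ θs)) := by
  classical
  constructor
  · rw [← LinearMap.ker_eq_bot, LinearMap.ker_eq_bot']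
    rintro ⟨X, hX⟩ h0
    apply Subtype.ext
    have hbi := bidiag_of_mem h S hU hX
    have hTT := (tri_iff_TT h S hU X).mp hX.2
    have hz : ∀ j k, (∀ i, xc b e X j k i = 0) ∧ (∀ i, yc b e X j k i = 0) := by
      intro j k
      refine block_unique h.ord.injOn hβ (S.hr j) (S.hr k) (fun i hi => xc_zero S hbi hi)
        (fun i hi => yc_zero S hbi hi) ((TT_iff_block h S hU hβ hbi j k).mp (hTT j k)) ?_
      intro p hp
      have := congrFun h0 ⟨(j, k), ⟨p, hp⟩⟩
      exact this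
    refine b.ext fun p => ?_
    rw [S.hb p, recon_bidiag h S hU hbi p.1.1 p.1.2 (by have := p.2; omega)]
    simp only [(hz _ _).1, (hz _ _).2, zero_smul, add_zero, Finset.sum_const_zero]
    rfl
  · intro f
    have hex : ∀ j k, ∃ x y : ℤ → K, Block β θ d (r j) (r k) x y ∧
        ∀ p (hp : p ∈ Pos d (r j) (r k)), (if p.1 then y p.2 else x p.2) =
          f ⟨(j, k), ⟨p, hp⟩⟩ := by
      intro j k
      obtain ⟨x, y, h1, h2⟩ := block_exists (β := β) h.ord.injOn (S.hr j) (S.hr k)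
        (fun p => if hp : p ∈ Pos d (r j) (r k) then f ⟨(j, k), ⟨p, hp⟩⟩ else 0)
      refine ⟨x, y, h1, fun p hp => ?_⟩
      rw [h2 p hp, dif_pos hp]
    choose x y hB hf using hex
    let X : Module.End K V := b.constr K (fun p => ∑ k, (x p.1.1 k p.1.2 • e k p.1.2 +
      y p.1.1 k p.1.2 • e k (p.1.2 - 1)))
    have hXe : ∀ j i, (r j : ℤ) ≤ i → i ≤ d - r j →
        X (e j i) = ∑ k, (x j k i • e k i + y j k i • e k (i - 1)) := by
      intro j i h1 h2
      have h3 : e j i = b ⟨(j, i), h1, h2⟩ := (S.hb ⟨(j, i), h1, h2⟩).symm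
      rw [h3]
      simp only [X]
      rw [Module.Basis.constr_basis]
    have hXm : X ∈ XSpace A As d δ θ θs := (mem_XSpace_iff h S hU hβ X).mpr ⟨x, y, hB, hXe⟩
    refine ⟨⟨X, hXm⟩, ?_⟩
    funext p
    obtain ⟨⟨j, k⟩, ⟨p, hp⟩⟩ := p
    have hv := Pos_valid (S.hr j) (S.hr k) hp
    have hco : ∀ i l, (r j : ℤ) ≤ i → i ≤ d - r j →
        co b k l (X (e j i)) = x j k i * co b k l (e k i) + y j k i * co b k l (e k (i - 1)) := by
      intro i l h1 h2
      rw [hXe j i h1 h2, map_sum, Finset.sum_eq_single k]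
      · rw [map_add, map_smul, map_smul]; rfl
      · intro k' _ hk'
        rw [map_add, map_smul, map_smul, co_e_ne S (fun hh => hk' hh.1.symm),
          co_e_ne S (fun hh => hk' hh.1.symm)]
        simp
      · intro hh; exact absurd (Finset.mem_univ k) hh
    show (if p.1 then yc b e X j k p.2 else xc b e X j k p.2) = f ⟨(j, k), ⟨p, hp⟩⟩
    rw [← hf j k p hp]
    obtain ⟨t, i⟩ := p
    cases t with
    | false =>
      simp only [Bool.false_eq_true, if_false]
      have h3 := hv.2.2.1 rfl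
      unfold xc
      rw [hco i i hv.1 hv.2.1, co_e_self S h3, co_e_ne S (fun hh => by omega)]
      ring
    | true =>
      simp only [if_true]
      have h3 := hv.2.2.2 rfl
      unfold yc
      rw [hco i (i - 1) hv.1 hv.2.1, co_e_self S h3, co_e_ne S (fun hh => by omega)]
      ring

lemma finrank_XSpace_eq_sum :
    Module.finrank K (XSpace A As d δ θ θs) = ∑ j, ∑ k, (Pos d (r j) (r k)).card := by
  rw [(LinearEquiv.ofBijective _ (evalP_bijective h S hU hβ)).finrank_eq,
    Module.finrank_fintype_fun_eq_card, Fintype.card_sigma, Fintype.sum_prod_type]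
  simp

end

section

variable (h : IsTridiagonalPair A As d δ θ θs) (S : StrBasis A d θ r e b)
  (hU : ∀ j i, e j i ∈ splitSp A As d δ θ θs i)
include h S hU

open scoped Classical in
/-- The dimension of `V_i` is the number of strings through `i`. -/
lemma finrank_eigSp_eq [FiniteDimensional K V] (i : ℤ) :
    Module.finrank K (eigSp A d θ i) =
      ∑ j, if (r j : ℤ) ≤ i ∧ i ≤ d - r j then 1 else 0 := by
  rw [← finrank_Usp h i]
  have h1 : splitSp A As d δ θ θs i = Submodule.span K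
      (Set.range (fun j : {j : J // (r j : ℤ) ≤ i ∧ i ≤ d - r j} => e j.1 i)) := by
    apply le_antisymm
    · refine (Usp_span h S hU i).trans ?_
      rw [Submodule.span_le]
      rintro x ⟨j, rfl⟩
      by_cases hj : (r j : ℤ) ≤ i ∧ i ≤ d - r j
      · exact Submodule.subset_span ⟨⟨j, hj⟩, rfl⟩
      · rw [S.he0 j i hj]; exact Submodule.zero_mem _
    · rw [Submodule.span_le]
      rintro x ⟨j, rfl⟩
      exact hU j.1 i
  have hli : LinearIndependent K
      (fun j : {j : J // (r j : ℤ) ≤ i ∧ i ≤ d - r j} => e j.1 i) := by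
    have h2 := b.linearIndependent.comp
      (fun j : {j : J // (r j : ℤ) ≤ i ∧ i ≤ d - r j} => (⟨(j.1, i), j.2⟩ : Idx d r)) (by
        intro j k hjk
        simp only [Subtype.mk.injEq, Prod.mk.injEq, and_true] at hjk
        exact Subtype.ext hjk)
    have h3 : (⇑b ∘ fun j : {j : J // (r j : ℤ) ≤ i ∧ i ≤ d - r j} =>
        (⟨(j.1, i), j.2⟩ : Idx d r)) = fun j => e j.1 i := by
      funext j
      exact S.hb _
    rwa [h3] at h2
  rw [h1, finrank_span_eq_card hli, Fintype.card_subtype, Finset.card_filter]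

variable {β : K} (hβ : ∀ i : ℤ, 0 ≤ i → i + 3 ≤ d →
    θ (i + 3) = (β + 1) * θ (i + 2) - (β + 1) * θ (i + 1) + θ i)
include hβ

/-- The dimension formula. -/
theorem finrank_XSpace_formula [FiniteDimensional K V] :
    (Module.finrank K (XSpace A As d δ θ θs) : ℤ) =
      ∑ i ∈ Finset.Icc (0 : ℤ) d, (Module.finrank K (eigSp A d θ i) : ℤ) *
        (Module.finrank K (eigSp A d θ i) + Module.finrank K (eigSp A d θ (i + 1)) -
          Module.finrank K (eigSp A d θ (i + 2)) - Module.finrank K (eigSp A d θ (i + 3))) := by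
  classical
  rw [finrank_XSpace_eq_sum h S hU hβ]
  simp only [finrank_eigSp_eq h S hU]
  push_cast
  have h1 : ∀ j k, ((Pos d (r j) (r k)).card : ℤ) = _ :=
    fun j k => (Pos_card_eq (S.hr j) (S.hr k)).symm
  simp only [h1]
  have h2 : ∀ i ∈ Finset.Icc (0 : ℤ) d,
      ((∑ j, if (r j : ℤ) ≤ i ∧ i ≤ d - r j then (1 : ℤ) else 0) *
      ((∑ j, if (r j : ℤ) ≤ i ∧ i ≤ d - r j then (1 : ℤ) else 0) +
      (∑ j, if (r j : ℤ) ≤ i + 1 ∧ i + 1 ≤ d - r j then (1 : ℤ) else 0) -
      (∑ j, if (r j : ℤ) ≤ i + 2 ∧ i + 2 ≤ d - r j then (1 : ℤ) else 0) -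
      (∑ j, if (r j : ℤ) ≤ i + 3 ∧ i + 3 ≤ d - r j then (1 : ℤ) else 0))) =
      ∑ j, ∑ k, ((if (r j : ℤ) ≤ i ∧ i ≤ d - r j then (1 : ℤ) else 0) *
        ((if (r k : ℤ) ≤ i ∧ i ≤ d - r k then (1 : ℤ) else 0) +
        (if (r k : ℤ) ≤ i + 1 ∧ i + 1 ≤ d - r k then (1 : ℤ) else 0) -
        (if (r k : ℤ) ≤ i + 2 ∧ i + 2 ≤ d - r k then (1 : ℤ) else 0) -
        (if (r k : ℤ) ≤ i + 3 ∧ i + 3 ≤ d - r k then (1 : ℤ) else 0))) := by
    intro i _
    simp only [← Finset.mul_sum, ← Finset.sum_mul, Finset.sum_add_distrib,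
      Finset.sum_sub_distrib]
  refine Eq.trans ?_ (Finset.sum_congr rfl h2).symm
  rw [Finset.sum_comm (s := Finset.Icc (0 : ℤ) d)]
  refine Finset.sum_congr rfl fun j _ => ?_
  rw [Finset.sum_comm (s := Finset.Icc (0 : ℤ) d)]

end

end Pool.Agent.Lib.MP_b7840d_al
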